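import Mathlib
import Pool.Agent.W527.Cycle

/-!
# Classes of points that are not exchanged by flips

A group `G` acts on a finite set `Y` with an involution `cb` without fixed points.  Two points are
flipped if some group element fixes one and conjugates the other, or moves `y` to `z` and `z` to
`cb y`.  The equivalence relation generated by not being flipped is called linkage.  Linear relations
between the translates of an odd function split over the classes.
-/

set_option linter.unusedSectionVars false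
set_option linter.unusedVariables false

namespace Pool.Agent.TH127.SC

section defs

variable (G : Type*) {Y : Type*} [Group G] [MulAction G Y]

/-- Some element fixes one of the points `y`, `z` and conjugates the other one, or moves `y` to `z`
and `z` to the conjugate of `y`. -/
def Flip (cb : Y → Y) (y z : Y) : Prop :=
  ∃ g : G, (g • y = y ∧ g • z = cb z) ∨ (g • y = cb y ∧ g • z = z) ∨ (g • y = z ∧ g • z = cb y)

/-- The equivalence relation generated by not being flipped. -/
def Link (cb : Y → Y) : Y → Y → Prop := Relation.EqvGen fun y z => ¬ Flip G cb y z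

end defs

variable {G Y : Type*} [Group G] [MulAction G Y] {cb : Y → Y}

theorem link_refl (y : Y) : Link G cb y y := Relation.EqvGen.refl y

theorem link_symm {y z : Y} (h : Link G cb y z) : Link G cb z y := Relation.EqvGen.symm _ _ h

theorem link_trans {x y z : Y} (h : Link G cb x y) (h' : Link G cb y z) : Link G cb x z :=
  Relation.EqvGen.trans _ _ _ h h'

theorem flip_of_not_link {y z : Y} (h : ¬ Link G cb y z) : Flip G cb y z := by
  by_contra hcon
  exact h (Relation.EqvGen.rel _ _ hcon)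

variable (hcb : ∀ y, cb (cb y) = y) (hne : ∀ y, cb y ≠ y)
  (hG : ∀ (g : G) (y : Y), g • cb y = cb (g • y))

include hG in
theorem flip_smul (k : G) {y z : Y} (h : Flip G cb (k • y) (k • z)) : Flip G cb y z := by
  obtain ⟨g, h⟩ := h
  have key : ∀ a b : Y, g • k • a = k • b → (k⁻¹ * g * k) • a = b := by
    intro a b h
    rw [mul_smul, mul_smul, h, inv_smul_smul]
  refine ⟨k⁻¹ * g * k, ?_⟩
  rcases h with ⟨h1, h2⟩ | ⟨h1, h2⟩ | ⟨h1, h2⟩
  · exact Or.inl ⟨key _ _ h1, key _ _ (by rw [h2, hG])⟩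
  · exact Or.inr (Or.inl ⟨key _ _ (by rw [h1, hG]), key _ _ h2⟩)
  · exact Or.inr (Or.inr ⟨key _ _ h1, key _ _ (by rw [h2, hG])⟩)

include hG in
theorem link_smul (k : G) {y z : Y} (h : Link G cb y z) : Link G cb (k • y) (k • z) := by
  unfold Link at h
  induction h with
  | rel a b hab =>
    refine Relation.EqvGen.rel _ _ fun hf => hab (flip_smul hG k hf)
  | refl a => exact link_refl _
  | symm a b _ ih => exact link_symm ih
  | trans a b c _ _ ih1 ih2 => exact link_trans ih1 ih2

include hG in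
theorem link_smul_iff (k : G) {y z : Y} : Link G cb (k • y) (k • z) ↔ Link G cb y z := by
  refine ⟨fun h => ?_, link_smul hG k⟩
  have h1 := link_smul hG k⁻¹ h
  rwa [inv_smul_smul, inv_smul_smul] at h1

include hcb hne hG in
theorem link_cb (y : Y) : Link G cb y (cb y) := by
  refine Relation.EqvGen.rel _ _ ?_
  rintro ⟨g, ⟨h1, h2⟩ | ⟨h1, h2⟩ | ⟨h1, h2⟩⟩
  · rw [hG, h1, hcb] at h2
    exact hne y h2
  · rw [hG, h1, hcb] at h2
    exact hne y h2.symm
  · rw [hG, h1, hcb] at h2
    exact hne y h2.symm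

include hcb hG in
theorem flip_cb_right {y z : Y} (h : Flip G cb y (cb z)) : Flip G cb y z := by
  obtain ⟨g, ⟨h1, h2⟩ | ⟨h1, h2⟩ | ⟨h1, h2⟩⟩ := h
  · refine ⟨g, Or.inl ⟨h1, ?_⟩⟩
    rw [hG, hcb] at h2
    rw [← hcb (g • z), h2]
  · refine ⟨g, Or.inr (Or.inl ⟨h1, ?_⟩)⟩
    rw [hG] at h2
    rw [← hcb (g • z), h2, hcb]
  · -- `g y = cb z`, `g cb z = cb y`, so `g z = y` and `g⁻¹ y = z`, `g⁻¹ z = cb y`
    rw [hG] at h2
    have h3 : g • z = y := by rw [← hcb (g • z), h2, hcb]
    refine ⟨g⁻¹, Or.inr (Or.inr ⟨?_, ?_⟩)⟩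
    · rw [← h3, inv_smul_smul]
    · rw [inv_smul_eq_iff, hG, h1, hcb]

include hG in
theorem flip_symm {y z : Y} (h : Flip G cb y z) (hcb : ∀ y, cb (cb y) = y) : Flip G cb z y := by
  obtain ⟨g, ⟨h1, h2⟩ | ⟨h1, h2⟩ | ⟨h1, h2⟩⟩ := h
  · exact ⟨g, Or.inr (Or.inl ⟨h2, h1⟩)⟩
  · exact ⟨g, Or.inl ⟨h2, h1⟩⟩
  · refine ⟨g⁻¹, Or.inr (Or.inr ⟨?_, ?_⟩)⟩
    · rw [← h1, inv_smul_smul]
    · rw [inv_smul_eq_iff, hG, h2, hcb]

section split

variable [Fintype Y] [Fintype G]

open Classical in
include hG in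
/-- Relations split over the classes. -/
theorem core_split {W : Y → ℤ} (hW : ∀ y, W (cb y) = -W y) {c : Y → ℤ}
    (hrel : ∀ g : G, ∑ y, c y * W (g • y) = 0) (y₀ : Y) (g : G) :
    ∑ y ∈ Finset.univ.filter (fun y => Link G cb y₀ y), c y * W (g • y) = 0 := by
  let A : Y → Y → ℤ := fun x y => ∑ g : G, W (g • x) * W (g • y)
  have hAinv : ∀ (h : G) x y, A (h • x) (h • y) = A x y := by
    intro h x y
    simp only [A, ← mul_smul]
    exact Fintype.sum_equiv (Equiv.mulRight h) _ _ fun g => rfl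
  have hAsymm : ∀ x y, A x y = A y x := fun x y => Finset.sum_congr rfl fun g _ => mul_comm _ _
  have hA1 : ∀ x y, A (cb x) y = -A x y := by
    intro x y
    simp only [A, hG, hW, neg_mul, Finset.sum_neg_distrib]
  have hA2 : ∀ x y, A x (cb y) = -A x y := by
    intro x y
    simp only [A, hG, hW, mul_neg, Finset.sum_neg_distrib]
  have hA0 : ∀ x y, ¬ Link G cb x y → A x y = 0 := by
    intro x y h1
    obtain ⟨g, ⟨hg1, hg2⟩ | ⟨hg1, hg2⟩ | ⟨hg1, hg2⟩⟩ := flip_of_not_link h1
    · have h3 := hAinv g x y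
      rw [hg1, hg2, hA2] at h3
      omega
    · have h3 := hAinv g x y
      rw [hg1, hg2, hA1] at h3
      omega
    · have h3 := hAinv g x y
      rw [hg1, hg2, hA2, hAsymm] at h3
      omega
  have h1 : ∀ y, ∑ x, c x * A x y = 0 := by
    intro y
    simp only [A, Finset.mul_sum]
    rw [Finset.sum_comm]
    refine Finset.sum_eq_zero fun g _ => ?_
    have h2 : ∑ x, c x * (W (g • x) * W (g • y)) = (∑ x, c x * W (g • x)) * W (g • y) := by
      rw [Finset.sum_mul]
      exact Finset.sum_congr rfl fun x _ => by ring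
    rw [h2, hrel g, zero_mul]
  set B := Finset.univ.filter (fun y => Link G cb y₀ y) with hB
  have h2 : ∀ y ∈ B, ∑ x ∈ B, c x * A x y = 0 := by
    intro y hy
    rw [← h1 y]
    refine Finset.sum_subset (Finset.subset_univ _) fun x _ hx => ?_
    rw [hA0, mul_zero]
    intro h3
    apply hx
    rw [hB, Finset.mem_filter] at hy ⊢
    exact ⟨Finset.mem_univ _, link_trans hy.2 (link_symm h3)⟩
  have h3 : ∑ g : G, (∑ x ∈ B, c x * W (g • x)) ^ 2 = 0 := by
    have h4 : ∑ y ∈ B, c y * ∑ x ∈ B, c x * A x y = 0 :=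
      Finset.sum_eq_zero fun y hy => by rw [h2 y hy, mul_zero]
    rw [← h4]
    calc ∑ g : G, (∑ x ∈ B, c x * W (g • x)) ^ 2 =
        ∑ g : G, ∑ y ∈ B, ∑ x ∈ B, c y * (c x * (W (g • x) * W (g • y))) := by
          refine Finset.sum_congr rfl fun g _ => ?_
          rw [sq, Finset.sum_mul_sum]
          exact Finset.sum_congr rfl fun y _ => Finset.sum_congr rfl fun x _ => by ring
      _ = ∑ y ∈ B, ∑ x ∈ B, ∑ g : G, c y * (c x * (W (g • x) * W (g • y))) := by
          rw [Finset.sum_comm]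
          exact Finset.sum_congr rfl fun y _ => Finset.sum_comm
      _ = ∑ y ∈ B, c y * ∑ x ∈ B, c x * A x y := by
          refine Finset.sum_congr rfl fun y _ => ?_
          rw [Finset.mul_sum]
          refine Finset.sum_congr rfl fun x _ => ?_
          simp only [A, Finset.mul_sum]
  have h5 := (Finset.sum_eq_zero_iff_of_nonneg (fun g _ => sq_nonneg _)).1 h3 g (Finset.mem_univ g)
  exact pow_eq_zero_iff (two_ne_zero) |>.1 h5

end split

end Pool.Agent.TH127.SC
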