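import Mathlib
import Pool.Agent.TH127.SC.Core

/-!
# Classes of prime length
-/

set_option linter.unusedSectionVars false
set_option linter.unusedVariables false

namespace Pool.Agent.TH127.SC

open Pool.Agent.W527

variable {G Y : Type*} [Group G] [MulAction G Y] {cb : Y → Y}

section cycle

variable (hcb : ∀ y, cb (cb y) = y) (hne : ∀ y, cb y ≠ y)
  (hG : ∀ (g : G) (y : Y), g • cb y = cb (g • y))

/-- The points of a cycle of prime length are different. -/
theorem cycle_inj {r : ℕ} [hr : Fact r.Prime] {h : G} {y : Y} (hmove : h • y ≠ y)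
    (hper : h ^ r • y = y) (k l : ℕ) (hk : k < r) (hl : l < r) (hkl : h ^ k • y = h ^ l • y) :
    k = l := by
  have hmin : Function.minimalPeriod (fun z : Y => h • z) y = r := by
    have h1 : Function.IsPeriodicPt (fun z : Y => h • z) r y := by
      change (fun z : Y => h • z)^[r] y = y
      rw [smul_iterate]
      exact hper
    have h2 := h1.minimalPeriod_dvd
    rcases (Nat.dvd_prime hr.out).1 h2 with h3 | h3
    · exfalso
      apply hmove
      have h4 := Function.isPeriodicPt_minimalPeriod (fun z : Y => h • z) y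
      rw [h3] at h4
      exact h4
    · exact h3
  have hPinj : ∀ n, h ^ n • y = y → r ∣ n := by
    intro n hn
    rw [← hmin]
    apply Function.IsPeriodicPt.minimalPeriod_dvd
    change (fun z : Y => h • z)^[n] y = y
    rw [smul_iterate]
    exact hn
  have aux : ∀ k l, k ≤ l → k < r → l < r → h ^ k • y = h ^ l • y → k = l := by
    intro k l hkl hk hl h'
    have h1 : h ^ (l - k) • y = y := by
      have h2 : h ^ k • (h ^ (l - k) • y) = h ^ l • y := by
        rw [← mul_smul, ← pow_add, Nat.add_sub_cancel' hkl]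
      rw [← h'] at h2
      exact smul_left_cancel _ h2
    have h2 := hPinj _ h1
    by_contra hne
    have h3 := Nat.le_of_dvd (by omega) h2
    omega
  rcases le_total k l with h1 | h1
  · exact aux k l h1 hk hl hkl
  · exact (aux l k h1 hl hk hkl.symm).symm

theorem cycle_mod {r : ℕ} {h : G} {y : Y} (hper : h ^ r • y = y) (n : ℕ) :
    h ^ n • y = h ^ (n % r) • y := by
  have h1 : ∀ m : ℕ, (h ^ r) ^ m • y = y := by
    intro m
    induction m with
    | zero => rw [pow_zero, one_smul]
    | succ m ih => rw [pow_succ, mul_smul, hper, ih]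
  conv_lhs => rw [← Nat.mod_add_div n r, pow_add, mul_smul, pow_mul, h1]

variable [Fintype Y]

open Classical in
include hcb in
/-- Sum over a class that is a cycle and its conjugate. -/
theorem sum_cycle {r : ℕ} [hr : Fact r.Prime] {h : G} {y : Y} (hmove : h • y ≠ y)
    (hper : h ^ r • y = y) (hdis : ∀ k l : ℕ, cb (h ^ k • y) ≠ h ^ l • y)
    (hall : ∀ z, Link G cb y z ↔ ∃ k : ℕ, z = h ^ k • y ∨ z = cb (h ^ k • y)) (F : Y → ℤ)
    (hF : ∀ z, F (cb z) = F z) :
    ∑ z ∈ Finset.univ.filter (fun z => Link G cb y z), F z =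
      2 * ∑ k ∈ Finset.range r, F (h ^ k • y) := by
  let S : Finset Y := (Finset.range r).image (fun k => h ^ k • y)
  let S' : Finset Y := (Finset.range r).image (fun k => cb (h ^ k • y))
  have hinj := cycle_inj (r := r) hmove hper
  have hdisj : Disjoint S S' := by
    rw [Finset.disjoint_left]
    intro z hz hz'
    obtain ⟨k, _, rfl⟩ := Finset.mem_image.1 hz
    obtain ⟨l, _, hl⟩ := Finset.mem_image.1 hz'
    exact hdis l k hl
  have hU : Finset.univ.filter (fun z => Link G cb y z) = S ∪ S' := by
    ext z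
    simp only [Finset.mem_filter, Finset.mem_univ, true_and, hall, Finset.mem_union, S, S',
      Finset.mem_image, Finset.mem_range]
    constructor
    · rintro ⟨k, rfl | rfl⟩
      · exact Or.inl ⟨k % r, Nat.mod_lt _ hr.out.pos, (cycle_mod hper k).symm⟩
      · exact Or.inr ⟨k % r, Nat.mod_lt _ hr.out.pos, by rw [← cycle_mod hper k]⟩
    · rintro (⟨k, _, rfl⟩ | ⟨k, _, rfl⟩)
      · exact ⟨k, Or.inl rfl⟩
      · exact ⟨k, Or.inr rfl⟩
  rw [hU, Finset.sum_union hdisj, Finset.sum_image, Finset.sum_image]
  · simp only [hF]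
    ring
  · intro k hk l hl h'
    have h4 : h ^ k • y = h ^ l • y := by
      have h5 := congrArg cb h'
      simpa only [hcb] using h5
    exact hinj k l (Finset.mem_range.1 hk) (Finset.mem_range.1 hl) h4
  · intro k hk l hl h'
    exact hinj k l (Finset.mem_range.1 hk) (Finset.mem_range.1 hl) h'

open Classical in
include hcb hG in
/-- Relations are invariant under the cycle. -/
theorem cycle_const {r : ℕ} [hr : Fact r.Prime] {W : Y → ℤ} (hW : ∀ y, W (cb y) = -W y)
    {c : Y → ℤ} (hc : ∀ y, c (cb y) = -c y)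
    {h : G} {y : Y} (hmove : h • y ≠ y)
    (hper : h ^ r • y = y) (hdis : ∀ k l : ℕ, cb (h ^ k • y) ≠ h ^ l • y)
    (hall : ∀ z, Link G cb y z ↔ ∃ k : ℕ, z = h ^ k • y ∨ z = cb (h ^ k • y))
    (hsep : ∃ g' : G, W (g' • h • y) ≠ W (g' • y)) (g : G)
    (hcl : ∀ g' : G, ∑ z ∈ Finset.univ.filter (fun z => Link G cb y z),
      c (g • z) * W (g' • z) = 0) :
    c (g • h • y) = c (g • y) := by
  obtain ⟨g', hg'⟩ := hsep
  let P : ℕ → Y := fun k => h ^ k • y
  have hPadd : ∀ k l, h ^ l • P k = P (k + l) := by
    intro k l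
    simp only [P]
    rw [← mul_smul, ← pow_add, add_comm]
  have hPr : ∀ k, P (k + r) = P k := by
    intro k
    rw [← hPadd, ← Nat.mod_add_div k r]
    simp only [P]
    rw [← mul_smul, ← pow_add, add_comm, pow_add, mul_smul, hper]
  have hsum : ∀ j, ∑ k ∈ Finset.range r, c (g • P k) * W (g' • P (k + j)) = 0 := by
    intro j
    have h1 := hcl (g' * h ^ j)
    rw [sum_cycle hcb (r := r) hmove hper hdis hall
      (fun z => c (g • z) * W ((g' * h ^ j) • z)) (fun z => by
        rw [hG, hG, hc, hW]
        ring)] at h1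
    have h2 : ∑ k ∈ Finset.range r, c (g • h ^ k • y) * W ((g' * h ^ j) • h ^ k • y) = 0 := by
      omega
    rw [← h2]
    refine Finset.sum_congr rfl fun k _ => ?_
    rw [mul_smul g' (h ^ j)]
    have h3 : h ^ j • h ^ k • y = P (k + j) := hPadd k j
    rw [h3]
  have hper' : ∀ f : ℕ → ℤ, (∀ k, f (k + r) = f k) →
      ∑ k ∈ Finset.range r, f (k + 1) = ∑ k ∈ Finset.range r, f k := by
    intro f hf
    have h1 := Finset.sum_range_succ' f r
    have h2 := Finset.sum_range_succ f r
    have h3 := hf 0
    rw [zero_add] at h3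
    rw [h1, h3] at h2
    exact add_right_cancel h2
  have htel : ∑ k ∈ Finset.range r, (c (g • P (k + 1)) - c (g • P k)) = 0 := by
    rw [Finset.sum_sub_distrib, hper' (fun k => c (g • P k)) (fun k => by rw [hPr]), sub_self]
  rcases cyclic_relation (r := r) (fun k => c (g • P (k + 1)) - c (g • P k))
    (fun k => W (g' • P k)) (fun k => by rw [hPr]) htel (fun j => by
      simp only [sub_mul, Finset.sum_sub_distrib]
      rw [hsum j, sub_zero]
      have h1 := hsum (j + (r - 1))
      rw [← hper' (fun k => c (g • P k) * W (g' • P (k + (j + (r - 1))))) (fun k => by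
        rw [hPr, show k + r + (j + (r - 1)) = (k + (j + (r - 1))) + r by ring, hPr])] at h1
      rw [← h1]
      refine Finset.sum_congr rfl fun k _ => ?_
      rw [show k + 1 + (j + (r - 1)) = k + j + r by have := hr.out.pos; omega, hPr]) with h1 | h1
  · have h2 := h1 0 hr.out.pos
    simp only [P, zero_add, pow_one, pow_zero, one_smul] at h2
    omega
  · exfalso
    have h2 := h1 1
    simp only [P, pow_one, pow_zero, one_smul] at h2
    exact hg' h2

end cycle

end Pool.Agent.TH127.SC
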