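import Mathlib
import Pool.Agent.TH127.SC.Cyc

/-!
# The stabilizer of a class, and cycles in it
-/

set_option linter.unusedSectionVars false
set_option linter.unusedVariables false

namespace Pool.Agent.TH127.SC

open Pool.Agent.W527

variable {G Y : Type*} [Group G] [MulAction G Y] {cb : Y → Y}

/-- The class of a point. -/
abbrev Cls (G : Type*) {Y : Type*} [Group G] [MulAction G Y] (cb : Y → Y) (y₀ : Y) : Type _ :=
  {z : Y // Link G cb y₀ z}

section

variable (hcb : ∀ y, cb (cb y) = y) (hne : ∀ y, cb y ≠ y)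
  (hG : ∀ (g : G) (y : Y), g • cb y = cb (g • y))

/-- The stabilizer of the class of `y₀`. -/
def stab (hG : ∀ (g : G) (y : Y), g • cb y = cb (g • y)) (y₀ : Y) : Subgroup G where
  carrier := {g | Link G cb y₀ (g • y₀)}
  one_mem' := by
    change Link G cb y₀ ((1 : G) • y₀)
    rw [one_smul]
    exact link_refl _
  mul_mem' := by
    intro a b ha hb
    change Link G cb y₀ ((a * b) • y₀)
    rw [mul_smul]
    exact link_trans ha (link_smul hG a hb)
  inv_mem' := by
    intro a ha
    change Link G cb y₀ (a⁻¹ • y₀)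
    have h1 := link_smul hG a⁻¹ ha
    rw [inv_smul_smul] at h1
    exact link_symm h1

/-- The stabilizer acts on the class. -/
@[reducible] def stabAct (hG : ∀ (g : G) (y : Y), g • cb y = cb (g • y)) (y₀ : Y) :
    MulAction (stab hG y₀) (Cls G cb y₀) where
  smul g z := ⟨(g : G) • z.1, link_trans g.2 (link_smul hG g z.2)⟩
  one_smul z := Subtype.ext (one_smul G z.1)
  mul_smul a b z := Subtype.ext (mul_smul (a : G) (b : G) z.1)

end

section exist

variable [Finite Y] (hcb : ∀ y, cb (cb y) = y) (hne : ∀ y, cb y ≠ y)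
  (hG : ∀ (g : G) (y : Y), g • cb y = cb (g • y))

theorem link_iff_of_link {y₀ y z : Y} (h : Link G cb y₀ y) : Link G cb y z ↔ Link G cb y₀ z :=
  ⟨fun h' => link_trans h h', fun h' => link_trans (link_symm h) h'⟩

include hcb hne hG in
theorem exists_cycle_two (y₀ : Y) (htr : ∀ z, Link G cb y₀ z → ∃ g : G, g • y₀ = z)
    (hcard : Nat.card (Cls G cb y₀) = 2 * 2) :
    ∃ (h : G) (y : Y), Link G cb y₀ y ∧ h • y ≠ y ∧ h ^ 2 • y = y ∧
      (∀ k l : ℕ, cb (h ^ k • y) ≠ h ^ l • y) ∧
      ∀ z, Link G cb y z ↔ ∃ k : ℕ, z = h ^ k • y ∨ z = cb (h ^ k • y) := by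
  classical
  have := Fintype.ofFinite Y
  let B : Finset Y := Finset.univ.filter (fun z => Link G cb y₀ z)
  have hB : ∀ z, z ∈ B ↔ Link G cb y₀ z := fun z => by simp [B]
  have hBc : B.card = 4 := by
    rw [← Fintype.card_subtype, ← Nat.card_eq_fintype_card]
    exact hcard
  have h0 : cb y₀ ≠ y₀ := hne y₀
  obtain ⟨y₁, hy₁B, hy₁⟩ : ∃ y₁ ∈ B, y₁ ∉ ({y₀, cb y₀} : Finset Y) := by
    by_contra hcon
    push Not at hcon
    have h1 : B.card ≤ ({y₀, cb y₀} : Finset Y).card := Finset.card_le_card hcon
    have h2 : ({y₀, cb y₀} : Finset Y).card ≤ 2 := Finset.card_le_two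
    omega
  rw [Finset.mem_insert, Finset.mem_singleton, not_or] at hy₁
  obtain ⟨hn1, hn2⟩ := hy₁
  have hl1 := (hB y₁).1 hy₁B
  have hn3 : cb y₁ ≠ y₀ := fun h => hn2 (by rw [← h, hcb])
  have hn4 : cb y₁ ≠ cb y₀ := fun h => hn1 (by rw [← hcb y₁, h, hcb])
  have hQ : ({y₀, cb y₀, y₁, cb y₁} : Finset Y) = B := by
    apply Finset.eq_of_subset_of_card_le
    · intro z hz
      rw [hB]
      simp only [Finset.mem_insert, Finset.mem_singleton] at hz
      rcases hz with rfl | rfl | rfl | rfl
      · exact link_refl _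
      · exact link_cb hcb hne hG _
      · exact hl1
      · exact link_trans hl1 (link_cb hcb hne hG _)
    · rw [hBc, Finset.card_insert_of_notMem, Finset.card_insert_of_notMem,
        Finset.card_insert_of_notMem, Finset.card_singleton]
      · rw [Finset.mem_singleton]
        exact Ne.symm (hne y₁)
      · rw [Finset.mem_insert, Finset.mem_singleton]
        rintro (h | h)
        · exact hn2 h.symm
        · exact hn4 h.symm
      · rw [Finset.mem_insert, Finset.mem_insert, Finset.mem_singleton]
        rintro (h | h | h)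
        · exact h0 h.symm
        · exact hn1 h.symm
        · exact hn3 h.symm
  have hmem : ∀ z, Link G cb y₀ z → z = y₀ ∨ z = cb y₀ ∨ z = y₁ ∨ z = cb y₁ := by
    intro z hz
    have h1 := (hB z).2 hz
    rw [← hQ] at h1
    simpa only [Finset.mem_insert, Finset.mem_singleton] using h1
  -- `y₀` and `y₁` are not flipped
  have hnf : ¬ Flip G cb y₀ y₁ := by
    intro hf
    have hf1 : Flip G cb y₀ (cb y₁) := flip_cb_right hcb hG (by rw [hcb]; exact hf)
    have hf2 : Flip G cb (cb y₀) y₁ := flip_symm hG (flip_cb_right hcb hG (by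
      rw [hcb]
      exact flip_symm hG hf hcb)) hcb
    have hf3 : Flip G cb (cb y₀) (cb y₁) := flip_cb_right hcb hG (by rw [hcb]; exact hf2)
    have key : ∀ a b : Y, Link G cb a b → Link G cb y₀ a →
        ((a = y₀ ∨ a = cb y₀) ↔ (b = y₀ ∨ b = cb y₀)) := by
      intro a b hab
      unfold Link at hab
      induction hab with
      | rel a b hab =>
        intro ha
        have hb : Link G cb y₀ b := link_trans ha (Relation.EqvGen.rel _ _ hab)
        have hba : ¬ Flip G cb b a := fun h => hab (flip_symm hG h hcb)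
        constructor
        · intro h
          rcases hmem b hb with h1 | h1 | h1 | h1
          · exact Or.inl h1
          · exact Or.inr h1
          · exfalso
            rcases h with h | h <;> subst h <;> subst h1
            · exact hab hf
            · exact hab hf2
          · exfalso
            rcases h with h | h <;> subst h <;> subst h1
            · exact hab hf1
            · exact hab hf3
        · intro h
          rcases hmem a ha with h1 | h1 | h1 | h1
          · exact Or.inl h1
          · exact Or.inr h1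
          · exfalso
            rcases h with h | h <;> subst h <;> subst h1
            · exact hba hf
            · exact hba hf2
          · exfalso
            rcases h with h | h <;> subst h <;> subst h1
            · exact hba hf1
            · exact hba hf3
      | refl a => exact fun _ => Iff.rfl
      | symm a b h ih =>
        intro hb
        exact (ih (link_trans hb (link_symm h))).symm
      | trans a b c h1 h2 ih1 ih2 =>
        intro ha
        exact (ih1 ha).trans (ih2 (link_trans ha h1))
    rcases (key y₀ y₁ hl1 (link_refl _)).1 (Or.inl rfl) with h | h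
    · exact hn1 h
    · exact hn2 h
  obtain ⟨h, hh⟩ := htr y₁ hl1
  have hh1 : h • y₁ = y₀ := by
    have h1 : Link G cb y₀ (h • y₁) := by
      have h2 := link_smul hG h hl1
      rw [hh] at h2
      exact link_trans hl1 h2
    rcases hmem _ h1 with h2 | h2 | h2 | h2
    · exact h2
    · exact absurd ⟨h, Or.inr (Or.inr ⟨hh, h2⟩)⟩ hnf
    · exact absurd (smul_left_cancel h (h2.trans hh.symm)) hn1
    · have h3 : h • cb y₀ = cb y₁ := by rw [hG, hh]
      exact absurd (smul_left_cancel h (h2.trans h3.symm)) hn2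
  have hpow : ∀ k : ℕ, h ^ k • y₀ = y₀ ∨ h ^ k • y₀ = y₁ := by
    intro k
    induction k with
    | zero => exact Or.inl (by rw [pow_zero, one_smul])
    | succ k ih =>
      rw [pow_succ', mul_smul]
      rcases ih with h1 | h1
      · exact Or.inr (by rw [h1, hh])
      · exact Or.inl (by rw [h1, hh1])
  refine ⟨h, y₀, link_refl _, ?_, ?_, ?_, ?_⟩
  · rw [hh]
    exact hn1
  · rw [sq, mul_smul, hh, hh1]
  · intro k l hkl
    rcases hpow k with h1 | h1 <;> rcases hpow l with h2 | h2 <;> rw [h1, h2] at hkl
    · exact h0 hkl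
    · exact hn2 hkl.symm
    · exact hn3 hkl
    · exact hne _ hkl
  · intro z
    constructor
    · intro hz
      rcases hmem z hz with h1 | h1 | h1 | h1
      · exact ⟨0, Or.inl (by rw [h1, pow_zero, one_smul])⟩
      · exact ⟨0, Or.inr (by rw [h1, pow_zero, one_smul])⟩
      · exact ⟨1, Or.inl (by rw [h1, pow_one, hh])⟩
      · exact ⟨1, Or.inr (by rw [h1, pow_one, hh])⟩
    · rintro ⟨k, h1⟩
      rcases hpow k with h2 | h2 <;> rw [h2] at h1 <;> rcases h1 with rfl | rfl
      · exact link_refl _
      · exact link_cb hcb hne hG _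
      · exact hl1
      · exact link_trans hl1 (link_cb hcb hne hG _)

include hcb hne hG in
theorem exists_cycle_odd [Finite G] (y₀ : Y) (htr : ∀ z, Link G cb y₀ z → ∃ g : G, g • y₀ = z)
    {b : ℕ} (hb : b.Prime) (hb2 : b ≠ 2) (hcard : Nat.card (Cls G cb y₀) = 2 * b) :
    ∃ (h : G) (y : Y), Link G cb y₀ y ∧ h • y ≠ y ∧ h ^ b • y = y ∧
      (∀ k l : ℕ, cb (h ^ k • y) ≠ h ^ l • y) ∧
      ∀ z, Link G cb y z ↔ ∃ k : ℕ, z = h ^ k • y ∨ z = cb (h ^ k • y) := by
  classical
  have := Fintype.ofFinite Y
  have : Fact b.Prime := ⟨hb⟩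
  let _ : MulAction (stab hG y₀) (Cls G cb y₀) := stabAct hG y₀
  let R := (MulAction.toPermHom (stab hG y₀) (Cls G cb y₀)).range
  -- the image in the group of permutations is transitive
  have hact : ∀ (g : stab hG y₀) (z : Cls G cb y₀), ((g • z : Cls G cb y₀) : Y) = (g : G) • z.1 :=
    fun g z => rfl
  have hdvd : b ∣ Nat.card R := by
    have h1 : MulAction.orbit R (⟨y₀, link_refl y₀⟩ : Cls G cb y₀) = Set.univ := by
      rw [Set.eq_univ_iff_forall]
      rintro ⟨z, hz⟩
      obtain ⟨g, hg⟩ := htr z hz
      let g' : stab hG y₀ := ⟨g, by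
        change Link G cb y₀ (g • y₀)
        rw [hg]
        exact hz⟩
      refine ⟨⟨MulAction.toPermHom (stab hG y₀) (Cls G cb y₀) g', ⟨g', rfl⟩⟩, ?_⟩
      apply Subtype.ext
      exact hg
    have h2 := MulAction.card_orbit_mul_card_stabilizer_eq_card_group R
      (⟨y₀, link_refl y₀⟩ : Cls G cb y₀)
    have h3 : Fintype.card (MulAction.orbit R (⟨y₀, link_refl y₀⟩ : Cls G cb y₀)) = 2 * b := by
      rw [← Nat.card_eq_fintype_card, h1, Nat.card_coe_set_eq, Set.ncard_univ, hcard]
    rw [Nat.card_eq_fintype_card, ← h2, h3]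
    exact Dvd.dvd.mul_right (Dvd.intro_left 2 rfl) _
  obtain ⟨ρ, hρ⟩ := exists_prime_orderOf_dvd_card' b hdvd
  obtain ⟨h, hh⟩ := ρ.2
  set σ := MulAction.toPermHom (stab hG y₀) (Cls G cb y₀) h with hσdef
  have hord : orderOf σ = b := by rw [hh, Subgroup.orderOf_coe, hρ]
  have hσ : ∀ (z : Cls G cb y₀) (n : ℕ), (((σ ^ n) z : Cls G cb y₀) : Y) = (h : G) ^ n • z.1 := by
    intro z n
    induction n with
    | zero => rw [pow_zero, pow_zero, one_smul]; rfl
    | succ n ih =>
      rw [pow_succ', pow_succ', mul_smul, ← ih]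
      rfl
  have hσb : σ ^ b = 1 := by rw [← hord]; exact pow_orderOf_eq_one σ
  have hσ1 : σ ≠ 1 := by
    intro h1
    rw [h1, orderOf_one] at hord
    exact hb.one_lt.ne hord
  obtain ⟨⟨y, hy⟩, hy1⟩ : ∃ z : Cls G cb y₀, σ z ≠ z := by
    by_contra hcon
    push Not at hcon
    exact hσ1 (Equiv.ext hcon)
  have hmove : (h : G) • y ≠ y := by
    intro h1
    apply hy1
    apply Subtype.ext
    have h2 := hσ ⟨y, hy⟩ 1
    rw [pow_one, pow_one] at h2
    rw [h2]
    exact h1
  have hper : (h : G) ^ b • y = y := by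
    have h2 := hσ ⟨y, hy⟩ b
    rw [hσb] at h2
    exact h2.symm
  have hpos := hb.pos
  let P : ℕ → Y := fun k => (h : G) ^ k • y
  have hP0 : P 0 = y := by simp only [P, pow_zero, one_smul]
  have hPadd : ∀ k l, P (k + l) = (h : G) ^ l • P k := by
    intro k l
    simp only [P]
    rw [← mul_smul, ← pow_add, add_comm]
  have hPr : ∀ k, P (k + b) = P k := by
    intro k
    rw [add_comm, hPadd b k]
    simp only [P]
    rw [hper]
  have hPmul : ∀ n k, P (k + b * n) = P k := by
    intro n
    induction n with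
    | zero => intro k; rw [mul_zero, add_zero]
    | succ n ih => intro k; rw [Nat.mul_succ, ← add_assoc, hPr, ih]
  have hinj := cycle_inj (r := b) hmove hper
  have hPinj : ∀ n, P n = y → b ∣ n := by
    intro n hn
    have h1 : P (n % b) = P 0 := by
      rw [hP0, ← hn]
      exact (cycle_mod hper n).symm
    have h2 := hinj (n % b) 0 (Nat.mod_lt _ hpos) hpos h1
    exact Nat.dvd_of_mod_eq_zero h2
  have hdis : ∀ k l : ℕ, cb (P k) ≠ P l := by
    intro k l h'
    have hPow : ∀ (n : ℕ) (z : Y), (h : G) ^ n • cb z = cb ((h : G) ^ n • z) := fun n z => hG _ _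
    have h1 : cb (P (k + (b * k - k))) = P (l + (b * k - k)) := by
      rw [hPadd, hPadd, ← hPow, h']
    have h2 : k + (b * k - k) = 0 + b * k := by
      have := Nat.le_mul_of_pos_left k hpos
      omega
    rw [h2, hPmul, hP0] at h1
    obtain ⟨d, hd⟩ : ∃ d, d = l + (b * k - k) := ⟨_, rfl⟩
    rw [← hd] at h1
    have h3 : P (d + d) = y := by
      rw [hPadd, ← h1, hPow]
      change cb (P d) = y
      rw [← h1, hcb]
    have h4 := hPinj _ h3
    have h5 : b ∣ d := by
      rw [← two_mul] at h4
      rcases (Nat.Prime.dvd_mul hb).1 h4 with h5 | h5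
      · exact absurd ((Nat.prime_dvd_prime_iff_eq hb Nat.prime_two).1 h5) hb2
      · exact h5
    obtain ⟨e, rfl⟩ := h5
    rw [← zero_add (b * e), hPmul, hP0] at h1
    exact hne _ h1
  have hPl : ∀ k, Link G cb y₀ (P k) := by
    intro k
    have h1 := hσ ⟨y, hy⟩ k
    change Link G cb y₀ ((h : G) ^ k • y)
    change _ = (h : G) ^ k • y at h1
    rw [← h1]
    exact ((σ ^ k) ⟨y, hy⟩).2
  refine ⟨h, y, hy, hmove, hper, hdis, fun z => ?_⟩
  rw [link_iff_of_link hy]
  constructor
  · intro hz
    let B : Finset Y := Finset.univ.filter (fun z => Link G cb y₀ z)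
    let S : Finset Y := (Finset.range b).image P
    let S' : Finset Y := (Finset.range b).image (fun k => cb (P k))
    have hdisj : Disjoint S S' := by
      rw [Finset.disjoint_left]
      intro z hz hz'
      obtain ⟨k, _, rfl⟩ := Finset.mem_image.1 hz
      obtain ⟨l, _, hl⟩ := Finset.mem_image.1 hz'
      exact hdis l k hl
    have hSB : S ∪ S' = B := by
      apply Finset.eq_of_subset_of_card_le
      · intro z hz
        rw [Finset.mem_filter]
        refine ⟨Finset.mem_univ _, ?_⟩
        rcases Finset.mem_union.1 hz with hz | hz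
        · obtain ⟨k, _, rfl⟩ := Finset.mem_image.1 hz
          exact hPl k
        · obtain ⟨k, _, rfl⟩ := Finset.mem_image.1 hz
          exact link_trans (hPl k) (link_cb hcb hne hG _)
      · rw [Finset.card_union_of_disjoint hdisj, Finset.card_image_of_injOn,
          Finset.card_image_of_injOn, Finset.card_range]
        · have h1 : B.card = 2 * b := by
            rw [← Fintype.card_subtype, ← Nat.card_eq_fintype_card]
            exact hcard
          omega
        · intro k hk l hl h'
          have h4 : P k = P l := by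
            have h5 := congrArg cb h'
            simpa only [hcb] using h5
          exact hinj k l (Finset.mem_range.1 hk) (Finset.mem_range.1 hl) h4
        · intro k hk l hl h'
          exact hinj k l (Finset.mem_range.1 hk) (Finset.mem_range.1 hl) h'
    have hz' : z ∈ S ∪ S' := by
      rw [hSB]
      exact Finset.mem_filter.2 ⟨Finset.mem_univ _, hz⟩
    rcases Finset.mem_union.1 hz' with hz | hz
    · obtain ⟨k, _, rfl⟩ := Finset.mem_image.1 hz
      exact ⟨k, Or.inl rfl⟩
    · obtain ⟨k, _, rfl⟩ := Finset.mem_image.1 hz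
      exact ⟨k, Or.inr rfl⟩
  · rintro ⟨k, rfl | rfl⟩
    · exact hPl k
    · exact link_trans (hPl k) (link_cb hcb hne hG _)

end exist

end Pool.Agent.TH127.SC
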