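import Mathlib
import Pool.Agent.TH127.SC.Stab
import Pool.Agent.H194R3.Weil.Core

/-!
# Classes with a doubly transitive action on the pairs
-/

set_option linter.unusedSectionVars false
set_option linter.unusedVariables false

namespace Pool.Agent.TH127.SC

open Pool.Agent.W527

variable {G Y : Type*} [Group G] [MulAction G Y] {cb : Y → Y}

/-- Two pairs of the class of `y₀` can be moved to any two pairs. -/
def ClassPair (G : Type*) {Y : Type*} [Group G] [MulAction G Y] (cb : Y → Y) (y₀ : Y) : Prop :=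
  ∀ x y x' y' : Y, Link G cb y₀ x → Link G cb y₀ y → Link G cb y₀ x' → Link G cb y₀ y' →
    y ≠ x → y ≠ cb x → y' ≠ x' → y' ≠ cb x' → ∃ g : G,
      ((g • x = x' ∨ g • x = cb x') ∧ (g • y = y' ∨ g • y = cb y')) ∨
      ((g • x = y' ∨ g • x = cb y') ∧ (g • y = x' ∨ g • y = cb x'))

/-- Three pairs of the class of `y₀` can be moved to any three pairs. -/
def ClassTriple (G : Type*) {Y : Type*} [Group G] [MulAction G Y] (cb : Y → Y) (y₀ : Y) : Prop :=
  ∀ x y : Fin 3 → Y, (∀ i, Link G cb y₀ (x i)) → (∀ i, Link G cb y₀ (y i)) →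
    (∀ i k, i ≠ k → x i ≠ x k ∧ x i ≠ cb (x k)) → (∀ i k, i ≠ k → y i ≠ y k ∧ y i ≠ cb (y k)) →
      ∃ (g : G) (π : Equiv.Perm (Fin 3)), ∀ i, g • x i = y (π i) ∨ g • x i = cb (y (π i))

section

variable (hcb : ∀ y, cb (cb y) = y) (hne : ∀ y, cb y ≠ y)
  (hG : ∀ (g : G) (y : Y), g • cb y = cb (g • y))

include hG in
theorem mem_stab_of {y₀ x : Y} (hx : Link G cb y₀ x) {g : G} (hg : Link G cb y₀ (g • x)) :
    g ∈ stab hG y₀ :=
  link_trans hg (link_symm (link_smul hG g hx))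

include hcb hne hG in
theorem link_of_or {y₀ x z : Y} (hx : Link G cb y₀ x) (h : z = x ∨ z = cb x) :
    Link G cb y₀ z := by
  rcases h with rfl | rfl
  · exact hx
  · exact link_trans hx (link_cb hcb hne hG _)

/-- Semi-invariant sign functions on the class. -/
def Semi (G : Type*) {Y : Type*} [Group G] [MulAction G Y] (cb : Y → Y) (y₀ : Y) (v : Y → ℤ) :
    Prop :=
  (∀ x, Link G cb y₀ x → v x = 1 ∨ v x = -1) ∧ (∀ x, Link G cb y₀ x → v (cb x) = -v x) ∧
    ∀ (g : G) (x y : Y), Link G cb y₀ x → Link G cb y₀ y → Link G cb y₀ (g • x) →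
      v (g • x) * v (g • y) = v x * v y

include hcb hne hG in
/-- Semi-invariant sign functions are unique up to the sign. -/
theorem semi_unique {y₀ : Y} (hpair : ClassPair G cb y₀) {v v' : Y → ℤ} (hv : Semi G cb y₀ v)
    (hv' : Semi G cb y₀ v')
    (h3 : ∃ a b d : Y, Link G cb y₀ a ∧ Link G cb y₀ b ∧ Link G cb y₀ d ∧ b ≠ a ∧ b ≠ cb a ∧
      d ≠ a ∧ d ≠ cb a ∧ d ≠ b ∧ d ≠ cb b) {x y : Y} (hx : Link G cb y₀ x)
    (hy : Link G cb y₀ y) (h : v x = v y) : v' x = v' y := by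
  obtain ⟨hv1, hv2, hv3⟩ := hv
  obtain ⟨hw1, hw2, hw3⟩ := hv'
  have hsq : ∀ z, Link G cb y₀ z → v z * v z = 1 := by
    intro z hz
    rcases hv1 z hz with h | h <;> rw [h] <;> norm_num
  have hsq' : ∀ z, Link G cb y₀ z → v' z * v' z = 1 := by
    intro z hz
    rcases hw1 z hz with h | h <;> rw [h] <;> norm_num
  let t : Y → ℤ := fun z => v z * v' z
  have htcb : ∀ z, Link G cb y₀ z → t (cb z) = t z := by
    intro z hz
    simp only [t]
    rw [hv2 z hz, hw2 z hz]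
    ring
  have hor : ∀ a b : Y, Link G cb y₀ b → (a = b ∨ a = cb b) → t a = t b := by
    rintro a b hb (rfl | rfl)
    · rfl
    · exact htcb b hb
  have hinv : ∀ (g : G) (x y : Y), Link G cb y₀ x → Link G cb y₀ y → Link G cb y₀ (g • x) →
      t (g • x) * t (g • y) = t x * t y := by
    intro g x y hx hy hgx
    have h1 := hv3 g x y hx hy hgx
    have h2 := hw3 g x y hx hy hgx
    simp only [t]
    calc v (g • x) * v' (g • x) * (v (g • y) * v' (g • y)) =
        (v (g • x) * v (g • y)) * (v' (g • x) * v' (g • y)) := by ring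
      _ = (v x * v y) * (v' x * v' y) := by rw [h1, h2]
      _ = _ := by ring
  have hconst : ∀ x y x' y' : Y, Link G cb y₀ x → Link G cb y₀ y → Link G cb y₀ x' →
      Link G cb y₀ y' → y ≠ x → y ≠ cb x → y' ≠ x' → y' ≠ cb x' → t x * t y = t x' * t y' := by
    intro x y x' y' hx hy hx' hy' h1 h2 h3 h4
    obtain ⟨g, ⟨h5, h6⟩ | ⟨h5, h6⟩⟩ := hpair x y x' y' hx hy hx' hy' h1 h2 h3 h4
    · rw [← hinv g x y hx hy (link_of_or hcb hne hG hx' h5), hor _ _ hx' h5, hor _ _ hy' h6]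
    · rw [← hinv g x y hx hy (link_of_or hcb hne hG hy' h5), hor _ _ hy' h5, hor _ _ hx' h6,
        mul_comm]
  have htsq : ∀ z, Link G cb y₀ z → t z * t z = 1 := by
    intro z hz
    have h1 := hsq z hz
    have h2 := hsq' z hz
    simp only [t]
    calc v z * v' z * (v z * v' z) = (v z * v z) * (v' z * v' z) := by ring
      _ = 1 := by rw [h1, h2, one_mul]
  obtain ⟨a, b, d, ha, hb, hd, n1, n2, n3, n4, n5, n6⟩ := h3
  have hs : t a * t b = 1 := by
    have e1 := hconst a b b d ha hb hb hd n1 n2 n5 n6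
    have e2 := hconst a b a d ha hb ha hd n1 n2 n3 n4
    have e3 := htsq d hd
    have e4 := htsq a ha
    have e5 := htsq b hb
    calc t a * t b = t a * t b * ((t a * t b) * (t a * t b)) := by
          have : (t a * t b) * (t a * t b) = (t a * t a) * (t b * t b) := by ring
          rw [this, e4, e5]
          ring
      _ = t a * t b * ((t b * t d) * (t a * t d)) := by rw [← e1, ← e2]
      _ = (t a * t a) * (t b * t b) * (t d * t d) := by ring
      _ = 1 := by rw [e3, e4, e5]; ring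
  have hall : ∀ x y : Y, Link G cb y₀ x → Link G cb y₀ y → t x = t y := by
    intro x y hx hy
    by_cases h1 : y = x ∨ y = cb x
    · exact (hor y x hx h1).symm
    · rw [not_or] at h1
      have h2 := hconst x y a b hx hy ha hb h1.1 h1.2 n1 n2
      rw [hs] at h2
      have h3 := htsq y hy
      calc t x = t x * (t y * t y) := by rw [h3, mul_one]
        _ = (t x * t y) * t y := by ring
        _ = t y := by rw [h2, one_mul]
  have h4 := hall x y hx hy
  simp only [t] at h4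
  rw [h] at h4
  have h5 : v y ≠ 0 := by
    rcases hv1 y hy with h | h <;> rw [h] <;> norm_num
  exact mul_left_cancel₀ h5 h4

end

section main

variable [Fintype Y] [Finite G] (hcb : ∀ y, cb (cb y) = y) (hne : ∀ y, cb y ≠ y)
  (hG : ∀ (g : G) (y : Y), g • cb y = cb (g • y))

open Classical in
include hcb hne hG in
theorem pair_alternatives {y₀ : Y} (htr : ∀ z, Link G cb y₀ z → ∃ g : G, g • y₀ = z) {b : ℕ}
    (hb0 : 0 < b) (hcard : Nat.card (Cls G cb y₀) = 2 * b)
    (hb : Odd b ∨ (b - 1).Prime ∨ ClassTriple G cb y₀) (hpair : ClassPair G cb y₀)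
    {W : Y → ℤ} (hW : ∀ y, W (cb y) = -W y) {c : Y → ℤ} (hc : ∀ y, c (cb y) = -c y) (g g' : G)
    (hcl : ∀ g' : G, ∑ z ∈ Finset.univ.filter (fun z => Link G cb y₀ z),
      c (g • z) * W (g' • z) = 0)
    (hg' : ∃ z, Link G cb y₀ z ∧ W (g' • z) ≠ 0) :
    (∀ z, Link G cb y₀ z → c (g • z) = 0) ∨
    (∃ v : Y → ℤ, Semi G cb y₀ v ∧ ∀ x y, Link G cb y₀ x → Link G cb y₀ y →
      W (g' • x) * v x = W (g' • y) * v y) ∨
    ∃ (v : Y → ℤ) (l : ℤ), Semi G cb y₀ v ∧ ∀ x, Link G cb y₀ x → c (g • x) = l * v x := by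
  let _ : MulAction (stab hG y₀) (Cls G cb y₀) := stabAct hG y₀
  let _ : Fintype (stab hG y₀) := Fintype.ofFinite _
  have hact : ∀ (h : stab hG y₀) (z : Cls G cb y₀), ((h • z : Cls G cb y₀) : Y) = (h : G) • z.1 :=
    fun h z => rfl
  let inv : Cls G cb y₀ → Cls G cb y₀ := fun z => ⟨cb z.1, link_trans z.2 (link_cb hcb hne hG _)⟩
  -- extension of functions on the class
  let ext : (Cls G cb y₀ → ℤ) → Y → ℤ := fun v y => if h : Link G cb y₀ y then v ⟨y, h⟩ else 0
  have hext : ∀ (v : Cls G cb y₀ → ℤ) (z : Cls G cb y₀), ext v z.1 = v z := by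
    intro v z
    simp only [ext]
    rw [dif_pos z.2]
  have hsemi : ∀ v : Cls G cb y₀ → ℤ, (∀ x, v x = 1 ∨ v x = -1) → (∀ x, v (inv x) = -v x) →
      (∀ (h : stab hG y₀) (x y : Cls G cb y₀), v (h • x) * v (h • y) = v x * v y) →
      Semi G cb y₀ (ext v) := by
    intro v h1 h2 h3
    refine ⟨fun x hx => ?_, fun x hx => ?_, fun h x y hx hy hhx => ?_⟩
    · have := hext v ⟨x, hx⟩
      rw [this]
      exact h1 _
    · have e1 := hext v ⟨x, hx⟩
      have e2 := hext v (inv ⟨x, hx⟩)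
      have e3 : (inv ⟨x, hx⟩ : Cls G cb y₀).1 = cb x := rfl
      rw [e3] at e2
      rw [e1, e2]
      exact h2 _
    · let h' : stab hG y₀ := ⟨h, mem_stab_of hG hx hhx⟩
      have e1 := hext v ⟨x, hx⟩
      have e2 := hext v ⟨y, hy⟩
      have e3 := hext v (h' • ⟨x, hx⟩)
      have e4 := hext v (h' • ⟨y, hy⟩)
      rw [hact] at e3 e4
      change ext v (h • x) = _ at e3
      change ext v (h • y) = _ at e4
      rw [e1, e2, e3, e4]
      exact h3 h' _ _
  have hstab : ∀ (x y : Cls G cb y₀) (k : G), (k • x.1 = y.1 ∨ k • x.1 = cb y.1) →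
      k ∈ stab hG y₀ := fun x y k h => mem_stab_of hG x.2 (link_of_or hcb hne hG y.2 h)
  obtain ⟨z₀, hz₀, hz₀'⟩ := hg'
  rcases Pool.Agent.H194R3.Weil.core_pair_weil (X := Cls G cb y₀) (G := stab hG y₀) inv
    (fun z => Subtype.ext (hcb z.1)) (fun z h => hne z.1 (congrArg Subtype.val h))
    (fun h z => Subtype.ext (hG h z.1)) b hb0 (by rw [← Nat.card_eq_fintype_card]; exact hcard)
    (by
      rcases hb with h | h | h
      · exact Or.inl h
      · exact Or.inr (Or.inl h)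
      · refine Or.inr (Or.inr fun x y hx hy => ?_)
        obtain ⟨k, π, hk⟩ := h (fun i => (x i).1) (fun i => (y i).1) (fun i => (x i).2)
          (fun i => (y i).2)
          (fun i k hik => ⟨fun h => (hx i k hik).1 (Subtype.ext h),
            fun h => (hx i k hik).2 (Subtype.ext h)⟩)
          (fun i k hik => ⟨fun h => (hy i k hik).1 (Subtype.ext h),
            fun h => (hy i k hik).2 (Subtype.ext h)⟩)
        refine ⟨⟨k, hstab (x 0) (y (π 0)) k (hk 0)⟩, π, fun i => ?_⟩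
        rcases hk i with h | h
        · exact Or.inl (Subtype.ext h)
        · exact Or.inr (Subtype.ext h))
    (by
      intro x y x' y' h1 h2 h3 h4
      obtain ⟨k, hk⟩ := hpair x.1 y.1 x'.1 y'.1 x.2 y.2 x'.2 y'.2
        (fun h => h1 (Subtype.ext h)) (fun h => h2 (Subtype.ext h))
        (fun h => h3 (Subtype.ext h)) (fun h => h4 (Subtype.ext h))
      rcases hk with ⟨h5, h6⟩ | ⟨h5, h6⟩
      · refine ⟨⟨k, hstab x x' k h5⟩, Or.inl ⟨?_, ?_⟩⟩
        · rcases h5 with h | h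
          · exact Or.inl (Subtype.ext h)
          · exact Or.inr (Subtype.ext h)
        · rcases h6 with h | h
          · exact Or.inl (Subtype.ext h)
          · exact Or.inr (Subtype.ext h)
      · refine ⟨⟨k, hstab x y' k h5⟩, Or.inr ⟨?_, ?_⟩⟩
        · rcases h5 with h | h
          · exact Or.inl (Subtype.ext h)
          · exact Or.inr (Subtype.ext h)
        · rcases h6 with h | h
          · exact Or.inl (Subtype.ext h)
          · exact Or.inr (Subtype.ext h))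
    (by
      intro x y
      obtain ⟨k, hk⟩ := htr x.1 x.2
      obtain ⟨l, hl⟩ := htr y.1 y.2
      have h1 : (l * k⁻¹) • x.1 = y.1 := by rw [mul_smul, ← hk, inv_smul_smul, hl]
      exact ⟨⟨l * k⁻¹, hstab x y _ (Or.inl h1)⟩, Subtype.ext h1⟩)
    (fun z => W (g' • z.1)) ⟨⟨z₀, hz₀⟩, hz₀'⟩ (fun z => by
      change W (g' • cb z.1) = _
      rw [hG, hW])
    (fun z => c (g • z.1)) (fun z => by
      change c (g • cb z.1) = _
      rw [hG, hc])
    (fun h => by
      have h1 := hcl (g' * h)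
      rw [Finset.sum_subtype (p := fun z => Link G cb y₀ z) _ (fun z => by simp)] at h1
      rw [← h1]
      refine Finset.sum_congr rfl fun z _ => ?_
      rw [hact, ← mul_smul]) with h1 | ⟨v, h1, h2, h3, h4⟩ | ⟨v, l, h1, h2, h3, h4⟩
  · exact Or.inl fun z hz => h1 ⟨z, hz⟩
  · refine Or.inr (Or.inl ⟨ext v, hsemi v h1 h2 h3, fun x y hx hy => ?_⟩)
    have e1 := hext v ⟨x, hx⟩
    have e2 := hext v ⟨y, hy⟩
    change ext v x = _ at e1
    change ext v y = _ at e2
    rw [e1, e2]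
    have h5 := h4 1 ⟨x, hx⟩ ⟨y, hy⟩
    simp only [one_smul] at h5
    exact h5
  · refine Or.inr (Or.inr ⟨ext v, l, hsemi v h1 h2 h3, fun x hx => ?_⟩)
    have e1 := hext v ⟨x, hx⟩
    change ext v x = _ at e1
    rw [e1]
    exact h4 ⟨x, hx⟩

open Classical in
include hcb hne hG in
theorem moved_of_pair {y₀ : Y} (htr : ∀ z, Link G cb y₀ z → ∃ g : G, g • y₀ = z) {b : ℕ}
    (hb3 : 3 ≤ b) (hcard : Nat.card (Cls G cb y₀) = 2 * b)
    (hb : Odd b ∨ (b - 1).Prime ∨ ClassTriple G cb y₀) (hpair : ClassPair G cb y₀)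
    {W : Y → ℤ} (hW : ∀ y, W (cb y) = -W y)
    (hsep : ∀ y y' : Y, (∀ g : G, W (g • y) = W (g • y')) → y = y')
    {c : Y → ℤ} (hc : ∀ y, c (cb y) = -c y)
    (hcl : ∀ g g' : G, ∑ z ∈ Finset.univ.filter (fun z => Link G cb y₀ z),
      c (g • z) * W (g' • z) = 0) :
    ∃ (σ : G) (y : Y), Link G cb y₀ y ∧ σ • y ≠ y ∧ ∀ g : G, c (g • σ • y) = c (g • y) := by
  -- three different pairs
  let B : Finset Y := Finset.univ.filter (fun z => Link G cb y₀ z)
  have hB : ∀ z, z ∈ B ↔ Link G cb y₀ z := fun z => by simp [B]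
  have hBc : B.card = 2 * b := by
    rw [← Fintype.card_subtype, ← Nat.card_eq_fintype_card]
    exact hcard
  obtain ⟨y₁, hy₁B, hy₁⟩ : ∃ y₁ ∈ B, y₁ ∉ ({y₀, cb y₀} : Finset Y) := by
    by_contra hcon
    push Not at hcon
    have h1 : B.card ≤ ({y₀, cb y₀} : Finset Y).card := Finset.card_le_card hcon
    have h2 : ({y₀, cb y₀} : Finset Y).card ≤ 2 := Finset.card_le_two
    omega
  obtain ⟨y₂, hy₂B, hy₂⟩ : ∃ y₂ ∈ B, y₂ ∉ ({y₀, cb y₀, y₁, cb y₁} : Finset Y) := by
    by_contra hcon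
    push Not at hcon
    have h1 : B.card ≤ ({y₀, cb y₀, y₁, cb y₁} : Finset Y).card := Finset.card_le_card hcon
    have h2 : ({y₀, cb y₀, y₁, cb y₁} : Finset Y).card ≤ 4 := Finset.card_le_four
    omega
  rw [hB] at hy₁B hy₂B
  simp only [Finset.mem_insert, Finset.mem_singleton, not_or] at hy₁ hy₂
  obtain ⟨n1, n2⟩ := hy₁
  obtain ⟨n3, n4, n5, n6⟩ := hy₂
  have h3 : ∃ a b d : Y, Link G cb y₀ a ∧ Link G cb y₀ b ∧ Link G cb y₀ d ∧ b ≠ a ∧ b ≠ cb a ∧
      d ≠ a ∧ d ≠ cb a ∧ d ≠ b ∧ d ≠ cb b :=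
    ⟨y₀, y₁, y₂, link_refl _, hy₁B, hy₂B, n1, n2, n3, n4, n5, n6⟩
  -- two different points with the same sign
  have hsame : ∀ v : Y → ℤ, Semi G cb y₀ v → ∃ x y, Link G cb y₀ x ∧ Link G cb y₀ y ∧ x ≠ y ∧
      v x = v y := by
    intro v hv
    obtain ⟨h1, h2, h3⟩ := hv
    by_cases h : v y₀ = v y₁
    · exact ⟨y₀, y₁, link_refl _, hy₁B, Ne.symm n1, h⟩
    · refine ⟨y₀, cb y₁, link_refl _, link_trans hy₁B (link_cb hcb hne hG _), ?_, ?_⟩
      · intro h'
        exact n2 (by rw [h', hcb])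
      · rw [h2 y₁ hy₁B]
        rcases h1 y₀ (link_refl _) with e1 | e1 <;> rcases h1 y₁ hy₁B with e2 | e2 <;>
          rw [e1, e2] at h ⊢ <;> simp at h ⊢
  have htr2 : ∀ x y, Link G cb y₀ x → Link G cb y₀ y → ∃ σ : G, σ • x = y := by
    intro x y hx hy
    obtain ⟨k, hk⟩ := htr x hx
    obtain ⟨l, hl⟩ := htr y hy
    exact ⟨l * k⁻¹, by rw [mul_smul, ← hk, inv_smul_smul, hl]⟩
  obtain ⟨g₀, hg₀⟩ : ∃ g : G, W (g • y₀) ≠ 0 := by
    by_contra hcon
    push Not at hcon
    apply hne y₀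
    refine (hsep y₀ (cb y₀) fun g => ?_).symm
    rw [hG, hW, hcon, neg_zero]
  -- the relations are multiples of sign functions
  have claim : ∀ g : G, (∀ z, Link G cb y₀ z → c (g • z) = 0) ∨
      ∃ (v : Y → ℤ) (l : ℤ), Semi G cb y₀ v ∧ ∀ x, Link G cb y₀ x → c (g • x) = l * v x := by
    intro g
    by_contra hcon
    rw [not_or] at hcon
    have h1 : ∀ g' : G, (∃ z, Link G cb y₀ z ∧ W (g' • z) ≠ 0) → ∃ v : Y → ℤ,
        Semi G cb y₀ v ∧ ∀ x y, Link G cb y₀ x → Link G cb y₀ y →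
          W (g' • x) * v x = W (g' • y) * v y := by
      intro g' hg'
      rcases pair_alternatives hcb hne hG htr (by omega) hcard hb hpair hW hc g g'
        (hcl g) hg' with h | h | h
      · exact absurd h hcon.1
      · exact h
      · exact absurd h hcon.2
    obtain ⟨v, hv, _⟩ := h1 g₀ ⟨y₀, link_refl _, hg₀⟩
    obtain ⟨x, y, hx, hy, hxy, hvxy⟩ := hsame v hv
    apply hxy
    apply hsep
    intro g'
    by_cases hz : ∃ z, Link G cb y₀ z ∧ W (g' • z) ≠ 0
    · obtain ⟨v', hv', h2⟩ := h1 g' hz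
      have h4 := semi_unique hcb hne hG hpair hv hv' h3 hx hy hvxy
      have h5 := h2 x y hx hy
      rw [h4] at h5
      have h6 : v' y ≠ 0 := by
        rcases hv'.1 y hy with h | h <;> rw [h] <;> norm_num
      exact mul_right_cancel₀ h6 h5
    · push Not at hz
      rw [hz x hx, hz y hy]
  by_cases hall : ∀ g : G, ∀ z, Link G cb y₀ z → c (g • z) = 0
  · obtain ⟨σ, hσ⟩ := htr y₁ hy₁B
    refine ⟨σ, y₀, link_refl _, by rw [hσ]; exact n1, fun g => ?_⟩
    rw [hσ, hall g y₁ hy₁B, hall g y₀ (link_refl _)]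
  · push Not at hall
    obtain ⟨g₁, z₁, hz₁, hne₁⟩ := hall
    obtain ⟨v, l, hv, _⟩ := (claim g₁).resolve_left (fun h => hne₁ (h z₁ hz₁))
    obtain ⟨x, y, hx, hy, hxy, hvxy⟩ := hsame v hv
    obtain ⟨σ, hσ⟩ := htr2 x y hx hy
    refine ⟨σ, x, hx, by rw [hσ]; exact Ne.symm hxy, fun g => ?_⟩
    rw [hσ]
    rcases claim g with h | ⟨v', l', hv', h⟩
    · rw [h x hx, h y hy]
    · rw [h x hx, h y hy, semi_unique hcb hne hG hpair hv hv' h3 hx hy hvxy]

end main

end Pool.Agent.TH127.SC
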