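import Mathlib
import Pool.Agent.TH127.SC.DT

/-!
# Good classes
-/

set_option linter.unusedSectionVars false
set_option linter.unusedVariables false

namespace Pool.Agent.TH127.SC

open Pool.Agent.W527

/-- The class of `y₀` consists of translates of `y₀`; it consists of one pair, or of a prime number
of pairs, or any two pairs in it can be moved to any two others and the number of pairs is odd, or
one more than a prime number, or the same is true for three pairs. -/
def GoodClass (G : Type*) {Y : Type*} [Group G] [MulAction G Y] (cb : Y → Y) (y₀ : Y) : Prop :=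
  (∀ z, Link G cb y₀ z → ∃ g : G, g • y₀ = z) ∧
    ∃ b : ℕ, Nat.card {z : Y // Link G cb y₀ z} = 2 * b ∧ (b = 1 ∨ b.Prime ∨
      (ClassPair G cb y₀ ∧ (Odd b ∨ (b - 1).Prime ∨ ClassTriple G cb y₀)))

variable {G Y : Type*} [Group G] [MulAction G Y] {cb : Y → Y} [Fintype Y] [Finite G]
  (hcb : ∀ y, cb (cb y) = y) (hne : ∀ y, cb y ≠ y)
  (hG : ∀ (g : G) (y : Y), g • cb y = cb (g • y))

include hcb hne hG in
/-- All relations are invariant under some element that moves a point of the class. -/
theorem exists_moved_of_good {y₀ : Y} (hgood : GoodClass G cb y₀) {W : Y → ℤ}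
    (hW : ∀ y, W (cb y) = -W y) (hsep : ∀ y y' : Y, (∀ g : G, W (g • y) = W (g • y')) → y = y')
    {c : Y → ℤ} (hc : ∀ y, c (cb y) = -c y) (hrel : ∀ g : G, ∑ y, c y * W (g • y) = 0) :
    ∃ (σ : G) (y : Y), Link G cb y₀ y ∧ σ • y ≠ y ∧ ∀ g : G, c (g • σ • y) = c (g • y) := by
  classical
  have := Fintype.ofFinite G
  obtain ⟨htr, b, hcard, hb⟩ := hgood
  have hcl : ∀ g g' : G, ∑ z ∈ Finset.univ.filter (fun z => Link G cb y₀ z),
      c (g • z) * W (g' • z) = 0 := by
    intro g g'
    refine core_split hG hW (c := fun z => c (g • z)) (fun τ => ?_) y₀ g'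
    rw [← hrel (τ * g⁻¹)]
    refine Fintype.sum_equiv (MulAction.toPerm g) _ _ fun y => ?_
    rw [MulAction.toPerm_apply, ← mul_smul, inv_mul_cancel_right]
  have hsep0 : ∀ y y' : Y, y ≠ y' → ∃ g : G, W (g • y) ≠ W (g • y') := by
    intro y y' h
    by_contra hcon
    push Not at hcon
    exact h (hsep y y' hcon)
  have hprime : ∀ b : ℕ, b.Prime → Nat.card (Cls G cb y₀) = 2 * b →
      ∃ (σ : G) (y : Y), Link G cb y₀ y ∧ σ • y ≠ y ∧ ∀ g : G, c (g • σ • y) = c (g • y) := by
    intro b hb hcard
    obtain ⟨h, y, hy, hmove, hper, hdis, hall⟩ : ∃ (h : G) (y : Y), Link G cb y₀ y ∧ h • y ≠ y ∧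
        h ^ b • y = y ∧ (∀ k l : ℕ, cb (h ^ k • y) ≠ h ^ l • y) ∧
        ∀ z, Link G cb y z ↔ ∃ k : ℕ, z = h ^ k • y ∨ z = cb (h ^ k • y) := by
      by_cases hb2 : b = 2
      · subst hb2
        exact exists_cycle_two hcb hne hG y₀ htr hcard
      · exact exists_cycle_odd hcb hne hG y₀ htr hb hb2 hcard
    have : Fact b.Prime := ⟨hb⟩
    refine ⟨h, y, hy, hmove, fun g => ?_⟩
    refine cycle_const hcb hG (r := b) hW hc hmove hper hdis hall (hsep0 _ _ hmove) g
      fun g' => ?_
    rw [← hcl g g']
    refine Finset.sum_congr ?_ fun _ _ => rfl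
    ext z
    simp only [Finset.mem_filter, Finset.mem_univ, true_and, link_iff_of_link hy]
  rcases hb with hb | hb | ⟨hpair, hb⟩
  · -- one pair
    subst hb
    obtain ⟨κ, hκ⟩ := htr (cb y₀) (link_cb hcb hne hG _)
    have hB : Finset.univ.filter (fun z => Link G cb y₀ z) = {y₀, cb y₀} := by
      symm
      apply Finset.eq_of_subset_of_card_le
      · intro z hz
        rw [Finset.mem_insert, Finset.mem_singleton] at hz
        refine Finset.mem_filter.2 ⟨Finset.mem_univ _, ?_⟩
        rcases hz with rfl | rfl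
        · exact link_refl _
        · exact link_cb hcb hne hG _
      · rw [Finset.card_pair (Ne.symm (hne y₀)), ← Fintype.card_subtype,
          ← Nat.card_eq_fintype_card, hcard]
    obtain ⟨g', hg'⟩ := hsep0 y₀ (cb y₀) (Ne.symm (hne y₀))
    have hz : ∀ g : G, c (g • y₀) = 0 := by
      intro g
      have h1 := hcl g g'
      rw [hB, Finset.sum_pair (Ne.symm (hne y₀)), hG, hG, hc, hW] at h1
      have h2 : c (g • y₀) * W (g' • y₀) = 0 := by linarith
      refine (mul_eq_zero.1 h2).resolve_right fun h0 => hg' ?_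
      rw [hG, hW, h0, neg_zero]
    refine ⟨κ, y₀, link_refl _, by rw [hκ]; exact hne y₀, fun g => ?_⟩
    rw [hκ, hG, hc, hz, neg_zero]
  · exact hprime b hb hcard
  · by_cases hb3 : 3 ≤ b
    · exact moved_of_pair hcb hne hG htr hb3 hcard hb hpair hW hsep hc hcl
    · have hb12 : b = 0 ∨ b = 1 ∨ b = 2 := by omega
      rcases hb12 with rfl | rfl | rfl
      · exfalso
        rw [mul_zero, Nat.card_eq_fintype_card, Fintype.card_eq_zero_iff] at hcard
        exact hcard.elim ⟨y₀, link_refl _⟩
      · -- one pair again: reduce to the first case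
        obtain ⟨κ, hκ⟩ := htr (cb y₀) (link_cb hcb hne hG _)
        have hB : Finset.univ.filter (fun z => Link G cb y₀ z) = {y₀, cb y₀} := by
          symm
          apply Finset.eq_of_subset_of_card_le
          · intro z hz
            rw [Finset.mem_insert, Finset.mem_singleton] at hz
            refine Finset.mem_filter.2 ⟨Finset.mem_univ _, ?_⟩
            rcases hz with rfl | rfl
            · exact link_refl _
            · exact link_cb hcb hne hG _
          · rw [Finset.card_pair (Ne.symm (hne y₀)), ← Fintype.card_subtype,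
              ← Nat.card_eq_fintype_card, hcard]
        obtain ⟨g', hg'⟩ := hsep0 y₀ (cb y₀) (Ne.symm (hne y₀))
        have hz : ∀ g : G, c (g • y₀) = 0 := by
          intro g
          have h1 := hcl g g'
          rw [hB, Finset.sum_pair (Ne.symm (hne y₀)), hG, hG, hc, hW] at h1
          have h2 : c (g • y₀) * W (g' • y₀) = 0 := by linarith
          refine (mul_eq_zero.1 h2).resolve_right fun h0 => hg' ?_
          rw [hG, hW, h0, neg_zero]
        refine ⟨κ, y₀, link_refl _, by rw [hκ]; exact hne y₀, fun g => ?_⟩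
        rw [hκ, hG, hc, hz, neg_zero]
      · exact hprime 2 Nat.prime_two hcard

end Pool.Agent.TH127.SC
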