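import Mathlib
import Pool.Agent.TH127.SC.Good

/-!
# Odd weights
-/

set_option linter.unusedSectionVars false
set_option linter.unusedVariables false

namespace Pool.Agent.TH127.SC

open Pool.Agent.W527

/-- A good class where the number of pairs is one, two, an odd prime number, or odd and any two
pairs can be moved to any two pairs. -/
def OddClass (G : Type*) {Y : Type*} [Group G] [MulAction G Y] (cb : Y → Y) (y₀ : Y) : Prop :=
  (∀ z, Link G cb y₀ z → ∃ g : G, g • y₀ = z) ∧
    ∃ b : ℕ, Nat.card {z : Y // Link G cb y₀ z} = 2 * b ∧ (b = 1 ∨ b.Prime ∨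
      (ClassPair G cb y₀ ∧ Odd b))

section parity

variable {Y : Type*} [DecidableEq Y] {cb : Y → Y} (hcb : ∀ y, cb (cb y) = y)
  (hne : ∀ y, cb y ≠ y)

include hcb hne in
theorem sum_ne_zero_of_odd {B : Finset Y} {b : ℕ} (hB : B.card = 2 * b) (hb : Odd b)
    (hcbB : ∀ y ∈ B, cb y ∈ B) {f : Y → ℤ} (hf : ∀ y ∈ B, f (cb y) = f y)
    (ho : ∀ y ∈ B, Odd (f y)) : ∑ y ∈ B, f y ≠ 0 := by
  intro h0
  have h1 : ∀ y ∈ B, f y = 1 + 2 * (f y / 2) := by
    intro y hy
    obtain ⟨k, hk⟩ := ho y hy
    omega
  have h2 : ∑ y ∈ B, f y = 2 * b + 2 * ∑ y ∈ B, f y / 2 := by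
    rw [Finset.sum_congr rfl h1, Finset.sum_add_distrib, ← Finset.mul_sum, Finset.sum_const, hB]
    rw [nsmul_eq_mul]
    push_cast
    ring
  have h3 : ((∑ y ∈ B, f y / 2 : ℤ) : ZMod 2) = 0 := by
    push_cast
    refine Finset.sum_involution (fun y _ => cb y) ?_ ?_ ?_ ?_
    · intro y hy
      rw [hf y hy]
      have : ((f y / 2 : ℤ) : ZMod 2) + ((f y / 2 : ℤ) : ZMod 2) = 2 * ((f y / 2 : ℤ) : ZMod 2) := by
        ring
      rw [this]
      have h2 : (2 : ZMod 2) = 0 := rfl
      rw [h2, zero_mul]
    · intro y hy _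
      exact hne y
    · intro y hy
      exact hcbB y hy
    · intro y hy
      exact hcb y
  rw [ZMod.intCast_zmod_eq_zero_iff_dvd] at h3
  obtain ⟨k, hk⟩ := h3
  obtain ⟨l, hl⟩ := hb
  rw [h0, hl] at h2
  push_cast at h2 hk
  omega

end parity

variable {G Y : Type*} [Group G] [MulAction G Y] {cb : Y → Y} [Fintype Y] [Finite G]
  (hcb : ∀ y, cb (cb y) = y) (hne : ∀ y, cb y ≠ y)
  (hG : ∀ (g : G) (y : Y), g • cb y = cb (g • y))

open Classical in
include hcb hne hG in
theorem claim_of_pair {y₀ : Y} (htr : ∀ z, Link G cb y₀ z → ∃ g : G, g • y₀ = z) {b : ℕ}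
    (hb3 : 3 ≤ b) (hcard : Nat.card (Cls G cb y₀) = 2 * b)
    (hb : Odd b ∨ (b - 1).Prime ∨ ClassTriple G cb y₀) (hpair : ClassPair G cb y₀)
    {W : Y → ℤ} (hW : ∀ y, W (cb y) = -W y)
    (hsep : ∀ y y' : Y, Link G cb y₀ y → Link G cb y₀ y' → (∀ g : G, W (g • y) = W (g • y')) →
      y = y')
    {c : Y → ℤ} (hc : ∀ y, c (cb y) = -c y)
    (hcl : ∀ g g' : G, ∑ z ∈ Finset.univ.filter (fun z => Link G cb y₀ z),
      c (g • z) * W (g' • z) = 0) (g : G) : (∀ z, Link G cb y₀ z → c (g • z) = 0) ∨
      ∃ (v : Y → ℤ) (l : ℤ), Semi G cb y₀ v ∧ ∀ x, Link G cb y₀ x → c (g • x) = l * v x := by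
  -- three different pairs
  let B : Finset Y := Finset.univ.filter (fun z => Link G cb y₀ z)
  have hB : ∀ z, z ∈ B ↔ Link G cb y₀ z := fun z => by simp [B]
  have hBc : B.card = 2 * b := by
    rw [← Fintype.card_subtype, ← Nat.card_eq_fintype_card]
    exact hcard
  obtain ⟨y₁, hy₁B, hy₁⟩ : ∃ y₁ ∈ B, y₁ ∉ ({y₀, cb y₀} : Finset Y) := by
    by_contra hcon
    push Not at hcon
    have h1 : B.card ≤ ({y₀, cb y₀} : Finset Y).card := Finset.card_le_card hcon
    have h2 : ({y₀, cb y₀} : Finset Y).card ≤ 2 := Finset.card_le_two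
    omega
  obtain ⟨y₂, hy₂B, hy₂⟩ : ∃ y₂ ∈ B, y₂ ∉ ({y₀, cb y₀, y₁, cb y₁} : Finset Y) := by
    by_contra hcon
    push Not at hcon
    have h1 : B.card ≤ ({y₀, cb y₀, y₁, cb y₁} : Finset Y).card := Finset.card_le_card hcon
    have h2 : ({y₀, cb y₀, y₁, cb y₁} : Finset Y).card ≤ 4 := Finset.card_le_four
    omega
  rw [hB] at hy₁B hy₂B
  simp only [Finset.mem_insert, Finset.mem_singleton, not_or] at hy₁ hy₂
  obtain ⟨n1, n2⟩ := hy₁
  obtain ⟨n3, n4, n5, n6⟩ := hy₂
  have h3 : ∃ a b d : Y, Link G cb y₀ a ∧ Link G cb y₀ b ∧ Link G cb y₀ d ∧ b ≠ a ∧ b ≠ cb a ∧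
      d ≠ a ∧ d ≠ cb a ∧ d ≠ b ∧ d ≠ cb b :=
    ⟨y₀, y₁, y₂, link_refl _, hy₁B, hy₂B, n1, n2, n3, n4, n5, n6⟩
  -- two different points with the same sign
  have hsame : ∀ v : Y → ℤ, Semi G cb y₀ v → ∃ x y, Link G cb y₀ x ∧ Link G cb y₀ y ∧ x ≠ y ∧
      v x = v y := by
    intro v hv
    obtain ⟨h1, h2, h3⟩ := hv
    by_cases h : v y₀ = v y₁
    · exact ⟨y₀, y₁, link_refl _, hy₁B, Ne.symm n1, h⟩
    · refine ⟨y₀, cb y₁, link_refl _, link_trans hy₁B (link_cb hcb hne hG _), ?_, ?_⟩
      · intro h'
        exact n2 (by rw [h', hcb])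
      · rw [h2 y₁ hy₁B]
        rcases h1 y₀ (link_refl _) with e1 | e1 <;> rcases h1 y₁ hy₁B with e2 | e2 <;>
          rw [e1, e2] at h ⊢ <;> simp at h ⊢
  obtain ⟨g₀, hg₀⟩ : ∃ g : G, W (g • y₀) ≠ 0 := by
    by_contra hcon
    push Not at hcon
    apply hne y₀
    refine (hsep y₀ (cb y₀) (link_refl _) (link_cb hcb hne hG _) fun g => ?_).symm
    rw [hG, hW, hcon, neg_zero]
  by_contra hcon
  rw [not_or] at hcon
  have h1 : ∀ g' : G, (∃ z, Link G cb y₀ z ∧ W (g' • z) ≠ 0) → ∃ v : Y → ℤ,
      Semi G cb y₀ v ∧ ∀ x y, Link G cb y₀ x → Link G cb y₀ y →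
        W (g' • x) * v x = W (g' • y) * v y := by
    intro g' hg'
    rcases pair_alternatives hcb hne hG htr (by omega) hcard hb hpair hW hc g g'
      (hcl g) hg' with h | h | h
    · exact absurd h hcon.1
    · exact h
    · exact absurd h hcon.2
  obtain ⟨v, hv, _⟩ := h1 g₀ ⟨y₀, link_refl _, hg₀⟩
  obtain ⟨x, y, hx, hy, hxy, hvxy⟩ := hsame v hv
  apply hxy
  apply hsep x y hx hy
  intro g'
  by_cases hz : ∃ z, Link G cb y₀ z ∧ W (g' • z) ≠ 0
  · obtain ⟨v', hv', h2⟩ := h1 g' hz
    have h4 := semi_unique hcb hne hG hpair hv hv' h3 hx hy hvxy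
    have h5 := h2 x y hx hy
    rw [h4] at h5
    have h6 : v' y ≠ 0 := by
      rcases hv'.1 y hy with h | h <;> rw [h] <;> norm_num
    exact mul_right_cancel₀ h6 h5
  · push Not at hz
    rw [hz x hx, hz y hy]

open Classical in
include hcb hne hG in
/-- If the weights are odd and separate the points of a class the relations vanish there. -/
theorem zero_at {W : Y → ℤ}
    (hW : ∀ y, W (cb y) = -W y) {y₀ : Y} (hWo : ∀ y, Link G cb y₀ y → Odd (W y))
    (hsep : ∀ y y' : Y, Link G cb y₀ y → Link G cb y₀ y' →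
      (∀ g : G, W (g • y) = W (g • y')) → y = y')
    {c : Y → ℤ} (hc : ∀ y, c (cb y) = -c y) (hrel : ∀ g : G, ∑ y, c y * W (g • y) = 0)
    (hclass : OddClass G cb y₀) : c y₀ = 0 := by
  have := Fintype.ofFinite G
  obtain ⟨htr, b, hcard, hb⟩ := hclass
  have hcl : ∀ g g' : G, ∑ z ∈ Finset.univ.filter (fun z => Link G cb y₀ z),
      c (g • z) * W (g' • z) = 0 := by
    intro g g'
    refine core_split hG hW (c := fun z => c (g • z)) (fun τ => ?_) y₀ g'
    rw [← hrel (τ * g⁻¹)]
    refine Fintype.sum_equiv (MulAction.toPerm g) _ _ fun y => ?_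
    rw [MulAction.toPerm_apply, ← mul_smul, inv_mul_cancel_right]
  set B : Finset Y := Finset.univ.filter (fun z => Link G cb y₀ z) with hBdef
  have hB : ∀ z, z ∈ B ↔ Link G cb y₀ z := fun z => by simp [B]
  have hBc : B.card = 2 * b := by
    rw [← Fintype.card_subtype, ← Nat.card_eq_fintype_card]
    exact hcard
  have hBcb : ∀ z ∈ B, cb z ∈ B := fun z hz =>
    (hB _).2 (link_trans ((hB z).1 hz) (link_cb hcb hne hG z))
  -- the final step
  have hfin : ∀ (v : Y → ℤ) (l : ℤ), Odd b → (∀ z, Link G cb y₀ z → v z = 1 ∨ v z = -1) →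
      (∀ z, Link G cb y₀ z → v (cb z) = - v z) → (∀ z, Link G cb y₀ z → c z = l * v z) →
      c y₀ = 0 := by
    intro v l hbo h1 h2 h3
    have h4 : ∑ z ∈ B, v z * W z ≠ 0 := by
      refine sum_ne_zero_of_odd hcb hne hBc hbo hBcb ?_ ?_
      · intro y hy
        rw [h2 y ((hB y).1 hy), hW]
        ring
      · intro y hy
        rcases h1 y ((hB y).1 hy) with h | h <;> rw [h]
        · rw [one_mul]; exact hWo y ((hB y).1 hy)
        · rw [neg_one_mul]; exact (hWo y ((hB y).1 hy)).neg
    have h5 : l * ∑ z ∈ B, v z * W z = 0 := by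
      rw [Finset.mul_sum, ← hcl 1 1]
      refine Finset.sum_congr rfl fun z hz => ?_
      simp only [one_smul]
      rw [h3 z ((hB z).1 hz)]
      ring
    have h6 := (mul_eq_zero.1 h5).resolve_right h4
    rw [h3 y₀ (link_refl _), h6, zero_mul]
  -- one pair
  have hone : b = 1 → c y₀ = 0 := by
    intro hb1
    subst hb1
    have hBB : B = {y₀, cb y₀} := by
      symm
      apply Finset.eq_of_subset_of_card_le
      · intro z hz
        rw [Finset.mem_insert, Finset.mem_singleton] at hz
        rw [hB]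
        rcases hz with rfl | rfl
        · exact link_refl _
        · exact link_cb hcb hne hG _
      · rw [Finset.card_pair (Ne.symm (hne y₀)), hBc]
    have h1 := hcl 1 1
    rw [hBB, Finset.sum_pair (Ne.symm (hne y₀)), one_smul, one_smul, hc, hW] at h1
    have h2 : c y₀ * W y₀ = 0 := by linarith
    refine (mul_eq_zero.1 h2).resolve_right fun h0 => ?_
    have h3 := hWo y₀ (link_refl _)
    rw [h0] at h3
    exact absurd h3 (by decide)
  rcases hb with hb | hb | ⟨hpair, hbo⟩
  · exact hone hb
  · obtain ⟨h, y, hy, hmove, hper, hdis, hall⟩ : ∃ (h : G) (y : Y), Link G cb y₀ y ∧ h • y ≠ y ∧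
        h ^ b • y = y ∧ (∀ k l : ℕ, cb (h ^ k • y) ≠ h ^ l • y) ∧
        ∀ z, Link G cb y z ↔ ∃ k : ℕ, z = h ^ k • y ∨ z = cb (h ^ k • y) := by
      by_cases hb2 : b = 2
      · subst hb2
        exact exists_cycle_two hcb hne hG y₀ htr hcard
      · exact exists_cycle_odd hcb hne hG y₀ htr hb hb2 hcard
    have : Fact b.Prime := ⟨hb⟩
    have hlink : Link G cb (h • y) y := by
      apply link_symm
      rw [hall]
      exact ⟨1, Or.inl (by rw [pow_one])⟩
    have hBy : Finset.univ.filter (fun z => Link G cb y z) = B := by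
      ext z
      simp only [Finset.mem_filter, Finset.mem_univ, true_and, hB, link_iff_of_link hy]
    have hconst : ∀ g : G, c (g • h • y) = c (g • y) := by
      intro g
      refine cycle_const hcb hG (r := b) hW hc hmove hper hdis hall (?_) g fun g' => ?_
      · by_contra hcon
        push Not at hcon
        exact hmove (hsep _ _ (link_trans hy (link_symm hlink)) hy hcon)
      · rw [hBy]
        exact hcl g g'
    have hpow : ∀ (k : ℕ) (g : G), c (g • h ^ k • y) = c (g • y) := by
      intro k
      induction k with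
      | zero => intro g; rw [pow_zero, one_smul]
      | succ k ih =>
        intro g
        have h1 := ih (g * h)
        rw [pow_succ', mul_smul, ← mul_smul g h, h1, mul_smul, hconst]
    -- the sign function
    let v : Y → ℤ := fun z => if ∃ k : ℕ, z = h ^ k • y then 1 else -1
    have hv1 : ∀ z, v z = 1 ∨ v z = -1 := by
      intro z
      simp only [v]
      split_ifs
      · exact Or.inl rfl
      · exact Or.inr rfl
    have hallB : ∀ z, Link G cb y₀ z → ∃ k : ℕ, z = h ^ k • y ∨ z = cb (h ^ k • y) := by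
      intro z hz
      rw [← hall, link_iff_of_link hy]
      exact hz
    have hv2 : ∀ z, Link G cb y₀ z → v (cb z) = - v z := by
      intro z hz
      obtain ⟨k, hk | hk⟩ := hallB z hz
      · have e1 : v z = 1 := if_pos ⟨k, hk⟩
        have e2 : v (cb z) = -1 := by
          refine if_neg ?_
          rintro ⟨l, hl⟩
          rw [hk] at hl
          exact hdis k l hl
        rw [e1, e2]
      · have e1 : v (cb z) = 1 := if_pos ⟨k, by rw [hk, hcb]⟩
        have e2 : v z = -1 := by
          refine if_neg ?_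
          rintro ⟨l, hl⟩
          rw [hk] at hl
          exact hdis k l hl
        rw [e1, e2, neg_neg]
    have hv3 : ∀ (g : G) z, Link G cb y₀ z → c (g • z) = c (g • y) * v z := by
      intro g z hz
      obtain ⟨k, hk | hk⟩ := hallB z hz
      · have e1 : v z = 1 := if_pos ⟨k, hk⟩
        rw [e1, mul_one, hk, hpow]
      · have e2 : v z = -1 := by
          refine if_neg ?_
          rintro ⟨l, hl⟩
          rw [hk] at hl
          exact hdis k l hl
        rw [e2, hk, hG, hc, hpow]
        ring
    by_cases hb2 : b = 2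
    · subst hb2
      -- two pairs
      by_contra hcon
      have hcy : c y ≠ 0 := by
        intro h0
        have h1 := hv3 1 y₀ (link_refl _)
        rw [one_smul, one_smul, h0, zero_mul] at h1
        exact hcon h1
      have hBB : B = {y, h • y, cb y, cb (h • y)} := by
        ext z
        rw [hB, Finset.mem_insert, Finset.mem_insert, Finset.mem_insert, Finset.mem_singleton]
        constructor
        · intro hz
          obtain ⟨k, hk⟩ := hallB z hz
          have hk' : h ^ k • y = y ∨ h ^ k • y = h • y := by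
            rcases Nat.even_or_odd' k with ⟨r, rfl | rfl⟩
            · left
              rw [pow_mul]
              clear hk
              induction r with
              | zero => rw [pow_zero, one_smul]
              | succ r ih => rw [pow_succ, mul_smul, hper, ih]
            · right
              rw [pow_succ', mul_smul]
              congr 1
              rw [pow_mul]
              clear hk
              induction r with
              | zero => rw [pow_zero, one_smul]
              | succ r ih => rw [pow_succ, mul_smul, hper, ih]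
          rcases hk with hk | hk <;> rcases hk' with e | e <;> rw [e] at hk <;> subst hk <;> simp
        · rintro (rfl | rfl | rfl | rfl)
          · exact hy
          · exact link_trans hy (link_symm hlink)
          · exact link_trans hy (link_cb hcb hne hG _)
          · exact link_trans (link_trans hy (link_symm hlink)) (link_cb hcb hne hG _)
      have hlinky : Link G cb y (cb (h • y)) :=
        link_trans (link_symm hlink) (link_cb hcb hne hG _)
      have h01 := hdis 0 1
      have h10 := hdis 1 0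
      have h11 := hdis 1 1
      simp only [pow_zero, one_smul, pow_one] at h01 h10 h11
      have h2 : y = cb (h • y) := by
        refine hsep _ _ hy (link_trans hy hlinky) fun g' => ?_
        have h1 := hcl 1 g'
        have hsum : ∑ z ∈ B, c ((1 : G) • z) * W (g' • z) =
            2 * c y * (W (g' • y) + W (g' • h • y)) := by
          rw [hBB, Finset.sum_insert, Finset.sum_insert, Finset.sum_pair]
          · simp only [one_smul]
            have e1 := hconst 1
            simp only [one_smul] at e1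
            rw [hG, hG, hc, hW, hc, hW, e1]
            ring
          · intro h'
            exact hmove (by rw [← hcb (h • y), ← h', hcb])
          · simp only [Finset.mem_insert, Finset.mem_singleton, not_or]
            exact ⟨Ne.symm h01, Ne.symm (hne _)⟩
          · simp only [Finset.mem_insert, Finset.mem_singleton, not_or]
            exact ⟨Ne.symm hmove, Ne.symm (hne _), Ne.symm h10⟩
        rw [hsum] at h1
        have h3 : W (g' • y) + W (g' • h • y) = 0 :=
          (mul_eq_zero.1 h1).resolve_left (mul_ne_zero two_ne_zero hcy)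
        rw [hG, hW]
        linarith
      exact h10 h2.symm
    · refine hfin v (c y) (hb.odd_of_ne_two hb2) (fun z _ => hv1 z) hv2 fun z hz => ?_
      have h1 := hv3 1 z hz
      rwa [one_smul, one_smul] at h1
  · by_cases hb3 : 3 ≤ b
    · rcases claim_of_pair hcb hne hG htr hb3 hcard (Or.inl hbo) hpair hW
        (fun y y' hy hy' h => hsep y y' hy hy' h) hc hcl 1 with h | h
      · have h1 := h y₀ (link_refl _)
        rwa [one_smul] at h1
      · obtain ⟨v, l, ⟨hv1, hv2, _⟩, hv4⟩ := h
        refine hfin v l hbo hv1 hv2 fun z hz => ?_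
        have h1 := hv4 z hz
        rwa [one_smul] at h1
    · obtain ⟨k, hk⟩ := hbo
      exact hone (by omega)

include hcb hne hG in
/-- If the weights are odd and separate the points of each class there are no relations. -/
theorem zero_of_oddClass (hclass : ∀ y₀, OddClass G cb y₀) {W : Y → ℤ}
    (hW : ∀ y, W (cb y) = -W y) (hWo : ∀ y, Odd (W y))
    (hsep : ∀ y y' : Y, Link G cb y y' → (∀ g : G, W (g • y) = W (g • y')) → y = y')
    {c : Y → ℤ} (hc : ∀ y, c (cb y) = -c y) (hrel : ∀ g : G, ∑ y, c y * W (g • y) = 0) (y₀ : Y) :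
    c y₀ = 0 :=
  zero_at hcb hne hG hW (fun y _ => hWo y)
    (fun y y' hy hy' => hsep y y' (link_trans (link_symm hy) hy')) hc hrel (hclass y₀)

end Pool.Agent.TH127.SC
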