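import Mathlib
import Pool.Agent.TH127.SC.Odd
import Pool.Agent.H204R3.SP.CoreOddVal
import Pool.Agent.H204R3.CM.Sign

/-!
# Odd weights: classes with `2 ^ k` pairs
-/

set_option linter.unusedSectionVars false
set_option linter.unusedVariables false

namespace Pool.Agent.TH127.SC

open Pool.Agent.W527

/-- The class of `y₀` consists of translates of `y₀` and of `2 ^ k` pairs, and some group element
maps it to itself and maps an odd number of elements of a half system `S` of the class out of `S`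
(acts on the class as an odd permutation). -/
def TwoPowerClass (G : Type*) {Y : Type*} [Group G] [MulAction G Y] (cb : Y → Y) (y₀ : Y) : Prop :=
  (∀ z, Link G cb y₀ z → ∃ g : G, g • y₀ = z) ∧
    (∃ k : ℕ, Nat.card {z : Y // Link G cb y₀ z} = 2 * 2 ^ k) ∧
      ∃ (g : G) (S : Set Y), Link G cb y₀ (g • y₀) ∧ (∀ z ∈ S, Link G cb y₀ z) ∧
        (∀ z, Link G cb y₀ z → (z ∈ S ↔ cb z ∉ S)) ∧ Odd {z | z ∈ S ∧ g • z ∉ S}.ncard

variable {G Y : Type*} [Group G] [MulAction G Y] {cb : Y → Y} [Fintype Y] [Finite G]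
  (hcb : ∀ y, cb (cb y) = y) (hne : ∀ y, cb y ≠ y)
  (hG : ∀ (g : G) (y : Y), g • cb y = cb (g • y))

open Classical in
include hcb hne hG in
theorem zero_at_two {W : Y → ℤ} (hW : ∀ y, W (cb y) = -W y) {y₀ : Y}
    (hWo : ∀ y, Link G cb y₀ y → Odd (W y))
    {c : Y → ℤ} (hc : ∀ y, c (cb y) = -c y) (hrel : ∀ g : G, ∑ y, c y * W (g • y) = 0)
    (hclass : TwoPowerClass G cb y₀) : c y₀ = 0 := by
  have := Fintype.ofFinite G
  obtain ⟨htr, ⟨k, hcard⟩, g₀, S, hg₀, hSB, hS, hodd⟩ := hclass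
  have hcl : ∀ g' : G, ∑ z ∈ Finset.univ.filter (fun z => Link G cb y₀ z),
      c z * W (g' • z) = 0 := fun g' => core_split hG hW hrel y₀ g'
  let _ : MulAction (stab hG y₀) (Cls G cb y₀) := stabAct hG y₀
  let _ : Fintype (stab hG y₀) := Fintype.ofFinite _
  have hact : ∀ (h : stab hG y₀) (z : Cls G cb y₀), ((h • z : Cls G cb y₀) : Y) = (h : G) • z.1 :=
    fun h z => rfl
  let inv : Cls G cb y₀ → Cls G cb y₀ := fun z => ⟨cb z.1, link_trans z.2 (link_cb hcb hne hG _)⟩
  have hinv : ∀ z, inv (inv z) = z := fun z => Subtype.ext (hcb z.1)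
  have hinvne : ∀ z, inv z ≠ z := fun z h => hne z.1 (congrArg Subtype.val h)
  have hinvG : ∀ (g : stab hG y₀) (z : Cls G cb y₀), g • inv z = inv (g • z) :=
    fun g z => Subtype.ext (hG g z.1)
  have : MulAction.IsPretransitive (stab hG y₀) (Cls G cb y₀) := by
    refine ⟨fun x y => ?_⟩
    obtain ⟨l, hl⟩ := htr x.1 x.2
    obtain ⟨l', hl'⟩ := htr y.1 y.2
    have h1 : (l' * l⁻¹) • x.1 = y.1 := by rw [mul_smul, ← hl, inv_smul_smul, hl']
    refine ⟨⟨l' * l⁻¹, ?_⟩, Subtype.ext h1⟩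
    exact mem_stab_of hG x.2 (by rw [h1]; exact y.2)
  let e : Cls G cb y₀ → ℤ := fun z => W z.1
  let T : Finset (Cls G cb y₀) := Finset.univ.filter (fun z => z.1 ∈ S)
  let T' : Finset (Cls G cb y₀) := Finset.univ.filter (fun z => e z % 4 = 1)
  have hT : Pool.Agent.H925R2.IsHalf inv T := by
    intro z
    simp only [T, Finset.mem_filter, Finset.mem_univ, true_and]
    exact hS z.1 z.2
  have hT' : Pool.Agent.H925R2.IsHalf inv T' := by
    intro z
    simp only [T', Finset.mem_filter, Finset.mem_univ, true_and]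
    have h1 : e (inv z) = - e z := hW z.1
    rw [h1]
    obtain ⟨l, hl⟩ : Odd (e z) := hWo z.1 z.2
    omega
  let g₁ : stab hG y₀ := ⟨g₀, hg₀⟩
  let π : Equiv.Perm (Cls G cb y₀) := MulAction.toPerm g₁
  have hπ : ∀ x, π (inv x) = inv (π x) := fun x => hinvG g₁ x
  have h1 := Pool.Agent.H204R3.CM.sign_of_half hinv T hT π hπ
  have h2 := Pool.Agent.H204R3.CM.sign_of_half hinv T' hT' π hπ
  have h3 : (T.filter (fun x => π x ∉ T)).card = {z | z ∈ S ∧ g₀ • z ∉ S}.ncard := by
    rw [Set.ncard_eq_toFinset_card', ← Finset.card_map ⟨Subtype.val, Subtype.val_injective⟩]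
    congr 1
    ext z
    simp only [Finset.mem_map, Finset.mem_filter, Finset.mem_univ, true_and,
      Function.Embedding.coeFn_mk, Set.mem_toFinset, Set.mem_ofPred_eq, T]
    constructor
    · rintro ⟨w, ⟨h1, h2⟩, rfl⟩
      exact ⟨h1, h2⟩
    · rintro ⟨h1, h2⟩
      exact ⟨⟨z, hSB z h1⟩, ⟨h1, h2⟩, rfl⟩
  rw [h3] at h1
  have h4 : Odd (T'.filter (fun x => π x ∉ T')).card := by
    by_contra hcon
    rw [Nat.not_odd_iff_even] at hcon
    rw [h1, hodd.neg_one_pow, hcon.neg_one_pow] at h2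
    norm_num at h2
  have h5 := Pool.Agent.H204R3.SP.core_odd_val (G := stab hG y₀) (Y := Cls G cb y₀) inv hinv hinvne
    hinvG k (by rw [← Nat.card_eq_fintype_card]; exact hcard) e (fun z => hW z.1)
    (fun z => hWo z.1 z.2) ⟨g₁, h4⟩ (fun z => c z.1) (fun z => hc z.1) (fun h => by
      have h1 := hcl h
      rw [Finset.sum_subtype (p := fun z => Link G cb y₀ z) _ (fun z => by simp)] at h1
      exact h1) ⟨y₀, link_refl _⟩
  exact h5

end Pool.Agent.TH127.SC
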