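import Mathlib
import Pool.Agent.TH127.SC.Odd
import Pool.Agent.W527.NormDefs

/-!
# Classes of complex embeddings of a family of fields
-/

namespace Pool.Agent.TH127.SC

open NumberField

/-- The embeddings into the complex numbers of the members of a family of fields. -/
def Embs {J : Type} (F : J → Type) [∀ j, Field (F j)] : Type := Σ j, (F j →+* ℂ)

variable {J : Type} {F : J → Type} [∀ j, Field (F j)]

/-- The automorphisms of the complex numbers act on the embeddings. -/
noncomputable instance : MulAction (ℂ ≃+* ℂ) (Embs F) where
  smul τ x := ⟨x.1, (τ : ℂ →+* ℂ).comp x.2⟩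
  one_smul _ := rfl
  mul_smul _ _ _ := rfl

/-- The complex conjugate embedding. -/
def bar (x : Embs F) : Embs F := ⟨x.1, ComplexEmbedding.conjugate x.2⟩

/-- The class of the embedding `x` is good. -/
def Good (x : Embs F) : Prop := GoodClass (ℂ ≃+* ℂ) bar x

/-- The class of the embedding `x` is good, and if it is only doubly transitive the number of pairs
is odd. -/
def GoodOdd (x : Embs F) : Prop := OddClass (ℂ ≃+* ℂ) bar x

/-- The embeddings `x` and `y` belong to the same class. -/
def SameClass (x y : Embs F) : Prop := Link (ℂ ≃+* ℂ) bar x y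

/-- Every nonempty finite family of CM subfields `T i` of the fields `K i`, `i ∈ S`, has an
embedding whose class is good. -/
def GoodFamilies {I : Type} (K : I → Type) [∀ i, Field (K i)] [∀ i, NumberField (K i)] : Prop :=
  ∀ (T : ∀ i, IntermediateField ℚ (K i)) (S : Finset I), S.Nonempty →
    (∀ i ∈ S, ¬ IsTotallyReal (T i)) → ∃ x : Embs (fun i : S => T i), Good x

end Pool.Agent.TH127.SC
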