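import Mathlib
import Pool.Agent.TH127.SC.Good
import Pool.Agent.W527.Sub
import Pool.Agent.W527.DecFamily

/-!
# Families of CM subfields with a good class
-/

set_option linter.unusedSectionVars false
set_option linter.unusedVariables false

namespace Pool.Agent.TH127.SC

open NumberField Module Pool.Agent.W527 Pool.Agent.W527.Dec Pool.Agent.H204R3.CM
  Pool.Agent.H977R3.WN

noncomputable section

variable {L : Type*} [Field L] [NumberField L] [IsGalois ℚ L]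
variable {ι : Type*} [Fintype ι] {E : ι → Type*} [∀ i, Field (E i)] [∀ i, NumberField (E i)]
  [∀ i, IsCMField (E i)]

/-- Some embedding of one of the fields `T i`, `i ∈ S`, has a good class. -/
def GoodFam (κ : L ≃ₐ[ℚ] L) (T : ∀ i, IntermediateField ℚ (E i)) (S : Finset ι) : Prop :=
  ∃ y : SubEmb L T S, GoodClass (L ≃ₐ[ℚ] L) (subCb κ T S) y

/-- The translates of the traces separate the embeddings of the family, up to factors. -/
def SepOn (w : ∀ i, (E i →+* L) → ℤ) (T : ∀ i, IntermediateField ℚ (E i)) (S : Finset ι) : Prop :=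
  ∀ (y y' : SubEmb L T S) (m n : ℤ), 0 < m → 0 < n →
    (∀ g : L ≃ₐ[ℚ] L, m * subW w T S (g • y) = n * subW w T S (g • y')) → y = y'

/-- All relations are invariant under some element that moves an embedding. -/
def Moves (κ : L ≃ₐ[ℚ] L) (w : ∀ i, (E i →+* L) → ℤ) (T : ∀ i, IntermediateField ℚ (E i))
    (S : Finset ι) : Prop :=
  ∀ c : SubEmb L T S → ℤ, (∀ y, c (subCb κ T S y) = - c y) →
    (∀ g : L ≃ₐ[ℚ] L, ∑ y : SubEmb L T S, c y * subW w T S (g • y) = 0) →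
      ∃ (σ : L ≃ₐ[ℚ] L) (y : SubEmb L T S), σ • y ≠ y ∧ ∀ g : L ≃ₐ[ℚ] L,
        c (g • σ • y) = c (g • y)

/-- The condition for all families. -/
def GoodL (κ : L ≃ₐ[ℚ] L) (w : ∀ i, (E i →+* L) → ℤ) : Prop :=
  ∀ (T : ∀ i, IntermediateField ℚ (E i)) (S : Finset ι), S.Nonempty →
    (∀ i ∈ S, NonReal (T i)) → SepOn w T S → Moves κ w T S

section basic

variable {κ : L ≃ₐ[ℚ] L} (hκ : ∀ i, ∀ φ : E i →+* L, κ • φ = cbar φ)
  (φ₀ : ∀ i, (E i →+* L)) {w : ∀ i, (E i →+* L) → ℤ} (hw : ∀ i φ, w i (cbar φ) = -w i φ)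
  (T : ∀ i, IntermediateField ℚ (E i)) (S : Finset ι) (hT : ∀ i ∈ S, NonReal (T i))

include hκ φ₀ in
theorem subCb_invol (y : SubEmb L T S) : subCb κ T S (subCb κ T S y) = y := by
  obtain ⟨i, ψ⟩ := y
  unfold subCb
  rw [sub_invol (φ₀ i) (hκ i)]

include hκ φ₀ hT in
theorem subCb_ne (y : SubEmb L T S) : subCb κ T S y ≠ y := by
  obtain ⟨i, ψ⟩ := y
  intro h
  exact sub_ne (φ₀ i) (hκ i) (hT i i.2) ψ (eq_of_heq (Sigma.mk.inj h).2)

include hκ φ₀ in
theorem subCb_smul (g : L ≃ₐ[ℚ] L) (y : SubEmb L T S) :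
    g • subCb κ T S y = subCb κ T S (g • y) := by
  obtain ⟨i, ψ⟩ := y
  change (⟨i, g • κ • ψ⟩ : SubEmb L T S) = ⟨i, κ • g • ψ⟩
  rw [sub_comm (φ₀ i) (hκ i)]

include hκ φ₀ hw in
theorem subW_odd (y : SubEmb L T S) : subW w T S (subCb κ T S y) = - subW w T S y :=
  tr_odd (φ₀ y.1) (hκ y.1) (T y.1) (hw y.1) y.2

include hκ φ₀ hw hT in
theorem moves_of_good (hgood : GoodFam κ T S) (hsep : SepOn w T S) : Moves κ w T S := by
  intro c hc hrel
  obtain ⟨y₀, hy₀⟩ := hgood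
  obtain ⟨σ, y, _, h1, h2⟩ := exists_moved_of_good (subCb_invol hκ φ₀ T S)
    (subCb_ne hκ φ₀ T S hT) (subCb_smul hκ φ₀ T S) hy₀ (subW_odd hκ φ₀ hw T S)
    (fun y y' h => hsep y y' 1 1 one_pos one_pos fun g => by rw [h g]) hc hrel
  exact ⟨σ, y, h1, h2⟩

include hκ φ₀ hw hT in
theorem moves_of_mild (hmild : FewMoved w T S ∨ PrimeCycle κ T S) (hsep : SepOn w T S) :
    Moves κ w T S := by
  intro c hc hrel
  exact exists_moved (G := L ≃ₐ[ℚ] L) (Y := SubEmb L T S) (cb := subCb κ T S)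
    (subCb_invol hκ φ₀ T S) (subCb_ne hκ φ₀ T S hT) (subCb_smul hκ φ₀ T S)
    (W := subW w T S) (subW_odd hκ φ₀ hw T S) hsep (small_of_mild hmild) (c := c) hc hrel

end basic

/-- Mild families and families with a good class. -/
theorem goodL_of {κ : L ≃ₐ[ℚ] L} (hκ : ∀ i, ∀ φ : E i →+* L, κ • φ = cbar φ)
    (φ₀ : ∀ i, (E i →+* L)) {w : ∀ i, (E i →+* L) → ℤ} (hw : ∀ i φ, w i (cbar φ) = -w i φ)
    (h : ∀ (T : ∀ i, IntermediateField ℚ (E i)) (S : Finset ι), S.Nonempty →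
      (∀ i ∈ S, NonReal (T i)) → (FewMoved w T S ∨ PrimeCycle κ T S) ∨ GoodFam κ T S) :
    GoodL κ w := by
  intro T S hS hT hsep
  rcases h T S hS hT with h1 | h1
  · exact moves_of_mild hκ φ₀ hw T S hT h1 hsep
  · exact moves_of_good hκ φ₀ hw T S hT h1 hsep

/-- No relations, if all the families have the property and all traces are separated. -/
theorem free_of_good {κ : L ≃ₐ[ℚ] L} (hκ : ∀ i, ∀ φ : E i →+* L, κ • φ = cbar φ)
    (hne : ∀ i, Nonempty (E i →+* L)) {w : ∀ i, (E i →+* L) → ℤ}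
    (hw : ∀ i φ, w i (cbar φ) = -w i φ) (hgood : GoodL κ w)
    (hsep : Separates w) : Free (F := E) (L := L) w := by
  classical
  intro c hc hrel
  by_contra hcon
  push Not at hcon
  have φ₀ : ∀ i, (E i →+* L) := fun i => (hne i).some
  choose T c' hc' hmin using fun i => exists_factor (φ₀ i) (c i)
  let S : Finset ι := Finset.univ.filter (fun i => ∃ φ, c i φ ≠ 0)
  have hS : S.Nonempty := by
    obtain ⟨i, φ, h⟩ := hcon
    exact ⟨i, Finset.mem_filter.2 ⟨Finset.mem_univ _, φ, h⟩⟩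
  have hNS : ∀ i, i ∉ S → ∀ ψ : T i →+* L, c' i ψ = 0 := by
    intro i hi ψ
    obtain ⟨φ, rfl⟩ := res_surjective (φ₀ i) (T i) ψ
    rw [← hc']
    by_contra h
    exact hi (Finset.mem_filter.2 ⟨Finset.mem_univ _, φ, h⟩)
  have hT : ∀ i ∈ S, NonReal (T i) := by
    intro i hi
    by_contra hreal
    unfold NonReal at hreal
    push Not at hreal
    obtain ⟨φ, hφ⟩ := (Finset.mem_filter.1 hi).2
    have h1 : res (T i) (cbar φ) = res (T i) φ := by
      ext x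
      rw [res_apply, res_apply, cbar_apply, hreal x x.2]
    have h2 : c i (cbar φ) = c i φ := by rw [hc', hc', h1]
    rw [hc] at h2
    apply hφ
    omega
  have hodd : ∀ i (ψ : T i →+* L), c' i (κ • ψ) = - c' i ψ := by
    intro i ψ
    obtain ⟨φ, rfl⟩ := res_surjective (φ₀ i) (T i) ψ
    rw [← res_smul, ← hc', ← hc', hκ, hc]
  have hrelS : ∀ τ : L ≃ₐ[ℚ] L, ∑ i ∈ S, ∑ ψ : (T i →+* L),
      c' i ψ * tr (T i) (w i) (τ • ψ) = 0 := by
    intro τ
    have h1 : ∀ i, ∑ ψ : (T i →+* L), c' i ψ * tr (T i) (w i) (τ • ψ) =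
        ∑ φ : (E i →+* L), c i φ * w i (τ • φ) := by
      intro i
      rw [← sum_res (T i) (c' i) (w i) τ]
      refine Finset.sum_congr rfl fun φ _ => ?_
      rw [← hc']
    rw [Finset.sum_congr rfl (fun i _ => h1 i), ← hrel τ]
    refine Finset.sum_subset (Finset.subset_univ S) fun i _ hi => ?_
    refine Finset.sum_eq_zero fun φ _ => ?_
    rw [hc', hNS i hi, zero_mul]
  have hsepS : SepOn w T S := by
    rintro ⟨i, ψ⟩ ⟨i', ψ'⟩ m n hm hn h
    have h1 := hsep T i i' (hT i i.2) (hT i' i'.2) ψ ψ' m n hm hn h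
    obtain ⟨h1, h2⟩ := Sigma.mk.inj h1
    have h3 : i = i' := Subtype.ext h1
    subst h3
    rw [eq_of_heq h2]
  obtain ⟨σ, ⟨i, ψ⟩, hmove, hinv⟩ := hgood T S hS hT hsepS (fun y => c' y.1 y.2)
    (fun y => hodd y.1 y.2) (fun g => by rw [sum_subEmb, hrelS])
  obtain ⟨φ, rfl⟩ := res_surjective (φ₀ i) (T i) ψ
  apply hmove
  change (⟨i, σ • res (T i) φ⟩ : SubEmb L T S) = ⟨i, res (T i) φ⟩
  rw [← res_smul]
  have h1 : res (T i) (σ • φ) = res (T i) φ := by
    apply hmin i σ φ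
    intro g
    rw [hc', hc']
    exact hinv g
  rw [h1]

end

end Pool.Agent.TH127.SC
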