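import Mathlib
import Pool.Agent.TH127.SC.Defs
import Pool.Agent.TH127.SC.Fam
import Pool.Agent.W527.CritMain

/-!
# Transfer of good classes between two group actions
-/

set_option linter.unusedSectionVars false
set_option linter.unusedVariables false

namespace Pool.Agent.TH127.SC

open NumberField Module Pool.Agent.W527 Pool.Agent.H204R3.CM Pool.Agent.H977R3.WN

section abstract

variable {G G' Y Y' : Type*} [Group G] [Group G'] [MulAction G Y] [MulAction G' Y'] {cb : Y → Y}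
  {cb' : Y' → Y'} (f : Y ≃ Y') (hcb : ∀ y, f (cb y) = cb' (f y))
  (h1 : ∀ g : G, ∃ g' : G', ∀ y, f (g • y) = g' • f y)
  (h2 : ∀ g' : G', ∃ g : G, ∀ y, f (g • y) = g' • f y)

include hcb h1 h2 in
theorem flip_iff (y z : Y) : Flip G cb y z ↔ Flip G' cb' (f y) (f z) := by
  constructor
  · rintro ⟨g, hg⟩
    obtain ⟨g', h⟩ := h1 g
    refine ⟨g', ?_⟩
    rw [← h, ← h, ← hcb, ← hcb]
    rcases hg with ⟨e1, e2⟩ | ⟨e1, e2⟩ | ⟨e1, e2⟩
    · exact Or.inl ⟨by rw [e1], by rw [e2]⟩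
    · exact Or.inr (Or.inl ⟨by rw [e1], by rw [e2]⟩)
    · exact Or.inr (Or.inr ⟨by rw [e1], by rw [e2]⟩)
  · rintro ⟨g', hg⟩
    obtain ⟨g, h⟩ := h2 g'
    refine ⟨g, ?_⟩
    rw [← h, ← h, ← hcb, ← hcb] at hg
    rcases hg with ⟨e1, e2⟩ | ⟨e1, e2⟩ | ⟨e1, e2⟩
    · exact Or.inl ⟨f.injective e1, f.injective e2⟩
    · exact Or.inr (Or.inl ⟨f.injective e1, f.injective e2⟩)
    · exact Or.inr (Or.inr ⟨f.injective e1, f.injective e2⟩)

include hcb h1 h2 in
theorem link_iff (y z : Y) : Link G cb y z ↔ Link G' cb' (f y) (f z) := by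
  constructor
  · intro h
    unfold Link at h
    induction h with
    | rel a b hab => exact Relation.EqvGen.rel _ _ fun h => hab ((flip_iff f hcb h1 h2 a b).2 h)
    | refl a => exact link_refl _
    | symm a b _ ih => exact link_symm ih
    | trans a b c _ _ ih1 ih2 => exact link_trans ih1 ih2
  · intro h
    have key : ∀ a b : Y', Link G' cb' a b → Link G cb (f.symm a) (f.symm b) := by
      intro a b h
      unfold Link at h
      induction h with
      | rel a b hab =>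
        refine Relation.EqvGen.rel _ _ fun h => hab ?_
        have h3 := (flip_iff f hcb h1 h2 _ _).1 h
        rwa [f.apply_symm_apply, f.apply_symm_apply] at h3
      | refl a => exact link_refl _
      | symm a b _ ih => exact link_symm ih
      | trans a b c _ _ ih1 ih2 => exact link_trans ih1 ih2
    have h3 := key _ _ h
    rwa [f.symm_apply_apply, f.symm_apply_apply] at h3

include hcb h1 h2 in
theorem classPair_transfer {y : Y} (h : ClassPair G' cb' (f y)) : ClassPair G cb y := by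
  intro x z x' z' hx hz hx' hz' n1 n2 n3 n4
  rw [link_iff f hcb h1 h2] at hx hz hx' hz'
  obtain ⟨g', hg'⟩ := h (f x) (f z) (f x') (f z') hx hz hx' hz' (fun h => n1 (f.injective h))
    (fun h => n2 (f.injective (by rw [h, hcb]))) (fun h => n3 (f.injective h))
    (fun h => n4 (f.injective (by rw [h, hcb])))
  obtain ⟨g, hg⟩ := h2 g'
  refine ⟨g, ?_⟩
  rw [← hg, ← hg, ← hcb, ← hcb] at hg'
  simpa only [f.injective.eq_iff] using hg'

include hcb h1 h2 in
theorem classTriple_transfer {y : Y} (h : ClassTriple G' cb' (f y)) : ClassTriple G cb y := by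
  intro x z hx hz n1 n2
  obtain ⟨g', π, hg'⟩ := h (fun i => f (x i)) (fun i => f (z i))
    (fun i => (link_iff f hcb h1 h2 _ _).1 (hx i)) (fun i => (link_iff f hcb h1 h2 _ _).1 (hz i))
    (fun i k hik => ⟨fun h => (n1 i k hik).1 (f.injective h),
      fun h => (n1 i k hik).2 (f.injective (by rw [h, hcb]))⟩)
    (fun i k hik => ⟨fun h => (n2 i k hik).1 (f.injective h),
      fun h => (n2 i k hik).2 (f.injective (by rw [h, hcb]))⟩)
  obtain ⟨g, hg⟩ := h2 g'
  refine ⟨g, π, fun i => ?_⟩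
  have h3 := hg' i
  rw [← hg, ← hcb] at h3
  simpa only [f.injective.eq_iff] using h3

include hcb h1 h2 in
theorem goodClass_transfer {y : Y} (h : GoodClass G' cb' (f y)) : GoodClass G cb y := by
  obtain ⟨htr, b, hcard, hb⟩ := h
  refine ⟨fun z hz => ?_, b, ?_, ?_⟩
  · obtain ⟨g', hg'⟩ := htr (f z) ((link_iff f hcb h1 h2 _ _).1 hz)
    obtain ⟨g, hg⟩ := h2 g'
    refine ⟨g, f.injective ?_⟩
    rw [hg, hg']
  · rw [← hcard]
    refine Nat.card_congr (Equiv.subtypeEquiv f fun z => ?_)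
    exact link_iff f hcb h1 h2 y z
  · rcases hb with hb | hb | ⟨h3, hb⟩
    · exact Or.inl hb
    · exact Or.inr (Or.inl hb)
    · refine Or.inr (Or.inr ⟨classPair_transfer f hcb h1 h2 h3, ?_⟩)
      rcases hb with hb | hb | hb
      · exact Or.inl hb
      · exact Or.inr (Or.inl hb)
      · exact Or.inr (Or.inr (classTriple_transfer f hcb h1 h2 hb))

end abstract

noncomputable section

variable {L : Type} [Field L] [NumberField L] [IsGalois ℚ L] (j : L →+* ℂ)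

/-- Embeddings into `L` and into the complex numbers. -/
def embEquiv {J : Type} {F : J → Type} [∀ j, Field (F j)]
    (h : ∀ i, ∀ ψ : F i →+* ℂ, ∃ φ : F i →+* L, j.comp φ = ψ) :
    (Σ i, (F i →+* L)) ≃ Embs F :=
  Equiv.ofBijective (fun y => ⟨y.1, j.comp y.2⟩) ⟨by
    rintro ⟨i, ψ⟩ ⟨i', ψ'⟩ hh
    obtain ⟨h1, h2⟩ := Sigma.mk.inj hh
    change i = i' at h1
    subst h1
    have h3 := comp_injective j (eq_of_heq h2)
    change ψ = ψ' at h3
    rw [h3], by
    rintro ⟨i, χ⟩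
    obtain ⟨ψ, rfl⟩ := h i χ
    exact ⟨⟨i, ψ⟩, rfl⟩⟩

theorem embEquiv_apply {J : Type} {F : J → Type} [∀ j, Field (F j)]
    (h : ∀ i, ∀ ψ : F i →+* ℂ, ∃ φ : F i →+* L, j.comp φ = ψ) (y : Σ i, (F i →+* L)) :
    embEquiv j h y = (⟨y.1, j.comp y.2⟩ : Σ i, (F i →+* ℂ)) := rfl

variable {ι : Type} [Fintype ι] {E : ι → Type} [∀ i, Field (E i)] [∀ i, NumberField (E i)]
  [∀ i, IsCMField (E i)]

theorem goodFam_of_good (h : ∀ i, ∀ ψ : E i →+* ℂ, ∃ φ : E i →+* L, j.comp φ = ψ)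
    {κ : L ≃ₐ[ℚ] L} (hκ : ∀ x, starRingEnd ℂ (j x) = j (κ x))
    (T : ∀ i, IntermediateField ℚ (E i)) (S : Finset ι)
    (hg : ∃ x : Embs (fun i : S => T i), Good x) : GoodFam κ T S := by
  obtain ⟨x, hx⟩ := hg
  have hT : ∀ i : S, ∀ ψ : T i →+* ℂ, ∃ φ : T i →+* L, j.comp φ = ψ := by
    intro i ψ
    obtain ⟨ψ', h'⟩ := sub_emb j h i (T i) ψ
    exact ⟨ψ', h'⟩
  let f := embEquiv (F := fun i : S => T i) j hT
  obtain ⟨y, rfl⟩ := f.surjective x
  refine ⟨y, ?_⟩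
  refine goodClass_transfer (G := L ≃ₐ[ℚ] L) (G' := ℂ ≃+* ℂ) (cb' := bar) f ?_ ?_ ?_ hx
  · rintro ⟨i, ψ⟩
    change (⟨i, j.comp (κ • ψ)⟩ : Σ i : S, (T i →+* ℂ)) = ⟨i, ComplexEmbedding.conjugate (j.comp ψ)⟩
    have h1 : ComplexEmbedding.conjugate (j.comp ψ) = j.comp (κ • ψ) :=
      RingHom.ext fun x => hκ (ψ x)
    rw [h1]
  · intro g
    obtain ⟨τ, hτ⟩ := exists_lift' j g
    refine ⟨τ, ?_⟩
    rintro ⟨i, ψ⟩
    change (⟨i, j.comp (g • ψ)⟩ : Σ i : S, (T i →+* ℂ)) = ⟨i, (τ : ℂ →+* ℂ).comp (j.comp ψ)⟩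
    rw [lifts_comp j hτ]
  · intro τ
    obtain ⟨g, hg⟩ := exists_lift j τ
    refine ⟨g, ?_⟩
    rintro ⟨i, ψ⟩
    change (⟨i, j.comp (g • ψ)⟩ : Σ i : S, (T i →+* ℂ)) = ⟨i, (τ : ℂ →+* ℂ).comp (j.comp ψ)⟩
    rw [lifts_comp j hg]

end

end Pool.Agent.TH127.SC
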