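import Mathlib
import Pool.Agent.TH127.SC.Transfer
import Pool.Agent.W527.FrobMild

/-!
# Families of Weil numbers with good classes
-/

set_option linter.unusedSectionVars false
set_option linter.unusedVariables false

namespace Pool.Agent.TH127.SC

open NumberField Module Pool.Agent.W527 Pool.Agent.H204R3.CM Pool.Agent.H977R3.WN
  Pool.Agent.H485R3.Exact

noncomputable section

variable {p : ℕ} [hp : Fact p.Prime] {I : Type} [Fintype I] {K : I → Type} [∀ i, Field (K i)]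
  [∀ i, NumberField (K i)] [∀ i, IsCMField (K i)] {m : I → ℕ} {π : ∀ i, K i}

/-- The family is mild in the sense of the earlier criterion. -/
def MildFam (p : ℕ) [Fact p.Prime] (m : I → ℕ) (π : ∀ i, K i)
    (T : ∀ i, IntermediateField ℚ (K i)) (S : Finset I) : Prop :=
  Norm.FewPrimes T S 3 ∨ Norm.FewEmbeddings T S 3 ∨
    ((Norm.FewPrimes T S 4 ∨ Norm.FewEmbeddings T S 4) ∧ Norm.TwoSlopes p m π T S) ∨
      Short.OneCycle T S

theorem conj_data {L : Type} [Field L] [NumberField L] [IsGalois ℚ L] (j : L →+* ℂ)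
    (h : ∀ i, ∀ ψ : K i →+* ℂ, ∃ φ : K i →+* L, j.comp φ = ψ) :
    (∃ κc : L ≃ₐ[ℚ] L, (∀ x, starRingEnd ℂ (j x) = j (κc x)) ∧
      ∀ i, ∀ φ : K i →+* L, κc • φ = cbar φ) ∧ ∀ i, Nonempty (K i →+* L) := by
  obtain ⟨κc, hκc⟩ := exists_lift j (starRingAut : ℂ ≃+* ℂ)
  have hκc' : ∀ x, starRingEnd ℂ (j x) = j (κc x) := hκc
  refine ⟨⟨κc, hκc', ?_⟩, ?_⟩
  · intro i φ
    apply comp_injective j
    change j.comp (κc • φ) = j.comp (cbar φ)
    rw [comp_cbar]
    exact RingHom.ext fun x => (hκc' (φ x)).symm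
  · intro i
    obtain ⟨φ, _⟩ := h i (Classical.arbitrary _)
    exact ⟨φ⟩

theorem mild_or_of_mildFam {L : Type} [Field L] [NumberField L] [IsGalois ℚ L] (j : L →+* ℂ)
    (h : ∀ i, ∀ ψ : K i →+* ℂ, ∃ φ : K i →+* L, j.comp φ = ψ)
    {κc : L ≃ₐ[ℚ] L} (hκc' : ∀ x, starRingEnd ℂ (j x) = j (κc x))
    (hweil : ∀ i, ∀ φ : K i →+* ℂ, ‖φ (π i)‖ ^ 2 = (p : ℝ) ^ m i)
    {κ : I → ℚ} (hκ : ∀ i, 0 < κ i) {u : ∀ i, (K i →+* PadicAlgCl p) → ℤ}
    (hu : ∀ i, ∀ τ : K i →+* PadicAlgCl p,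
      2 * (- Real.logb p ‖τ (π i)‖) - m i = (κ i : ℝ) * u i τ) (jp : L →+* PadicAlgCl p)
    (T : ∀ i, IntermediateField ℚ (K i)) (S : Finset I)
    (hmild : MildFam p m π T S) :
    FewMoved (L := L) (fun i φ => u i (jp.comp φ)) T S ∨ PrimeCycle κc T S := by
  have hconst := const_of_twoSlopes j h T S hweil hκ hu jp
  rcases hmild with h1 | h1 | ⟨h1, h2⟩ | h1
  · obtain ⟨i, hi, σ, hσ, hm⟩ := few_of_primes (L := L) j h T S h1
    exact Or.inl ⟨i, hi, σ, hσ, Or.inl hm⟩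
  · obtain ⟨i, hi, σ, hσ, hm⟩ := few_of_embeddings (L := L) j h T S h1
    exact Or.inl ⟨i, hi, σ, hσ, Or.inl hm⟩
  · have h3 : ∃ i ∈ S, ∃ σ : L ≃ₐ[ℚ] L, (∃ ψ : T i →+* L, σ • ψ ≠ ψ) ∧
        moved (fun i => T i) S σ < 2 * 4 := by
      rcases h1 with h1 | h1
      · exact few_of_primes (L := L) j h T S h1
      · exact few_of_embeddings (L := L) j h T S h1
    obtain ⟨i, hi, σ, hσ, hm⟩ := h3
    exact Or.inl ⟨i, hi, σ, hσ, Or.inr ⟨hm, hconst h2⟩⟩
  · exact Or.inr (primeCycle_of j h T S hκc' (short_oneCycle h1))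

/-- The property of all families of CM subfields: mild, or with a good class. -/
def MildOrGood (p : ℕ) [Fact p.Prime] (m : I → ℕ) (π : ∀ i, K i) : Prop :=
  ∀ (T : ∀ i, IntermediateField ℚ (K i)) (S : Finset I), S.Nonempty →
    (∀ i ∈ S, ¬ IsTotallyReal (T i)) →
      MildFam p m π T S ∨ ∃ x : Embs (fun i : S => T i), Good x

theorem mildOrGood_of_good (h : GoodFamilies K) : MildOrGood p m π :=
  fun T S hS hT => Or.inr (h T S hS hT)

theorem mildOrGood_of_mild (h : Norm.Mild p m π) : MildOrGood p m π :=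
  fun T S hS hT => Or.inl (h T S hS hT)

theorem free_of_mildOrGood (hint : ∀ i, IsIntegral ℤ (π i))
    (hweil : ∀ i, ∀ φ : K i →+* ℂ, ‖φ (π i)‖ ^ 2 = (p : ℝ) ^ m i)
    (hgood : MildOrGood p m π) (hsep : Norm.Separated p m π)
    {κ : I → ℚ} (hκ : ∀ i, 0 < κ i) {u : ∀ i, (K i →+* PadicAlgCl p) → ℤ}
    (hu : ∀ i, ∀ τ : K i →+* PadicAlgCl p,
      2 * (- Real.logb p ‖τ (π i)‖) - m i = (κ i : ℝ) * u i τ)
    {L : Type} [Field L] [NumberField L] [IsGalois ℚ L] (j : L →+* ℂ)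
    (h : ∀ i, ∀ ψ : K i →+* ℂ, ∃ φ : K i →+* L, j.comp φ = ψ) (jp : L →+* PadicAlgCl p) :
    Free (F := K) (L := L) (fun i φ => u i (jp.comp φ)) := by
  obtain ⟨⟨κc, hκc', hκc''⟩, hne⟩ := conj_data (K := K) j h
  have hodd : ∀ i, ∀ φ : K i →+* L, u i (jp.comp (cbar φ)) = - u i (jp.comp φ) :=
    fun i φ => anti_of_slopes' (hweil i) (hκ i).ne' (hu i) (jp.comp φ)
  refine free_of_good hκc'' hne hodd ?_ (separates_of_separated hint hweil hκ hu j h jp hsep)
  refine goodL_of hκc'' (fun i => (hne i).some) hodd fun T S hS hT => ?_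
  rcases hgood T S hS (fun i hi => (nonReal_iff _).1 (hT i hi)) with h1 | h1
  · exact Or.inl (mild_or_of_mildFam j h hκc' hweil hκ hu jp T S h1)
  · exact Or.inr (goodFam_of_good j h hκc' T S h1)

/-- The criterion for families that are mild or have a good class. -/
theorem good_criterion (hint : ∀ i, IsIntegral ℤ (π i))
    (hgen : ∀ i, IntermediateField.adjoin ℚ {π i} = ⊤)
    (hweil : ∀ i, ∀ φ : K i →+* ℂ, ‖φ (π i)‖ ^ 2 = (p : ℝ) ^ m i)
    (hgood : MildOrGood p m π) : Norm.PairingsGenerate p m π ↔ Norm.Separated p m π := by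
  classical
  constructor
  · exact separated_of_generate hgen hweil
  · intro hsep Ω _ _ _ V _ _ _ F hF n t s hs c hc φ hφ
    choose κ u hκ hu using fun i => exists_slopes_pos (p := p) (ne_zero_of_weil (hweil i)) (m i)
    refine tate_of_free_finite p K m π hgen hweil κ (fun i => (hκ i).ne') u hu ?_ V F hF t s hs c
      hc φ hφ
    intro L _ _ j h jp
    exact free_of_mildOrGood hint hweil hgood hsep hκ hu j h jp

end

end Pool.Agent.TH127.SC
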