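import Mathlib
import Pool.Agent.TH127.SC.Criterion
import Pool.Agent.TH127.SC.Odd

/-!
# Weil numbers with odd deviations of the slopes
-/

set_option linter.unusedSectionVars false
set_option linter.unusedVariables false

namespace Pool.Agent.TH127.SC

open NumberField Module Pool.Agent.W527 Pool.Agent.H204R3.CM Pool.Agent.H977R3.WN
  Pool.Agent.H485R3.Exact

section abstract

variable {G G' Y Y' : Type*} [Group G] [Group G'] [MulAction G Y] [MulAction G' Y'] {cb : Y → Y}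
  {cb' : Y' → Y'} (f : Y ≃ Y') (hcb : ∀ y, f (cb y) = cb' (f y))
  (h1 : ∀ g : G, ∃ g' : G', ∀ y, f (g • y) = g' • f y)
  (h2 : ∀ g' : G', ∃ g : G, ∀ y, f (g • y) = g' • f y)

include hcb h1 h2 in
theorem oddClass_transfer {y : Y} (h : OddClass G' cb' (f y)) : OddClass G cb y := by
  obtain ⟨htr, b, hcard, hb⟩ := h
  refine ⟨fun z hz => ?_, b, ?_, ?_⟩
  · obtain ⟨g', hg'⟩ := htr (f z) ((link_iff f hcb h1 h2 _ _).1 hz)
    obtain ⟨g, hg⟩ := h2 g'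
    refine ⟨g, f.injective ?_⟩
    rw [hg, hg']
  · rw [← hcard]
    refine Nat.card_congr (Equiv.subtypeEquiv f fun z => ?_)
    exact link_iff f hcb h1 h2 y z
  · rcases hb with hb | hb | ⟨h3, hb⟩
    · exact Or.inl hb
    · exact Or.inr (Or.inl hb)
    · exact Or.inr (Or.inr ⟨classPair_transfer f hcb h1 h2 h3, hb⟩)

end abstract

noncomputable section

variable {p : ℕ} [hp : Fact p.Prime] {I : Type} [Fintype I] {K : I → Type} [∀ i, Field (K i)]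
  [∀ i, NumberField (K i)] [∀ i, IsCMField (K i)] {m : I → ℕ} {π : ∀ i, K i}

theorem oddClass_of {L : Type} [Field L] [NumberField L] [IsGalois ℚ L] (j : L →+* ℂ)
    (h : ∀ i, ∀ ψ : K i →+* ℂ, ∃ φ : K i →+* L, j.comp φ = ψ)
    (hclass : ∀ x : Embs K, OddClass (ℂ ≃+* ℂ) bar x) (y : Σ i, (K i →+* L)) :
    OddClass (L ≃ₐ[ℚ] L) (fun y : Σ i, (K i →+* L) => ⟨y.1, cbar y.2⟩) y := by
  let f := embEquiv (F := K) j h
  refine oddClass_transfer (G := L ≃ₐ[ℚ] L) (G' := ℂ ≃+* ℂ) (cb' := bar) f ?_ ?_ ?_ (hclass (f y))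
  · rintro ⟨i, φ⟩
    change (⟨i, j.comp (cbar φ)⟩ : Σ i, (K i →+* ℂ)) = ⟨i, ComplexEmbedding.conjugate (j.comp φ)⟩
    rw [comp_cbar]
  · intro g
    obtain ⟨τ, hτ⟩ := exists_lift' j g
    refine ⟨τ, ?_⟩
    rintro ⟨i, φ⟩
    change (⟨i, j.comp (g • φ)⟩ : Σ i, (K i →+* ℂ)) = ⟨i, (τ : ℂ →+* ℂ).comp (j.comp φ)⟩
    rw [lifts_comp j hτ]
  · intro τ
    obtain ⟨g, hg⟩ := exists_lift j τ
    refine ⟨g, ?_⟩
    rintro ⟨i, φ⟩
    change (⟨i, j.comp (g • φ)⟩ : Σ i, (K i →+* ℂ)) = ⟨i, (τ : ℂ →+* ℂ).comp (j.comp φ)⟩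
    rw [lifts_comp j hg]

theorem eq_of_slopes (hint : ∀ i, IsIntegral ℤ (π i))
    (hweil : ∀ i, ∀ φ : K i →+* ℂ, ‖φ (π i)‖ ^ 2 = (p : ℝ) ^ m i)
    (hpow : ∀ i, ∀ s : ℕ, 0 < s → IntermediateField.adjoin ℚ {π i ^ s} = ⊤)
    {κ : I → ℚ} (hκ : ∀ i, 0 < κ i) {u : ∀ i, (K i →+* PadicAlgCl p) → ℤ}
    (hu : ∀ i, ∀ τ : K i →+* PadicAlgCl p,
      2 * (- Real.logb p ‖τ (π i)‖) - m i = (κ i : ℝ) * u i τ)
    {L : Type} [Field L] [NumberField L] [IsGalois ℚ L] (jp : L →+* PadicAlgCl p) (i : I)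
    (φ φ' : K i →+* L)
    (hh : ∀ g : L ≃ₐ[ℚ] L, u i (jp.comp (g • φ)) = u i (jp.comp (g • φ'))) : φ = φ' := by
  have hp1 : (1 : ℝ) < p := by exact_mod_cast hp.out.one_lt
  have hπ : π i ≠ 0 := ne_zero_of_weil (hweil i)
  have h0 : ∀ φ : K i →+* L, φ (π i) ≠ 0 := fun φ => (map_ne_zero φ).2 hπ
  obtain ⟨r, hr, hz⟩ : ∃ r : ℕ, 0 < r ∧ (φ (π i) / φ' (π i)) ^ r = 1 := by
    apply root_of_unity
    · intro l _ e
      rw [map_div₀, norm_div]
      by_cases hl : l = p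
      · subst hl
        let ealg : L →ₐ[ℚ] PadicAlgCl l := (jp : L →+* PadicAlgCl l).toRatAlgHom
        obtain ⟨g, hg⟩ := Pool.Agent.H485R3.exists_gal ealg e
        have hg' : ∀ x, e x = jp (g x) := hg
        rw [hg', hg']
        have e1 : 2 * (- Real.logb l ‖jp (g (φ (π i)))‖) - m i =
            (κ i : ℝ) * u i (jp.comp (g • φ)) := hu i (jp.comp (g • φ))
        have e2 : 2 * (- Real.logb l ‖jp (g (φ' (π i)))‖) - m i =
            (κ i : ℝ) * u i (jp.comp (g • φ')) := hu i (jp.comp (g • φ'))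
        rw [hh g] at e1
        have h2 : 0 < ‖jp (g (φ (π i)))‖ :=
          norm_pos_iff.2 ((map_ne_zero jp).2 ((map_ne_zero g).2 (h0 φ)))
        have h3 : 0 < ‖jp (g (φ' (π i)))‖ :=
          norm_pos_iff.2 ((map_ne_zero jp).2 ((map_ne_zero g).2 (h0 φ')))
        have h4 : Real.logb l ‖jp (g (φ (π i)))‖ = Real.logb l ‖jp (g (φ' (π i)))‖ := by linarith
        have h5 := Real.logb_injOn_pos hp1 (Set.mem_Ioi.2 h2) (Set.mem_Ioi.2 h3) h4
        rw [h5, div_self h3.ne']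
      · have h1 := norm_eq_one_of_ne p (m i) (π i) (hint i) (hweil i) l hl
          ((e : L →+* PadicAlgCl l).comp φ)
        have h2 := norm_eq_one_of_ne p (m i) (π i) (hint i) (hweil i) l hl
          ((e : L →+* PadicAlgCl l).comp φ')
        change ‖e (φ (π i))‖ = 1 at h1
        change ‖e (φ' (π i))‖ = 1 at h2
        rw [h1, h2, div_one]
    · intro e
      have h1 := hweil i ((e : L →+* ℂ).comp φ)
      have h2 := hweil i ((e : L →+* ℂ).comp φ')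
      change ‖e (φ (π i))‖ ^ 2 = _ at h1
      change ‖e (φ' (π i))‖ ^ 2 = _ at h2
      have h3 : ‖e (φ (π i))‖ = ‖e (φ' (π i))‖ := by
        have h4 : ‖e (φ (π i))‖ ^ 2 = ‖e (φ' (π i))‖ ^ 2 := by rw [h1, h2]
        exact (pow_left_inj₀ (norm_nonneg _) (norm_nonneg _) two_ne_zero).1 h4
      rw [map_div₀, norm_div, h3, div_self]
      exact norm_ne_zero_iff.2 ((map_ne_zero e).2 (h0 φ'))
  have h1 : φ (π i ^ r) = φ' (π i ^ r) := by
    rw [div_pow, div_eq_one_iff_eq (pow_ne_zero _ (h0 φ'))] at hz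
    rw [map_pow, map_pow, hz]
  have h2 : ∀ x ∈ IntermediateField.adjoin ℚ {π i ^ r}, φ x = φ' x := by
    intro x hx
    induction hx using IntermediateField.adjoin_induction with
    | mem x hx =>
      rw [Set.mem_singleton_iff] at hx
      rw [hx]
      exact h1
    | algebraMap q => simp
    | add x y _ _ h3 h4 => rw [map_add, map_add, h3, h4]
    | inv x _ h3 => rw [map_inv₀, map_inv₀, h3]
    | mul x y _ _ h3 h4 => rw [map_mul, map_mul, h3, h4]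
  refine RingHom.ext fun x => h2 x ?_
  rw [hpow i r hr]
  exact IntermediateField.mem_top

theorem free_of_odd (hclass : ∀ x : Embs K, OddClass (ℂ ≃+* ℂ) bar x)
    (hint : ∀ i, IsIntegral ℤ (π i))
    (hweil : ∀ i, ∀ φ : K i →+* ℂ, ‖φ (π i)‖ ^ 2 = (p : ℝ) ^ m i)
    (hpow : ∀ i, ∀ s : ℕ, 0 < s → IntermediateField.adjoin ℚ {π i ^ s} = ⊤)
    {κ : I → ℚ} (hκ : ∀ i, 0 < κ i) {u : ∀ i, (K i →+* PadicAlgCl p) → ℤ}
    (hu : ∀ i, ∀ τ : K i →+* PadicAlgCl p,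
      2 * (- Real.logb p ‖τ (π i)‖) - m i = (κ i : ℝ) * u i τ) (hodd : ∀ i τ, Odd (u i τ))
    {L : Type} [Field L] [NumberField L] [IsGalois ℚ L] (j : L →+* ℂ)
    (h : ∀ i, ∀ ψ : K i →+* ℂ, ∃ φ : K i →+* L, j.comp φ = ψ) (jp : L →+* PadicAlgCl p) :
    Free (F := K) (L := L) (fun i φ => u i (jp.comp φ)) := by
  classical
  obtain ⟨⟨κc, hκc', hκc''⟩, hne⟩ := conj_data (K := K) j h
  have hanti : ∀ i, ∀ φ : K i →+* L, u i (jp.comp (cbar φ)) = - u i (jp.comp φ) :=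
    fun i φ => anti_of_slopes' (hweil i) (hκ i).ne' (hu i) (jp.comp φ)
  intro c hc hrel i φ
  let cb : (Σ i, (K i →+* L)) → Σ i, (K i →+* L) := fun y => ⟨y.1, cbar y.2⟩
  refine zero_of_oddClass (G := L ≃ₐ[ℚ] L) (Y := Σ i, (K i →+* L)) (cb := cb)
    ?_ ?_ ?_ (oddClass_of j h hclass) (W := fun y => u y.1 (jp.comp y.2)) ?_ ?_ ?_
    (c := fun y => c y.1 y.2) ?_ ?_ ⟨i, φ⟩
  · rintro ⟨i, φ⟩
    change (⟨i, cbar (cbar φ)⟩ : Σ i, (K i →+* L)) = ⟨i, φ⟩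
    rw [cbar_cbar]
  · rintro ⟨i, φ⟩ hh
    exact cbar_ne φ (eq_of_heq (Sigma.mk.inj hh).2)
  · rintro g ⟨i, φ⟩
    rfl
  · rintro ⟨i, φ⟩
    exact hanti i φ
  · rintro ⟨i, φ⟩
    exact hodd i _
  · intro y y' hyy' hh
    obtain ⟨g₀, hg₀⟩ := (oddClass_of j h hclass y).1 y' hyy'
    obtain ⟨i, φ⟩ := y
    subst hg₀
    exact congrArg (fun ψ => (⟨i, ψ⟩ : Σ i, (K i →+* L)))
      (eq_of_slopes hint hweil hpow hκ hu jp i φ (g₀ • φ) (fun g => hh g))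
  · rintro ⟨i, φ⟩
    exact hc i φ
  · intro g
    rw [Fintype.sum_sigma]
    exact hrel g

end

end Pool.Agent.TH127.SC
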