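import Mathlib
import Pool.Agent.TH127.SC.Odd

/-!
# Good classes under equivariant maps
-/

set_option linter.unusedSectionVars false
set_option linter.unusedVariables false

namespace Pool.Agent.TH127.SC

open Pool.Agent.W527

section inj

variable {G X X' : Type*} [Group G] [MulAction G X] [MulAction G X'] {cb : X → X} {cb' : X' → X'}
  {ι : X' → X} (hι : Function.Injective ι) (hιG : ∀ (g : G) x, ι (g • x) = g • ι x)
  (hιcb : ∀ x, ι (cb' x) = cb (ι x))

include hι hιG hιcb in
theorem flip_inj_iff (x y : X') : Flip G cb' x y ↔ Flip G cb (ι x) (ι y) := by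
  unfold Flip
  refine exists_congr fun g => ?_
  rw [← hιG, ← hιG, ← hιcb, ← hιcb, hι.eq_iff, hι.eq_iff, hι.eq_iff, hι.eq_iff, hι.eq_iff,
    hι.eq_iff]

include hι hιG hιcb in
theorem link_inj {x y : X'} (h : Link G cb' x y) : Link G cb (ι x) (ι y) := by
  unfold Link at h
  induction h with
  | rel a b hab => exact Relation.EqvGen.rel _ _ fun h => hab ((flip_inj_iff hι hιG hιcb a b).2 h)
  | refl a => exact link_refl _
  | symm a b _ ih => exact link_symm ih
  | trans a b c _ _ ih1 ih2 => exact link_trans ih1 ih2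

include hι hιG hιcb in
theorem link_inj_iff {x₀ : X'} (htr : ∀ z, Link G cb (ι x₀) z → ∃ g : G, g • ι x₀ = z) (y : X') :
    Link G cb' x₀ y ↔ Link G cb (ι x₀) (ι y) := by
  refine ⟨link_inj hι hιG hιcb, fun h => ?_⟩
  have key : ∀ a b : X, Link G cb a b → Link G cb (ι x₀) a → ∀ x y : X', ι x = a → ι y = b →
      Link G cb' x y := by
    intro a b h
    unfold Link at h
    induction h with
    | rel a b hab =>
      intro _ x y hx hy
      subst hx hy
      exact Relation.EqvGen.rel _ _ fun h => hab ((flip_inj_iff hι hιG hιcb x y).1 h)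
    | refl a =>
      intro _ x y hx hy
      rw [← hy] at hx
      rw [hι hx]
      exact link_refl _
    | symm a b h ih =>
      intro hb x y hx hy
      exact link_symm (ih (link_trans hb (link_symm h)) y x hy hx)
    | trans a b c h1 h2 ih1 ih2 =>
      intro ha x y hx hy
      have hb : Link G cb (ι x₀) b := link_trans ha h1
      obtain ⟨g, hg⟩ := htr b hb
      have hz : ι (g • x₀) = b := by rw [hιG, hg]
      exact link_trans (ih1 ha x (g • x₀) hx hz) (ih2 hb (g • x₀) y hz hy)
  exact key _ _ h (link_refl _) _ _ rfl rfl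

include hι hιG hιcb in
theorem goodClass_inj {x₀ : X'} (h : GoodClass G cb (ι x₀)) : GoodClass G cb' x₀ := by
  obtain ⟨htr, b, hcard, hb⟩ := h
  have hl : ∀ y, Link G cb' x₀ y ↔ Link G cb (ι x₀) (ι y) := link_inj_iff hι hιG hιcb htr
  refine ⟨fun z hz => ?_, b, ?_, ?_⟩
  · obtain ⟨g, hg⟩ := htr (ι z) ((hl z).1 hz)
    exact ⟨g, hι (by rw [hιG, hg])⟩
  · rw [← hcard]
    refine Nat.card_congr (Equiv.ofBijective (fun z => ⟨ι z.1, (hl z.1).1 z.2⟩) ⟨?_, ?_⟩)
    · intro z z' h
      exact Subtype.ext (hι (congrArg Subtype.val h))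
    · rintro ⟨z, hz⟩
      obtain ⟨g, hg⟩ := htr z hz
      have e : ι (g • x₀) = z := by rw [hιG, hg]
      exact ⟨⟨g • x₀, (hl _).2 (by rw [e]; exact hz)⟩, Subtype.ext e⟩
  · have hpair : ClassPair G cb (ι x₀) → ClassPair G cb' x₀ := by
      intro h x y x' y' hx hy hx' hy' n1 n2 n3 n4
      obtain ⟨g, hg⟩ := h (ι x) (ι y) (ι x') (ι y') ((hl _).1 hx) ((hl _).1 hy) ((hl _).1 hx')
        ((hl _).1 hy') (fun h => n1 (hι h)) (fun h => n2 (hι (by rw [h, hιcb])))
        (fun h => n3 (hι h)) (fun h => n4 (hι (by rw [h, hιcb])))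
      refine ⟨g, ?_⟩
      rw [← hιG, ← hιG, ← hιcb, ← hιcb] at hg
      simpa only [hι.eq_iff] using hg
    rcases hb with hb | hb | ⟨h3, hb⟩
    · exact Or.inl hb
    · exact Or.inr (Or.inl hb)
    · refine Or.inr (Or.inr ⟨hpair h3, ?_⟩)
      rcases hb with hb | hb | hb
      · exact Or.inl hb
      · exact Or.inr (Or.inl hb)
      · refine Or.inr (Or.inr ?_)
        intro x z hx hz n1 n2
        obtain ⟨g, π, hg⟩ := hb (fun i => ι (x i)) (fun i => ι (z i))
          (fun i => (hl _).1 (hx i)) (fun i => (hl _).1 (hz i))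
          (fun i k hik => ⟨fun h => (n1 i k hik).1 (hι h),
            fun h => (n1 i k hik).2 (hι (by rw [h, hιcb]))⟩)
          (fun i k hik => ⟨fun h => (n2 i k hik).1 (hι h),
            fun h => (n2 i k hik).2 (hι (by rw [h, hιcb]))⟩)
        refine ⟨g, π, fun i => ?_⟩
        have h3 := hg i
        rw [← hιG, ← hιcb] at h3
        simpa only [hι.eq_iff] using h3

end inj

theorem card_of_fibers {α Q F : Type*} (f : α → Q)
    (h : ∀ q, Nonempty ({x // f x = q} ≃ F)) : Nat.card α = Nat.card Q * Nat.card F := by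
  rw [← Nat.card_prod]
  exact Nat.card_congr ((Equiv.sigmaFiberEquiv f).symm.trans
    ((Equiv.sigmaCongrRight fun q => (h q).some).trans (Equiv.sigmaEquivProd Q F)))

theorem even_card {X : Type*} [Finite X] {cb : X → X} (hcb : ∀ y, cb (cb y) = y)
    (hne : ∀ y, cb y ≠ y) : Even (Nat.card X) := by
  classical
  have := Fintype.ofFinite X
  have h3 : ((Nat.card X : ℕ) : ZMod 2) = 0 := by
    rw [Nat.card_eq_fintype_card, ← Finset.card_univ, Finset.cast_card]
    refine Finset.sum_involution (fun y _ => cb y) ?_ ?_ ?_ ?_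
    · intro y hy
      rfl
    · intro y hy _
      exact hne y
    · intro y hy
      exact Finset.mem_univ _
    · intro y hy
      exact hcb y
  rw [ZMod.natCast_eq_zero_iff_even] at h3
  exact h3

section surj

variable {G X Y : Type*} [Group G] [MulAction G X] [MulAction G Y] [Finite X] {cb : X → X}
  {cb' : Y → Y} (hcb : ∀ y, cb (cb y) = y) (hne : ∀ y, cb y ≠ y)
  (hG : ∀ (g : G) (y : X), g • cb y = cb (g • y))
  (hcb' : ∀ y, cb' (cb' y) = y) (hne' : ∀ y, cb' y ≠ y)
  (hG' : ∀ (g : G) (y : Y), g • cb' y = cb' (g • y))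
  {r : X → Y} (hr : Function.Surjective r) (hrG : ∀ (g : G) x, r (g • x) = g • r x)
  (hrcb : ∀ x, r (cb x) = cb' (r x))

include hrG hrcb in
theorem flip_surj {x y : X} (h : Flip G cb x y) : Flip G cb' (r x) (r y) := by
  obtain ⟨g, hg⟩ := h
  refine ⟨g, ?_⟩
  rw [← hrG, ← hrG, ← hrcb, ← hrcb]
  rcases hg with ⟨e1, e2⟩ | ⟨e1, e2⟩ | ⟨e1, e2⟩
  · exact Or.inl ⟨by rw [e1], by rw [e2]⟩
  · exact Or.inr (Or.inl ⟨by rw [e1], by rw [e2]⟩)
  · exact Or.inr (Or.inr ⟨by rw [e1], by rw [e2]⟩)

include hcb hne hG hcb' hne' hG' hr hrG hrcb in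
theorem link_surj {x y : X} (h : Link G cb' (r x) (r y)) : Link G cb x y := by
  have hnf : ∀ a : Y, ¬ Flip G cb' a (cb' a) := by
    rintro y ⟨g, ⟨h1, h2⟩ | ⟨h1, h2⟩ | ⟨h1, h2⟩⟩
    · rw [hG', h1, hcb'] at h2
      exact hne' y h2
    · rw [hG', h1, hcb'] at h2
      exact hne' y h2.symm
    · rw [hG', h1, hcb'] at h2
      exact hne' y h2.symm
  have key : ∀ a b : Y, Link G cb' a b → ∀ x y : X, r x = a → r y = b → Link G cb x y := by
    intro a b h
    unfold Link at h
    induction h with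
    | rel a b hab =>
      intro x y hx hy
      subst hx hy
      exact Relation.EqvGen.rel _ _ fun h => hab (flip_surj hrG hrcb h)
    | refl a =>
      intro x y hx hy
      have h1 : Link G cb x (cb x) := link_cb hcb hne hG x
      have h2 : Link G cb y (cb x) := by
        refine Relation.EqvGen.rel _ _ fun h => ?_
        have h3 := flip_surj hrG hrcb h
        rw [hrcb, hx, hy] at h3
        exact hnf a h3
      exact link_trans h1 (link_symm h2)
    | symm a b h ih =>
      intro x y hx hy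
      exact link_symm (ih y x hy hx)
    | trans a b c h1 h2 ih1 ih2 =>
      intro x y hx hy
      obtain ⟨z, hz⟩ := hr b
      exact link_trans (ih1 x z hx hz) (ih2 z y hz hy)
  exact key _ _ h _ _ rfl rfl

include hcb hne hG hcb' hne' hG' hr hrG hrcb in
/-- The cardinality of the class downstairs divides the one of the class upstairs. -/
theorem card_dvd {x₀ : X} (htr : ∀ z, Link G cb x₀ z → ∃ g : G, g • x₀ = z) :
    Nat.card {c : Y // Link G cb' (r x₀) c} ∣ Nat.card {z : X // Link G cb x₀ z} := by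
  classical
  have hup : ∀ {x y : X}, Link G cb' (r x) (r y) → Link G cb x y :=
    fun h => link_surj hcb hne hG hcb' hne' hG' hr hrG hrcb h
  -- the preimage of the class downstairs
  have h1 : Nat.card {z : X // Link G cb' (r x₀) (r z)} =
      Nat.card {c : Y // Link G cb' (r x₀) c} * Nat.card {z : X // r z = r x₀} := by
    refine card_of_fibers (fun z => ⟨r z.1, z.2⟩) ?_
    rintro ⟨c, hc⟩
    obtain ⟨z, rfl⟩ := hr c
    obtain ⟨g, rfl⟩ := htr z (hup hc)
    refine ⟨⟨fun w => ⟨g⁻¹ • w.1.1, ?_⟩, fun w => ⟨⟨g • w.1, ?_⟩, ?_⟩, ?_, ?_⟩⟩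
    · have h2 : r w.1.1 = r (g • x₀) := congrArg Subtype.val w.2
      rw [hrG, h2, hrG, inv_smul_smul]
    · rw [hrG, w.2, ← hrG]
      exact hc
    · refine Subtype.ext ?_
      change r (g • w.1) = r (g • x₀)
      rw [hrG, w.2, ← hrG]
    · intro w
      refine Subtype.ext (Subtype.ext ?_)
      exact smul_inv_smul g _
    · intro w
      refine Subtype.ext ?_
      exact inv_smul_smul g _
  let s : Setoid Y := ⟨Link G cb', ⟨link_refl, link_symm, link_trans⟩⟩
  let f : {z : X // Link G cb x₀ z} → Quotient s := fun z => Quotient.mk s (r z.1)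
  have h2 : Nat.card {z : X // Link G cb x₀ z} = Nat.card (Set.range f) *
      Nat.card {z : X // Link G cb' (r x₀) (r z)} := by
    refine card_of_fibers (fun z => (⟨f z, z, rfl⟩ : Set.range f)) ?_
    rintro ⟨_, z, rfl⟩
    obtain ⟨g, hg⟩ := htr z.1 z.2
    have hfib : ∀ w : {z : X // Link G cb x₀ z}, ((⟨f w, w, rfl⟩ : Set.range f) =
        ⟨f z, z, rfl⟩) ↔ Link G cb' (r z.1) (r w.1) := by
      intro w
      constructor
      · intro h
        have h3 : f w = f z := congrArg Subtype.val h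
        exact link_symm (Quotient.exact h3)
      · intro h
        have h3 : f w = f z := Quotient.sound (link_symm h)
        exact Subtype.ext h3
    refine ⟨⟨fun w => ⟨g⁻¹ • w.1.1, ?_⟩, fun w => ⟨⟨g • w.1, ?_⟩, ?_⟩, ?_, ?_⟩⟩
    · have h3 := (hfib w.1).1 w.2
      have h4 := link_smul hG' g⁻¹ h3
      rwa [← hrG, ← hrG, ← hg, inv_smul_smul] at h4
    · have h3 := link_smul hG g (hup w.2)
      rw [hg] at h3
      exact link_trans z.2 h3
    · rw [hfib]
      have h3 := link_smul hG' g w.2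
      rwa [← hrG, ← hrG, hg] at h3
    · intro w
      refine Subtype.ext (Subtype.ext ?_)
      exact smul_inv_smul g _
    · intro w
      refine Subtype.ext ?_
      exact inv_smul_smul g _
  rw [h2, h1]
  exact ⟨Nat.card (Set.range f) * Nat.card {z : X // r z = r x₀}, by ring⟩

end surj

end Pool.Agent.TH127.SC
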