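import Mathlib
import Pool.Agent.TH127.SC.Down

/-!
# Images of good classes are good
-/

set_option linter.unusedSectionVars false
set_option linter.unusedVariables false

namespace Pool.Agent.TH127.SC

open Pool.Agent.W527

variable {G X Y : Type*} [Group G] [MulAction G X] [MulAction G Y] [Finite X] {cb : X → X}
  {cb' : Y → Y} (hcb : ∀ y, cb (cb y) = y) (hne : ∀ y, cb y ≠ y)
  (hG : ∀ (g : G) (y : X), g • cb y = cb (g • y))
  (hcb' : ∀ y, cb' (cb' y) = y) (hne' : ∀ y, cb' y ≠ y)
  (hG' : ∀ (g : G) (y : Y), g • cb' y = cb' (g • y))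
  {r : X → Y} (hr : Function.Surjective r) (hrG : ∀ (g : G) x, r (g • x) = g • r x)
  (hrcb : ∀ x, r (cb x) = cb' (r x))

include hcb hne hG in
theorem even_class (x₀ : X) : Even (Nat.card {z : X // Link G cb x₀ z}) := by
  refine even_card (cb := fun z : {z : X // Link G cb x₀ z} =>
    (⟨cb z.1, link_trans z.2 (link_cb hcb hne hG _)⟩ : {z : X // Link G cb x₀ z})) ?_ ?_
  · intro y
    exact Subtype.ext (hcb y.1)
  · intro y h
    exact hne y.1 (congrArg Subtype.val h)

theorem or_cb {cb : X → X} (hcb : ∀ y, cb (cb y) = y) {x y z : X} (h : x = y ∨ x = cb y)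
    (h' : x = z ∨ x = cb z) : y = z ∨ y = cb z := by
  rcases h with rfl | h
  · exact h'
  · rcases h' with rfl | h'
    · right
      rw [h, hcb]
    · left
      rw [← hcb y, ← h, h', hcb]

include hcb hne hG hcb' hne' hG' hr hrG hrcb in
/-- The image of a good class is good. -/
theorem goodClass_surj {x₀ : X} (h : GoodClass G cb x₀) : GoodClass G cb' (r x₀) := by
  classical
  have : Finite Y := Finite.of_surjective r hr
  obtain ⟨htr, b, hcard, hb⟩ := h
  have hup : ∀ {x y : X}, Link G cb' (r x) (r y) → Link G cb x y :=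
    fun h => link_surj hcb hne hG hcb' hne' hG' hr hrG hrcb h
  have htr' : ∀ c, Link G cb' (r x₀) c → ∃ g : G, g • r x₀ = c := by
    intro c hc
    obtain ⟨z, rfl⟩ := hr c
    obtain ⟨g, rfl⟩ := htr z (hup hc)
    exact ⟨g, (hrG g x₀).symm⟩
  refine ⟨htr', ?_⟩
  have hdvd := card_dvd hcb hne hG hcb' hne' hG' hr hrG hrcb htr
  obtain ⟨k, hk⟩ := even_class hcb' hne' hG' (r x₀)
  have hk' : Nat.card {z : Y // Link G cb' (r x₀) z} = 2 * k := by omega
  have hkb : k ∣ b := by
    rw [hcard, hk'] at hdvd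
    exact (Nat.mul_dvd_mul_iff_left two_pos).1 hdvd
  have hk0 : k ≠ 0 := by
    intro h0
    rw [h0, mul_zero] at hk'
    have h1 := (Nat.card_eq_zero.1 hk').resolve_right (fun h => h.not_finite inferInstance)
    exact h1.elim ⟨r x₀, link_refl _⟩
  by_cases hk1 : k = 1
  · exact ⟨k, hk', Or.inl hk1⟩
  rcases hb with hb | hb | ⟨hpair, hb⟩
  · subst hb
    exact absurd (Nat.dvd_one.1 hkb) hk1
  · refine ⟨k, hk', Or.inr (Or.inl ?_)⟩
    rcases (Nat.dvd_prime hb).1 hkb with h | h
    · exact absurd h hk1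
    · rwa [h]
  · -- another pair downstairs
    obtain ⟨y, hy, hy1, hy2⟩ : ∃ y : X, Link G cb' (r x₀) (r y) ∧ r y ≠ r x₀ ∧
        r y ≠ cb' (r x₀) := by
      by_contra hcon
      push Not at hcon
      have h1 : ∀ c : {z : Y // Link G cb' (r x₀) z}, c = ⟨r x₀, link_refl _⟩ ∨
          c = ⟨cb' (r x₀), link_cb hcb' hne' hG' _⟩ := by
        rintro ⟨c, hc⟩
        obtain ⟨z, rfl⟩ := hr c
        by_cases h : r z = r x₀
        · exact Or.inl (Subtype.ext h)
        · exact Or.inr (Subtype.ext (hcon z hc h))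
      have := Fintype.ofFinite {z : Y // Link G cb' (r x₀) z}
      have h2 : (Finset.univ : Finset {z : Y // Link G cb' (r x₀) z}) ⊆
          {⟨r x₀, link_refl _⟩, ⟨cb' (r x₀), link_cb hcb' hne' hG' _⟩} := by
        intro c _
        rw [Finset.mem_insert, Finset.mem_singleton]
        exact h1 c
      have h3 := (Finset.card_le_card h2).trans Finset.card_le_two
      rw [Finset.card_univ, ← Nat.card_eq_fintype_card, hk'] at h3
      omega
    have hcbx : ∀ z, r (cb z) ≠ r z := fun z h => hne' (r z) (by rw [← hrcb, h])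
    have hyx : Link G cb x₀ y := hup hy
    have hy1' : y ≠ x₀ := fun h => hy1 (by rw [h])
    have hy2' : y ≠ cb x₀ := fun h => hy2 (by rw [h, hrcb])
    have hor : ∀ {z w : X}, (z = w ∨ z = cb w) → (r z = r w ∨ r z = cb' (r w)) := by
      rintro z w (rfl | rfl)
      · exact Or.inl rfl
      · exact Or.inr (hrcb w)
    have hinj : ∀ z w : X, Link G cb x₀ z → Link G cb x₀ w → r z = r w → z = w := by
      intro z w hz hw hzw
      by_contra hne1
      have hne2 : w ≠ cb z := by
        intro h
        rw [h] at hzw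
        exact hcbx z hzw.symm
      obtain ⟨g, ⟨h1, h2⟩ | ⟨h1, h2⟩⟩ := hpair z w x₀ y hz hw (link_refl _) hyx
        (Ne.symm hne1) hne2 hy1' hy2'
      · have e : r (g • z) = r (g • w) := by rw [hrG, hrG, hzw]
        have h3 := hor h1
        have h4 := hor h2
        rw [e] at h3
        rcases or_cb hcb' h4 h3 with h | h
        · exact hy1 h
        · exact hy2 h
      · have e : r (g • z) = r (g • w) := by rw [hrG, hrG, hzw]
        have h3 := hor h1
        have h4 := hor h2
        rw [e] at h3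
        rcases or_cb hcb' h3 h4 with h | h
        · exact hy1 h
        · exact hy2 h
    have hlor : ∀ {c d : Y}, (c = d ∨ c = cb' d) → Link G cb' c d := by
      rintro c d (rfl | rfl)
      · exact link_refl _
      · exact link_symm (link_cb hcb' hne' hG' _)
    have hall : ∀ z : X, Link G cb x₀ z → Link G cb' (r x₀) (r z) := by
      intro z hz
      by_cases hz1 : z = x₀
      · rw [hz1]
        exact link_refl _
      by_cases hz2 : z = cb x₀
      · rw [hz2, hrcb]
        exact link_cb hcb' hne' hG' _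
      obtain ⟨g, ⟨h1, h2⟩ | ⟨h1, h2⟩⟩ := hpair x₀ y x₀ z (link_refl _) hyx (link_refl _) hz
        hy1' hy2' hz1 hz2
      · have h3 := link_smul hG' g hy
        rw [← hrG, ← hrG] at h3
        exact link_trans (link_trans (link_symm (hlor (hor h1))) h3) (hlor (hor h2))
      · have h3 := link_smul hG' g hy
        rw [← hrG, ← hrG] at h3
        exact link_symm (link_trans (link_trans (link_symm (hlor (hor h1))) h3) (hlor (hor h2)))
    have hcardC : Nat.card {z : Y // Link G cb' (r x₀) z} = 2 * b := by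
      rw [← hcard]
      symm
      refine Nat.card_congr (Equiv.ofBijective (fun z => ⟨r z.1, hall z.1 z.2⟩) ⟨?_, ?_⟩)
      · intro z w h
        exact Subtype.ext (hinj z.1 w.1 z.2 w.2 (congrArg Subtype.val h))
      · rintro ⟨c, hc⟩
        obtain ⟨z, rfl⟩ := hr c
        exact ⟨⟨z, hup hc⟩, rfl⟩
    refine ⟨b, hcardC, Or.inr (Or.inr ⟨?_, ?_⟩)⟩
    · intro c d c' d' hc hd hc' hd' n1 n2 n3 n4
      obtain ⟨z, rfl⟩ := hr c
      obtain ⟨w, rfl⟩ := hr d
      obtain ⟨z', rfl⟩ := hr c'
      obtain ⟨w', rfl⟩ := hr d'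
      obtain ⟨g, ⟨h1, h2⟩ | ⟨h1, h2⟩⟩ := hpair z w z' w' (hup hc) (hup hd) (hup hc') (hup hd')
        (fun h => n1 (by rw [h])) (fun h => n2 (by rw [h, hrcb]))
        (fun h => n3 (by rw [h])) (fun h => n4 (by rw [h, hrcb]))
      · refine ⟨g, Or.inl ⟨?_, ?_⟩⟩
        · rw [← hrG]; exact hor h1
        · rw [← hrG]; exact hor h2
      · refine ⟨g, Or.inr ⟨?_, ?_⟩⟩
        · rw [← hrG]; exact hor h1
        · rw [← hrG]; exact hor h2
    · rcases hb with hb | hb | hb
      · exact Or.inl hb
      · exact Or.inr (Or.inl hb)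
      · refine Or.inr (Or.inr ?_)
        intro x z hx hz n1 n2
        choose x' hx' using fun i => hr (x i)
        choose z' hz' using fun i => hr (z i)
        obtain ⟨g, π, hg⟩ := hb x' z' (fun i => hup (by rw [hx']; exact hx i))
          (fun i => hup (by rw [hz']; exact hz i))
          (fun i k hik => ⟨fun h => (n1 i k hik).1 (by rw [← hx', ← hx', h]),
            fun h => (n1 i k hik).2 (by rw [← hx', ← hx', h, hrcb])⟩)
          (fun i k hik => ⟨fun h => (n2 i k hik).1 (by rw [← hz', ← hz', h]),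
            fun h => (n2 i k hik).2 (by rw [← hz', ← hz', h, hrcb])⟩)
        refine ⟨g, π, fun i => ?_⟩
        rw [← hx', ← hz', ← hrG]
        exact hor (hg i)

end Pool.Agent.TH127.SC
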