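import Mathlib
import Pool.Agent.TH127.SC.Down2
import Pool.Agent.TH127.SC.Criterion

/-!
# Families of subfields; one field with few prime factors in the degree
-/

set_option linter.unusedSectionVars false
set_option linter.unusedVariables false

namespace Pool.Agent.TH127.SC

open NumberField Module Pool.Agent.W527 Pool.Agent.H204R3.CM Pool.Agent.H977R3.WN

noncomputable section

section basic

variable {J : Type} {F : J → Type} [∀ j, Field (F j)]

theorem bar_bar (x : Embs F) : bar (bar x) = x := by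
  obtain ⟨i, φ⟩ := x
  change (⟨i, ComplexEmbedding.conjugate (ComplexEmbedding.conjugate φ)⟩ : Σ j, (F j →+* ℂ)) =
    ⟨i, φ⟩
  congr 1
  ext x
  simp [ComplexEmbedding.conjugate]

instance [Finite J] [∀ j, NumberField (F j)] : Finite (Embs F) :=
  inferInstanceAs (Finite (Σ j, (F j →+* ℂ)))

end basic

variable {I : Type} [Fintype I] {K : I → Type} [∀ i, Field (K i)] [∀ i, NumberField (K i)]
  [∀ i, IsCMField (K i)]

theorem complex_conj_apply {E : Type} [Field E] [NumberField E] [IsCMField E] (φ : E →+* ℂ)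
    (x : E) : starRingEnd ℂ (φ x) = φ (IsCMField.complexConj E x) :=
  (IsCMField.complexEmbedding_complexConj E φ x).symm

theorem aut_conj {E : Type} [Field E] [NumberField E] [IsCMField E] (φ : E →+* ℂ)
    (g : ℂ ≃+* ℂ) (x : E) : g (starRingEnd ℂ (φ x)) = starRingEnd ℂ (g (φ x)) := by
  rw [complex_conj_apply]
  exact (complex_conj_apply ((g : ℂ →+* ℂ).comp φ) x).symm

theorem exists_ext {E : Type} [Field E] [NumberField E] (F : IntermediateField ℚ E)
    (χ : F →+* ℂ) : ∃ φ : E →+* ℂ, φ.comp (algebraMap F E) = χ := by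
  let _ : Algebra F ℂ := χ.toAlgebra
  let e : E →ₐ[F] ℂ := IsAlgClosed.lift
  exact ⟨(e : E →+* ℂ), RingHom.ext fun x => e.commutes x⟩

/-- If two automorphisms have the same effect on conjugates: all classes under the action. -/
theorem bar_ne_of_nonReal (T : ∀ i, IntermediateField ℚ (K i)) (S : Finset I)
    (hT : ∀ i ∈ S, ¬ IsTotallyReal (T i)) (x : Embs (fun i : S => T i)) : bar x ≠ x := by
  obtain ⟨i, χ⟩ := x
  intro h
  have h1 : ComplexEmbedding.conjugate χ = χ := eq_of_heq (Sigma.mk.inj h).2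
  obtain ⟨y, hy, hne⟩ := (nonReal_iff (T i)).2 (hT i i.2)
  obtain ⟨φ, hφ⟩ := exists_ext (T i) χ
  apply hne
  apply φ.injective
  rw [← complex_conj_apply]
  have h2 := RingHom.congr_fun h1 ⟨y, hy⟩
  have h3 : φ y = χ ⟨y, hy⟩ := RingHom.congr_fun hφ ⟨y, hy⟩
  rw [h3]
  exact h2

theorem bar_ne_top (x : Embs K) : bar x ≠ x := by
  obtain ⟨i, χ⟩ := x
  intro h
  have h1 : ComplexEmbedding.conjugate χ = χ := eq_of_heq (Sigma.mk.inj h).2
  obtain ⟨y, hne⟩ : ∃ y : K i, IsCMField.complexConj (K i) y ≠ y := by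
    by_contra hcon
    push Not at hcon
    exact IsCMField.complexConj_ne_one (K i) (AlgEquiv.ext hcon)
  apply hne
  apply χ.injective
  rw [← complex_conj_apply]
  exact RingHom.congr_fun h1 y

theorem smul_bar {J : Type} {F : J → Type} [∀ j, Field (F j)] [∀ j, NumberField (F j)]
    [∀ j, IsCMField (F j)] (g : ℂ ≃+* ℂ) (y : Embs F) : g • bar y = bar (g • y) := by
  obtain ⟨i, φ⟩ := y
  have h1 : (g : ℂ →+* ℂ).comp (ComplexEmbedding.conjugate φ) =
      ComplexEmbedding.conjugate ((g : ℂ →+* ℂ).comp φ) :=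
    RingHom.ext fun x => aut_conj φ g x
  exact congrArg (fun χ => (⟨i, χ⟩ : Σ i, (F i →+* ℂ))) h1

theorem smul_bar_sub (T : ∀ i, IntermediateField ℚ (K i)) (S : Finset I) (g : ℂ ≃+* ℂ)
    (y : Embs (fun i : S => T i)) : g • bar y = bar (g • y) := by
  obtain ⟨i, χ⟩ := y
  have h1 : (g : ℂ →+* ℂ).comp (ComplexEmbedding.conjugate χ) =
      ComplexEmbedding.conjugate ((g : ℂ →+* ℂ).comp χ) := by
    obtain ⟨φ, rfl⟩ := exists_ext (T i) χ
    exact RingHom.ext fun x => aut_conj φ g x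
  exact congrArg (fun χ => (⟨i, χ⟩ : Σ i : S, (T i →+* ℂ))) h1

/-- Good classes of embeddings of the fields `K i` give good families of CM subfields. -/
theorem good_family (T : ∀ i, IntermediateField ℚ (K i)) (S : Finset I)
    (hT : ∀ i ∈ S, ¬ IsTotallyReal (T i)) (i : I) (hi : i ∈ S) (φ : K i →+* ℂ)
    (h : Good (⟨i, φ⟩ : Embs K)) :
    Good (⟨⟨i, hi⟩, φ.comp (algebraMap (T i) (K i))⟩ : Embs (fun i : S => T i)) := by
  let x : Embs (fun i : S => K i) := ⟨⟨i, hi⟩, φ⟩
  have h1 : Good x := by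
    refine goodClass_inj (G := ℂ ≃+* ℂ) (X := Embs K) (X' := Embs (fun i : S => K i))
      (cb := bar) (cb' := bar) (ι := fun x => (⟨x.1.1, x.2⟩ : Σ i, (K i →+* ℂ))) ?_ ?_ ?_ h
    · rintro ⟨⟨i, hi⟩, φ⟩ ⟨⟨i', hi'⟩, φ'⟩ hh
      obtain ⟨h1, h2⟩ := Sigma.mk.inj hh
      change i = i' at h1
      subst h1
      have h3 : φ = φ' := eq_of_heq h2
      rw [h3]
    · rintro g ⟨⟨i, hi⟩, φ⟩
      rfl
    · rintro ⟨⟨i, hi⟩, φ⟩
      rfl
  refine goodClass_surj (G := ℂ ≃+* ℂ) (X := Embs (fun i : S => K i))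
    (Y := Embs (fun i : S => T i)) (cb := bar) (cb' := bar)
    (r := fun x => (⟨x.1, x.2.comp (algebraMap (T x.1) (K x.1))⟩ : Σ i : S, (T i →+* ℂ)))
    bar_bar bar_ne_top ?_ bar_bar (bar_ne_of_nonReal T S hT) ?_ ?_ ?_ ?_ h1
  · intro g y
    exact smul_bar g y
  · intro g y
    exact smul_bar_sub T S g y
  · rintro ⟨i, χ⟩
    obtain ⟨φ, hφ⟩ := exists_ext (T i) χ
    refine ⟨⟨i, φ⟩, ?_⟩
    change (⟨i, φ.comp (algebraMap (T i) (K i))⟩ : Σ i : S, (T i →+* ℂ)) = ⟨i, χ⟩
    rw [hφ]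
  · rintro g ⟨i, φ⟩
    rfl
  · rintro ⟨i, φ⟩
    rfl

section transitive

variable {G X : Type*} [Group G] [MulAction G X] [Finite X] {cb : X → X}
  (hcb : ∀ y, cb (cb y) = y) (hne : ∀ y, cb y ≠ y)
  (hG : ∀ (g : G) (y : X), g • cb y = cb (g • y))

include hcb hne hG in
theorem class_dvd (htr : ∀ x y : X, ∃ g : G, g • x = y) (x₀ : X) :
    Nat.card {z : X // Link G cb x₀ z} ∣ Nat.card X := by
  let s : Setoid X := ⟨Link G cb, ⟨link_refl, link_symm, link_trans⟩⟩
  have h2 : Nat.card X = Nat.card (Quotient s) * Nat.card {z : X // Link G cb x₀ z} := by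
    refine card_of_fibers (fun z => (Quotient.mk s z)) ?_
    intro q
    obtain ⟨y, rfl⟩ := Quotient.exists_rep q
    obtain ⟨g, hg⟩ := htr x₀ y
    have hfib : ∀ w : X, ((Quotient.mk s w) = Quotient.mk s y) ↔ Link G cb y w := by
      intro w
      constructor
      · intro h
        exact link_symm (Quotient.exact h)
      · intro h
        exact Quotient.sound (link_symm h)
    refine ⟨⟨fun w => ⟨g⁻¹ • w.1, ?_⟩, fun w => ⟨g • w.1, ?_⟩, ?_, ?_⟩⟩
    · have h3 := (hfib w.1).1 w.2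
      have h4 := link_smul hG g⁻¹ h3
      have h5 : g⁻¹ • y = x₀ := by rw [inv_smul_eq_iff, hg]
      rwa [h5] at h4
    · have h3 := link_smul hG g w.2
      rw [hg] at h3
      exact (hfib _).2 h3
    · intro w
      refine Subtype.ext ?_
      exact smul_inv_smul g _
    · intro w
      refine Subtype.ext ?_
      exact inv_smul_smul g _
  rw [h2]
  exact Dvd.intro_left _ rfl

include hcb hne hG in
theorem goodClass_of_degree (htr : ∀ x y : X, ∃ g : G, g • x = y) {n : ℕ}
    (hcard : Nat.card X = 2 * n) (hn : n = 1 ∨ n.Prime ∨ ∃ p q : ℕ, p.Prime ∧ q.Prime ∧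
      n = p * q ∧ ∃ x y : X, ¬ Link G cb x y) (x₀ : X) :
    GoodClass G cb x₀ ∧ OddClass G cb x₀ := by
  have htr' : ∀ z, Link G cb x₀ z → ∃ g : G, g • x₀ = z := fun z _ => htr x₀ z
  have hdvd := class_dvd hcb hne hG htr x₀
  obtain ⟨k, hk⟩ := even_class hcb hne hG x₀
  have hk' : Nat.card {z : X // Link G cb x₀ z} = 2 * k := by omega
  have hkn : k ∣ n := by
    rw [hcard, hk'] at hdvd
    exact (Nat.mul_dvd_mul_iff_left two_pos).1 hdvd
  have key : k = 1 ∨ k.Prime := by
    rcases hn with hn | hn | ⟨p, q, hp, hq, hn, x, y, hxy⟩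
    · subst hn
      exact Or.inl (Nat.dvd_one.1 hkn)
    · rcases (Nat.dvd_prime hn).1 hkn with h | h
      · exact Or.inl h
      · right
        rwa [h]
    · subst hn
      have hlt : k ≠ p * q := by
        intro h
        subst h
        have hall : ∀ z, Link G cb x₀ z := by
          have := Fintype.ofFinite X
          classical
          have h1 : (Finset.univ.filter fun z => Link G cb x₀ z) = (Finset.univ : Finset X) := by
            apply Finset.eq_of_subset_of_card_le (Finset.filter_subset _ _)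
            rw [← Fintype.card_subtype, ← Nat.card_eq_fintype_card, hk', Finset.card_univ,
              ← Nat.card_eq_fintype_card, hcard]
          intro z
          have h2 := Finset.mem_univ z
          rw [← h1, Finset.mem_filter] at h2
          exact h2.2
        exact hxy (link_trans (link_symm (hall x)) (hall y))
      obtain ⟨a, b, ha, hb, rfl⟩ := Nat.dvd_mul.1 hkn
      rcases (Nat.dvd_prime hp).1 ha with h | h <;> rcases (Nat.dvd_prime hq).1 hb with h' | h'
      · left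
        rw [h, h']
      · right
        rw [h, h', one_mul]
        exact hq
      · right
        rw [h, h', mul_one]
        exact hp
      · exact absurd (by rw [h, h']) hlt
  constructor
  · refine ⟨htr', k, hk', ?_⟩
    rcases key with h | h
    · exact Or.inl h
    · exact Or.inr (Or.inl h)
  · refine ⟨htr', k, hk', ?_⟩
    rcases key with h | h
    · exact Or.inl h
    · exact Or.inr (Or.inl h)

end transitive

section single

variable {E : Type} [Field E] [NumberField E] [IsCMField E]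

theorem embs_transitive (x y : Embs (fun _ : Unit => E)) : ∃ g : ℂ ≃+* ℂ, g • x = y := by
  obtain ⟨_, φ⟩ := x
  obtain ⟨_, φ'⟩ := y
  obtain ⟨L, _, _, j, h⟩ := exists_galois (fun _ : Unit => E)
  obtain ⟨ψ, rfl⟩ := h () φ
  obtain ⟨ψ', rfl⟩ := h () φ'
  obtain ⟨g, hg⟩ := MulAction.exists_smul_eq (L ≃ₐ[ℚ] L) ψ ψ'
  obtain ⟨τ, hτ⟩ := exists_lift' j g
  refine ⟨τ, ?_⟩
  have h1 : (τ : ℂ →+* ℂ).comp (j.comp ψ) = j.comp ψ' := by rw [lifts_comp j hτ, hg]
  exact congrArg (fun χ => (⟨(), χ⟩ : Σ _ : Unit, (E →+* ℂ))) h1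

theorem card_embs : Nat.card (Embs (fun _ : Unit => E)) = finrank ℚ E := by
  have h1 : Nat.card (Embs (fun _ : Unit => E)) = Nat.card (E →+* ℂ) :=
    Nat.card_congr (Equiv.uniqueSigma (fun _ : Unit => (E →+* ℂ)))
  rw [h1, Nat.card_eq_fintype_card]
  exact Embeddings.card E ℂ

/-- The degree of `E` is twice one, a prime number, or a product of two prime numbers, and then the
embeddings of `E` do not form one class. -/
def SmallDegree (E : Type) [Field E] [NumberField E] : Prop :=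
  ∃ n : ℕ, finrank ℚ E = 2 * n ∧ (n = 1 ∨ n.Prime ∨ ∃ p q : ℕ, p.Prime ∧ q.Prime ∧ n = p * q ∧
    ∃ x y : Embs (fun _ : Unit => E), ¬ SameClass x y)

theorem good_of_smallDegree (h : SmallDegree E) (x : Embs (fun _ : Unit => E)) :
    Good x ∧ OddClass (ℂ ≃+* ℂ) bar x := by
  obtain ⟨n, h1, h2⟩ := h
  exact goodClass_of_degree (G := ℂ ≃+* ℂ) (X := Embs (fun _ : Unit => E)) bar_bar bar_ne_top
    smul_bar embs_transitive (by rw [card_embs, h1]) h2 x

/-- If some automorphism fixes some embeddings and conjugates all others, and there are such, then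
the embeddings do not form one class. -/
theorem not_sameClass_of_aut (h : ∃ τ : ℂ ≃+* ℂ, (∀ φ : E →+* ℂ, (τ : ℂ →+* ℂ).comp φ = φ ∨
    (τ : ℂ →+* ℂ).comp φ = ComplexEmbedding.conjugate φ) ∧
    (∃ φ : E →+* ℂ, (τ : ℂ →+* ℂ).comp φ = φ) ∧
    ∃ φ : E →+* ℂ, (τ : ℂ →+* ℂ).comp φ ≠ φ) :
    ∃ x y : Embs (fun _ : Unit => E), ¬ SameClass x y := by
  obtain ⟨τ, hτ, ⟨φ₁, h1⟩, ⟨φ₂, h2⟩⟩ := h
  refine ⟨⟨(), φ₁⟩, ⟨(), φ₂⟩, fun hs => ?_⟩
  have key : ∀ x y : Embs (fun _ : Unit => E), SameClass x y → (τ • x = x ↔ τ • y = y) := by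
    intro x y h
    unfold SameClass Link at h
    induction h with
    | rel a b hab =>
      have hor : ∀ x : Embs (fun _ : Unit => E), τ • x = x ∨ τ • x = bar x := by
        rintro ⟨_, φ⟩
        rcases hτ φ with h | h
        · exact Or.inl (congrArg (fun χ => (⟨(), χ⟩ : Σ _ : Unit, (E →+* ℂ))) h)
        · exact Or.inr (congrArg (fun χ => (⟨(), χ⟩ : Σ _ : Unit, (E →+* ℂ))) h)
      rcases hor a with ha | ha <;> rcases hor b with hb | hb
      · exact ⟨fun _ => hb, fun _ => ha⟩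
      · exact absurd ⟨τ, Or.inl ⟨ha, hb⟩⟩ hab
      · exact absurd ⟨τ, Or.inr (Or.inl ⟨ha, hb⟩)⟩ hab
      · rw [ha, hb]
        exact ⟨fun h => absurd h (bar_ne_top a), fun h => absurd h (bar_ne_top b)⟩
    | refl a => exact Iff.rfl
    | symm a b _ ih => exact ih.symm
    | trans a b c _ _ ih1 ih2 => exact ih1.trans ih2
  have h3 := (key _ _ hs).1 (congrArg (fun χ => (⟨(), χ⟩ : Σ _ : Unit, (E →+* ℂ))) h1)
  exact h2 (eq_of_heq (Sigma.mk.inj h3).2)

end single

end

end Pool.Agent.TH127.SC
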