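import Mathlib
import Pool.Agent.TH127.SC.Single
import Pool.Agent.TH127.SC.OddWeil

/-!
# Tate classes over finite fields for families with good classes
-/

set_option linter.unusedSectionVars false
set_option linter.unusedVariables false

namespace Pool.Agent.TH127.SC

open NumberField Module Pool.Agent.W527 Pool.Agent.H204R3.CM Pool.Agent.H977R3.WN
  Pool.Agent.H485R3.Exact

noncomputable section

variable {p : ℕ} [hp : Fact p.Prime] {I : Type} [Fintype I] {K : I → Type} [∀ i, Field (K i)]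
  [∀ i, NumberField (K i)] [∀ i, IsCMField (K i)] {m : I → ℕ} {π : ∀ i, K i}

/-- `π i` is a Weil number of weight `m i` with respect to `p` that generates `K i`. -/
def IsWeilFamily (p : ℕ) (m : I → ℕ) (π : ∀ i, K i) : Prop :=
  ∀ i, IsIntegral ℤ (π i) ∧ IntermediateField.adjoin ℚ {π i} = ⊤ ∧
    ∀ φ : K i →+* ℂ, ‖φ (π i)‖ ^ 2 = (p : ℝ) ^ m i

/-- The deviations of the slopes of `π i` from the middle slope are odd multiples of a number. -/
def HasOddSlopes (p : ℕ) [Fact p.Prime] (m : I → ℕ) (π : ∀ i, K i) : Prop :=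
  ∀ i, ∃ c : ℝ, c ≠ 0 ∧ ∀ τ : K i →+* PadicAlgCl p, ∃ n : ℤ, Odd n ∧
    2 * (- Real.logb p ‖τ (π i)‖) - m i = c * n

/-- Every positive power of `π i` generates `K i`. -/
def PowersGenerate (π : ∀ i, K i) : Prop :=
  ∀ i, ∀ s : ℕ, 0 < s → IntermediateField.adjoin ℚ {π i ^ s} = ⊤

theorem mildOrGood_of_all (h : ∀ x : Embs K, Good x) : MildOrGood p m π := by
  intro T S hS hT
  obtain ⟨i, hi⟩ := hS
  exact Or.inr ⟨_, good_family T S hT i hi (Classical.arbitrary _) (h _)⟩

/-- The first part. -/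
theorem criterion_of_good (hW : IsWeilFamily p m π) (h : ∀ x : Embs K, Good x) :
    Norm.PairingsGenerate p m π ↔ Norm.Separated p m π :=
  good_criterion (fun i => (hW i).1) (fun i => (hW i).2.1) (fun i => (hW i).2.2)
    (mildOrGood_of_all h)

theorem exists_odd_slopes (hW : IsWeilFamily p m π) (ho : HasOddSlopes p m π) (i : I) :
    ∃ (κ : ℚ) (u : (K i →+* PadicAlgCl p) → ℤ), 0 < κ ∧ (∀ τ, Odd (u τ)) ∧
      ∀ τ : K i →+* PadicAlgCl p, 2 * (- Real.logb p ‖τ (π i)‖) - m i = (κ : ℝ) * u τ := by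
  classical
  obtain ⟨c, hc, h⟩ := ho i
  choose n hn h using h
  obtain ⟨κ, u, hκ, hu⟩ := exists_slopes_pos (p := p) (ne_zero_of_weil (hW i).2.2) (m i)
  -- `c` is rational
  obtain ⟨τ₀⟩ : Nonempty (K i →+* PadicAlgCl p) := by
    have : Nonempty (K i →ₐ[ℚ] PadicAlgCl p) := ⟨IsAlgClosed.lift⟩
    obtain ⟨e⟩ := this
    exact ⟨(e : K i →+* PadicAlgCl p)⟩
  have hn0 : (n τ₀ : ℝ) ≠ 0 := by
    have h1 := hn τ₀
    intro h0
    have h2 : n τ₀ = 0 := by exact_mod_cast h0
    rw [h2] at h1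
    exact absurd h1 (by decide)
  obtain ⟨c', hc'⟩ : ∃ c' : ℚ, (c' : ℝ) = c := by
    refine ⟨κ * u τ₀ / n τ₀, ?_⟩
    have h1 := h τ₀
    rw [hu τ₀] at h1
    push_cast
    field_simp
    linarith
  subst hc'
  have hc'' : c' ≠ 0 := by exact_mod_cast hc
  rcases lt_or_gt_of_ne hc'' with h1 | h1
  · refine ⟨-c', fun τ => - n τ, neg_pos.2 h1, fun τ => (hn τ).neg, fun τ => ?_⟩
    rw [h τ]
    push_cast
    ring
  · exact ⟨c', n, h1, hn, h⟩

theorem generate_of_odd (hW : IsWeilFamily p m π) (h : ∀ x : Embs K, OddClass (ℂ ≃+* ℂ) bar x)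
    (ho : HasOddSlopes p m π) (hpow : PowersGenerate π) : Norm.PairingsGenerate p m π := by
  classical
  intro Ω _ _ _ V _ _ _ F hF n t s hs c hc φ hφ
  choose κ u hκ hodd hu using fun i => exists_odd_slopes hW ho i
  refine tate_of_free_finite p K m π (fun i => (hW i).2.1) (fun i => (hW i).2.2) κ
    (fun i => (hκ i).ne') u hu ?_ V F hF t s hs c hc φ hφ
  intro L _ _ j h' jp
  exact free_of_odd h (fun i => (hW i).1) (fun i => (hW i).2.2) hpow hκ hu hodd j h' jp

theorem powers_of_generate (hW : IsWeilFamily p m π) (hgen : Norm.PairingsGenerate p m π) :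
    PowersGenerate π := by
  intro i s hs
  have hsep := separated_of_generate (fun i => (hW i).2.1) (fun i => (hW i).2.2) hgen
  by_contra hcon
  -- two different embeddings of `K i` that agree on the powers
  set F := IntermediateField.adjoin ℚ {π i ^ s} with hF
  have hlt : 1 < finrank F (K i) := by
    have h1 : finrank F (K i) ≠ 1 := by
      intro h1
      exact hcon (IntermediateField.finrank_eq_one_iff_eq_top.1 h1)
    have h2 : 0 < finrank F (K i) := finrank_pos
    omega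
  let _ : Algebra F ℂ := ((Classical.arbitrary (K i →+* ℂ)).comp (algebraMap F (K i))).toAlgebra
  have hcard : Fintype.card (K i →ₐ[F] ℂ) = finrank F (K i) := AlgHom.card F (K i) ℂ
  rw [← hcard] at hlt
  obtain ⟨φ, φ', hne⟩ := Fintype.one_lt_card_iff.1 hlt
  have hx : φ (π i ^ s) = φ' (π i ^ s) := by
    let y : F := ⟨π i ^ s, IntermediateField.mem_adjoin_simple_self ℚ _⟩
    have e1 : φ (algebraMap F (K i) y) = algebraMap F ℂ y := φ.commutes y
    have e2 : φ' (algebraMap F (K i) y) = algebraMap F ℂ y := φ'.commutes y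
    exact e1.trans e2.symm
  have htopCM : ¬ IsTotallyReal (⊤ : IntermediateField ℚ (K i)) := by
    rw [← nonReal_iff]
    by_contra hcon
    unfold NonReal at hcon
    push Not at hcon
    exact IsCMField.complexConj_ne_one (K i) (AlgEquiv.ext fun x => hcon x trivial)
  let ψ : Short.Emb (⊤ : IntermediateField ℚ (K i)) := (φ : K i →+* ℂ).comp
    (algebraMap (⊤ : IntermediateField ℚ (K i)) (K i))
  let ψ' : Short.Emb (⊤ : IntermediateField ℚ (K i)) := (φ' : K i →+* ℂ).comp
    (algebraMap (⊤ : IntermediateField ℚ (K i)) (K i))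
  have h1 := hsep (fun i => ⊤) i i ψ ψ' s s htopCM htopCM hs hs (by
    have h2 : ((Norm.unitNorm p (m i) ⊤ (π i) : (⊤ : IntermediateField ℚ (K i))) : K i) =
      π i ^ 2 / (p : K i) ^ m i := unitNorm_top (π i) ⊤ rfl
    change φ ((Norm.unitNorm p (m i) ⊤ (π i) : (⊤ : IntermediateField ℚ (K i))) : K i) ^ s =
      φ' ((Norm.unitNorm p (m i) ⊤ (π i) : (⊤ : IntermediateField ℚ (K i))) : K i) ^ s
    rw [h2, ← map_pow, ← map_pow, div_pow, ← pow_mul, mul_comm 2 s, pow_mul, map_div₀, map_div₀,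
      map_pow, map_pow φ', hx]
    simp)
  apply hne
  have h2 : ψ = ψ' := eq_of_heq (Sigma.mk.inj h1).2
  refine AlgHom.ext fun x => ?_
  exact RingHom.congr_fun h2 (⟨x, trivial⟩ : (⊤ : IntermediateField ℚ (K i)))

/-- The second part. -/
theorem odd_iff (hW : IsWeilFamily p m π) (h : ∀ x : Embs K, OddClass (ℂ ≃+* ℂ) bar x)
    (ho : HasOddSlopes p m π) : Norm.PairingsGenerate p m π ↔ PowersGenerate π :=
  ⟨powers_of_generate hW, generate_of_odd hW h ho⟩

/-- The fields have no proper CM subfields and are pairwise non-isomorphic. -/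
def IsRigid (K : I → Type) [∀ i, Field (K i)] [∀ i, NumberField (K i)] : Prop :=
  (∀ i, ∀ F : IntermediateField ℚ (K i), F ≠ ⊤ → IsTotallyReal F) ∧
    ∀ i i', i ≠ i' → IsEmpty (K i ≃+* K i')

/-- No `π i ^ 2 / p ^ m i` is a root of unity. -/
def NotSupersingular (p : ℕ) (m : I → ℕ) (π : ∀ i, K i) : Prop :=
  ∀ i, ∀ s : ℕ, 0 < s → (π i ^ 2 / (p : K i) ^ m i) ^ s ≠ 1

/-- The third part. -/
theorem rigid_iff (hW : IsWeilFamily p m π) (h : ∀ x : Embs K, Good x) (hK : IsRigid K) :
    Norm.PairingsGenerate p m π ↔ NotSupersingular p m π := by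
  rw [criterion_of_good hW h]
  constructor
  · intro hsep i s hs hone
    have htopCM : ¬ IsTotallyReal (⊤ : IntermediateField ℚ (K i)) := by
      rw [← nonReal_iff]
      by_contra hcon
      unfold NonReal at hcon
      push Not at hcon
      exact IsCMField.complexConj_ne_one (K i) (AlgEquiv.ext fun x => hcon x trivial)
    let φ : K i →+* ℂ := Classical.arbitrary _
    let ψ : Short.Emb (⊤ : IntermediateField ℚ (K i)) := φ.comp
      (algebraMap (⊤ : IntermediateField ℚ (K i)) (K i))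
    let ψ' : Short.Emb (⊤ : IntermediateField ℚ (K i)) := (ComplexEmbedding.conjugate φ).comp
      (algebraMap (⊤ : IntermediateField ℚ (K i)) (K i))
    have h2 : ((Norm.unitNorm p (m i) ⊤ (π i) : (⊤ : IntermediateField ℚ (K i))) : K i) =
      π i ^ 2 / (p : K i) ^ m i := unitNorm_top (π i) ⊤ rfl
    have h3 : ∀ φ : K i →+* ℂ,
        φ ((Norm.unitNorm p (m i) ⊤ (π i) : (⊤ : IntermediateField ℚ (K i))) : K i) ^ s = 1 := by
      intro φ
      rw [h2, ← map_pow, hone, map_one]
    have h1 := hsep (fun i => ⊤) i i ψ ψ' s s htopCM htopCM hs hs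
      ((h3 φ).trans (h3 (ComplexEmbedding.conjugate φ)).symm)
    have h4 : ψ = ψ' := eq_of_heq (Sigma.mk.inj h1).2
    apply bar_ne_top (⟨i, φ⟩ : Embs K)
    have h5 : ComplexEmbedding.conjugate φ = φ := by
      refine RingHom.ext fun x => ?_
      exact (RingHom.congr_fun h4 (⟨x, trivial⟩ : (⊤ : IntermediateField ℚ (K i)))).symm
    exact congrArg (fun χ => (⟨i, χ⟩ : Σ i, (K i →+* ℂ))) h5
  · intro hns
    exact norm_separated_of_real (fun i => (hW i).1) (fun i => (hW i).2.2) hK.1 hK.2 hns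

end

end Pool.Agent.TH127.SC
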