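import Mathlib
import Pool.Agent.TH127.SC.Odd2
import Pool.Agent.TH127.SC.TateMain

/-!
# Classes with a prime power of pairs; mixed families
-/

set_option linter.unusedSectionVars false
set_option linter.unusedVariables false

namespace Pool.Agent.TH127.SC

open NumberField Module Pool.Agent.W527 Pool.Agent.H204R3.CM Pool.Agent.H977R3.WN
  Pool.Agent.H485R3.Exact

section abstract

/-- The class of `y₀` consists of translates of `y₀` and of `r ^ k` pairs, `r` a prime number, and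
the sums of the function `u` over the half systems of the class are not divisible by `r`. -/
def SumClass (G : Type*) {Y : Type*} [Group G] [MulAction G Y] (cb : Y → Y) (u : Y → ℤ)
    (y₀ : Y) : Prop :=
  (∀ z, Link G cb y₀ z → ∃ g : G, g • y₀ = z) ∧
    ∃ r k : ℕ, r.Prime ∧ Nat.card {z : Y // Link G cb y₀ z} = 2 * r ^ k ∧
      ∀ S : Finset Y, (∀ z ∈ S, Link G cb y₀ z) → (∀ z, Link G cb y₀ z → (z ∈ S ↔ cb z ∉ S)) →
        ¬ (r : ℤ) ∣ ∑ z ∈ S, u z

variable {G Y : Type*} [Group G] [MulAction G Y] {cb : Y → Y} [Fintype Y] [Finite G]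
  (hcb : ∀ y, cb (cb y) = y) (hne : ∀ y, cb y ≠ y)
  (hG : ∀ (g : G) (y : Y), g • cb y = cb (g • y))

open Classical in
include hcb hne hG in
theorem zero_at_sum {W : Y → ℤ} (hW : ∀ y, W (cb y) = -W y)
    {c : Y → ℤ} (hc : ∀ y, c (cb y) = -c y) (hrel : ∀ g : G, ∑ y, c y * W (g • y) = 0) {y₀ : Y}
    (g₀ : G) {u : Y → ℤ} {a b : ℤ} (ha : a ≠ 0)
    (hu : ∀ z, Link G cb y₀ z → a * u z = b * W (g₀ • z)) (hclass : SumClass G cb u y₀) :
    c y₀ = 0 := by
  have := Fintype.ofFinite G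
  obtain ⟨htr, r, k, hr, hcard, hS⟩ := hclass
  have : Fact r.Prime := ⟨hr⟩
  have hcl : ∀ g' : G, ∑ z ∈ Finset.univ.filter (fun z => Link G cb y₀ z),
      c z * W (g' • z) = 0 := fun g' => core_split hG hW hrel y₀ g'
  let _ : MulAction (stab hG y₀) (Cls G cb y₀) := stabAct hG y₀
  let _ : Fintype (stab hG y₀) := Fintype.ofFinite _
  let inv : Cls G cb y₀ → Cls G cb y₀ := fun z => ⟨cb z.1, link_trans z.2 (link_cb hcb hne hG _)⟩
  have hinv : ∀ z, inv (inv z) = z := fun z => Subtype.ext (hcb z.1)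
  have hinvne : ∀ z, inv z ≠ z := fun z h => hne z.1 (congrArg Subtype.val h)
  have hinvG : ∀ (g : stab hG y₀) (z : Cls G cb y₀), g • inv z = inv (g • z) :=
    fun g z => Subtype.ext (hG g z.1)
  have : MulAction.IsPretransitive (stab hG y₀) (Cls G cb y₀) := by
    refine ⟨fun x y => ?_⟩
    obtain ⟨l, hl⟩ := htr x.1 x.2
    obtain ⟨l', hl'⟩ := htr y.1 y.2
    have h1 : (l' * l⁻¹) • x.1 = y.1 := by rw [mul_smul, ← hl, inv_smul_smul, hl']
    refine ⟨⟨l' * l⁻¹, ?_⟩, Subtype.ext h1⟩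
    exact mem_stab_of hG x.2 (by rw [h1]; exact y.2)
  have h5 := Pool.Agent.H925R2.core (G := stab hG y₀) (R := Cls G cb y₀) (inv := inv) hinv hinvne
    hinvG r k (by rw [← Nat.card_eq_fintype_card]; exact hcard) (fun z => u z.1)
    (fun z => c z.1) (fun z => by
      apply mul_left_cancel₀ ha
      change a * u (cb z.1) = a * (- u z.1)
      rw [hu _ (inv z).2, hG, hW]
      linarith [hu _ z.2]) (fun z => hc z.1) (fun Φ hΦ => by
      have h1 := hS (Φ.map ⟨Subtype.val, Subtype.val_injective⟩) (by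
        intro z hz
        obtain ⟨w, _, rfl⟩ := Finset.mem_map.1 hz
        exact w.2) (by
        intro z hz
        have h2 := hΦ ⟨z, hz⟩
        have e1 : ∀ w : Cls G cb y₀, w.1 ∈ Φ.map ⟨Subtype.val, Subtype.val_injective⟩ ↔ w ∈ Φ := by
          intro w
          rw [Finset.mem_map]
          constructor
          · rintro ⟨w', hw', h⟩
            have h3 : w' = w := Subtype.ext h
            rwa [← h3]
          · intro h
            exact ⟨w, h, rfl⟩
        rw [← e1, ← e1] at h2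
        exact h2)
      rw [Finset.sum_map] at h1
      exact h1) (fun h => by
      have h1 := hcl (g₀ * h)
      rw [Finset.sum_subtype (p := fun z => Link G cb y₀ z) _ (fun z => by simp)] at h1
      apply mul_left_cancel₀ ha
      rw [mul_zero, Finset.mul_sum]
      have h2 : ∀ z : Cls G cb y₀, a * (c z.1 * u (h • z : Cls G cb y₀).1) =
          b * (c z.1 * W ((g₀ * h) • z.1)) := by
        intro z
        rw [mul_smul]
        have h3 : a * u (h • z : Cls G cb y₀).1 = b * W (g₀ • (h : G) • z.1) := hu _ (h • z).2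
        calc a * (c z.1 * u (h • z : Cls G cb y₀).1) = c z.1 * (a * u (h • z : Cls G cb y₀).1) := by
              ring
          _ = _ := by rw [h3]; ring
      rw [Finset.sum_congr rfl (fun z _ => h2 z), ← Finset.mul_sum, h1, mul_zero])
      ⟨y₀, link_refl _⟩
  exact h5

end abstract

noncomputable section

variable {p : ℕ} [hp : Fact p.Prime] {I : Type} [Fintype I] {K : I → Type} [∀ i, Field (K i)]
  [∀ i, NumberField (K i)] [∀ i, IsCMField (K i)] {m : I → ℕ} {π : ∀ i, K i}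

/-- The distance of the slope of `π i` from the middle slope (times two) at the embedding `x` of
`K i`; the complex numbers are identified with the algebraic closure of `ℚ_p`. -/
def deviation (p : ℕ) [Fact p.Prime] (m : I → ℕ) (π : ∀ i, K i) (ν : PadicAlgCl p ≃+* ℂ)
    (x : Embs K) : ℝ :=
  2 * (- Real.logb p ‖ν.symm (x.2 (π x.1))‖) - m x.1

/-- The deviations are odd multiples of one number. -/
def OddDeviations (p : ℕ) [Fact p.Prime] (m : I → ℕ) (π : ∀ i, K i) (i : I) : Prop :=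
  ∃ c : ℝ, c ≠ 0 ∧ ∀ τ : K i →+* PadicAlgCl p, ∃ n : ℤ, Odd n ∧
    2 * (- Real.logb p ‖τ (π i)‖) - m i = c * n

/-- The first type of classes. -/
def OddType (p : ℕ) [Fact p.Prime] (m : I → ℕ) (π : ∀ i, K i) (x : Embs K) : Prop :=
  OddDeviations p m π x.1 ∧
    (OddClass (ℂ ≃+* ℂ) bar x ∨ TwoPowerClass (ℂ ≃+* ℂ) bar x)

/-- The second type of classes: for some identification of the complex numbers with the algebraic
closure of `ℚ_p` the deviations on the class are multiples `c * n` of one number, and the sums of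
the integers `n` over the half systems of the class are not divisible by `r`; the number of pairs
is a power of the prime number `r`. -/
def SumType (p : ℕ) [Fact p.Prime] (m : I → ℕ) (π : ∀ i, K i) (x : Embs K) : Prop :=
  ∃ (ν : PadicAlgCl p ≃+* ℂ) (c : ℝ) (n : Embs K → ℤ), c ≠ 0 ∧
    (∀ z, SameClass x z → deviation p m π ν z = c * n z) ∧ SumClass (ℂ ≃+* ℂ) bar n x

theorem exists_odd_at (hweil : ∀ i, ∀ φ : K i →+* ℂ, ‖φ (π i)‖ ^ 2 = (p : ℝ) ^ m i) {i : I}
    (ho : OddDeviations p m π i) :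
    ∃ (κ : ℚ) (u : (K i →+* PadicAlgCl p) → ℤ), 0 < κ ∧ (∀ τ, Odd (u τ)) ∧
      ∀ τ : K i →+* PadicAlgCl p, 2 * (- Real.logb p ‖τ (π i)‖) - m i = (κ : ℝ) * u τ := by
  classical
  obtain ⟨c, hc, h⟩ := ho
  choose n hn h using h
  obtain ⟨κ, u, hκ, hu⟩ := exists_slopes_pos (p := p) (ne_zero_of_weil (hweil i)) (m i)
  obtain ⟨τ₀⟩ : Nonempty (K i →+* PadicAlgCl p) := by
    have : Nonempty (K i →ₐ[ℚ] PadicAlgCl p) := ⟨IsAlgClosed.lift⟩
    obtain ⟨e⟩ := this
    exact ⟨(e : K i →+* PadicAlgCl p)⟩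
  have hn0 : (n τ₀ : ℝ) ≠ 0 := by
    have h1 := hn τ₀
    intro h0
    have h2 : n τ₀ = 0 := by exact_mod_cast h0
    rw [h2] at h1
    exact absurd h1 (by decide)
  obtain ⟨c', hc'⟩ : ∃ c' : ℚ, (c' : ℝ) = c := by
    refine ⟨κ * u τ₀ / n τ₀, ?_⟩
    have h1 := h τ₀
    rw [hu τ₀] at h1
    push_cast
    field_simp
    linarith
  subst hc'
  have hc'' : c' ≠ 0 := by exact_mod_cast hc
  rcases lt_or_gt_of_ne hc'' with h1 | h1
  · refine ⟨-c', fun τ => - n τ, neg_pos.2 h1, fun τ => (hn τ).neg, fun τ => ?_⟩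
    rw [h τ]
    push_cast
    ring
  · exact ⟨c', n, h1, hn, h⟩

theorem exists_slopes_odd (hweil : ∀ i, ∀ φ : K i →+* ℂ, ‖φ (π i)‖ ^ 2 = (p : ℝ) ^ m i) (i : I) :
    ∃ (κ : ℚ) (u : (K i →+* PadicAlgCl p) → ℤ), 0 < κ ∧
      (OddDeviations p m π i → ∀ τ, Odd (u τ)) ∧
      ∀ τ : K i →+* PadicAlgCl p, 2 * (- Real.logb p ‖τ (π i)‖) - m i = (κ : ℝ) * u τ := by
  by_cases ho : OddDeviations p m π i
  · obtain ⟨κ, u, h1, h2, h3⟩ := exists_odd_at hweil ho
    exact ⟨κ, u, h1, fun _ => h2, h3⟩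
  · obtain ⟨κ, u, hκ, hu⟩ := exists_slopes_pos (p := p) (ne_zero_of_weil (hweil i)) (m i)
    exact ⟨κ, u, hκ, fun h => absurd h ho, hu⟩

end

end Pool.Agent.TH127.SC
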