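import Mathlib
import Pool.Agent.TH127.SC.Sum

/-!
# Weil numbers with classes of mixed types
-/

set_option linter.unusedSectionVars false
set_option linter.unusedVariables false

namespace Pool.Agent.TH127.SC

open NumberField Module Pool.Agent.W527 Pool.Agent.H204R3.CM Pool.Agent.H977R3.WN
  Pool.Agent.H485R3.Exact

section abstract

variable {G G' Y Y' : Type*} [Group G] [Group G'] [MulAction G Y] [MulAction G' Y'] {cb : Y → Y}
  {cb' : Y' → Y'} (f : Y ≃ Y') (hcb : ∀ y, f (cb y) = cb' (f y))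
  (h1 : ∀ g : G, ∃ g' : G', ∀ y, f (g • y) = g' • f y)
  (h2 : ∀ g' : G', ∃ g : G, ∀ y, f (g • y) = g' • f y)

include hcb h1 h2 in
theorem trans_transfer {y : Y} (htr : ∀ z, Link G' cb' (f y) z → ∃ g : G', g • f y = z) :
    ∀ z, Link G cb y z → ∃ g : G, g • y = z := by
  intro z hz
  obtain ⟨g', hg'⟩ := htr (f z) ((link_iff f hcb h1 h2 _ _).1 hz)
  obtain ⟨g, hg⟩ := h2 g'
  refine ⟨g, f.injective ?_⟩
  rw [hg, hg']

include hcb h1 h2 in
theorem card_transfer {y : Y} : Nat.card {z // Link G cb y z} =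
    Nat.card {z // Link G' cb' (f y) z} :=
  Nat.card_congr (Equiv.subtypeEquiv f fun z => link_iff f hcb h1 h2 y z)

include hcb h1 h2 in
theorem twoPowerClass_transfer {y : Y} (h : TwoPowerClass G' cb' (f y)) :
    TwoPowerClass G cb y := by
  obtain ⟨htr, ⟨k, hk⟩, g', S', hg', hS1, hS2, hodd⟩ := h
  obtain ⟨g, hg⟩ := h2 g'
  refine ⟨trans_transfer f hcb h1 h2 htr, ⟨k, by rw [card_transfer f hcb h1 h2, hk]⟩, g,
    f ⁻¹' S', ?_, ?_, ?_, ?_⟩
  · rw [link_iff f hcb h1 h2, hg]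
    exact hg'
  · intro z hz
    rw [link_iff f hcb h1 h2]
    exact hS1 _ hz
  · intro z hz
    rw [link_iff f hcb h1 h2] at hz
    have h3 := hS2 _ hz
    rw [← hcb] at h3
    exact h3
  · have h3 : {z | z ∈ f ⁻¹' S' ∧ g • z ∉ f ⁻¹' S'} = f ⁻¹' {z | z ∈ S' ∧ g' • z ∉ S'} := by
      ext z
      simp only [Set.mem_ofPred_eq, Set.mem_preimage, hg]
    rw [h3, Set.ncard_preimage_of_injective_subset_range f.injective
      (by rw [f.surjective.range_eq]; exact Set.subset_univ _)]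
    exact hodd

include hcb h1 h2 in
theorem sumClass_transfer {y : Y} {u : Y' → ℤ} (h : SumClass G' cb' u (f y)) :
    SumClass G cb (fun y => u (f y)) y := by
  obtain ⟨htr, r, k, hr, hk, hS⟩ := h
  refine ⟨trans_transfer f hcb h1 h2 htr, r, k, hr, by rw [card_transfer f hcb h1 h2, hk], ?_⟩
  intro S hS1 hS2
  have h3 := hS (S.map f.toEmbedding) (by
    intro z hz
    obtain ⟨w, hw, rfl⟩ := Finset.mem_map.1 hz
    exact (link_iff f hcb h1 h2 _ _).1 (hS1 w hw)) (by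
    intro z hz
    obtain ⟨w, rfl⟩ := f.surjective z
    rw [← hcb]
    have h4 := hS2 w ((link_iff f hcb h1 h2 _ _).2 hz)
    simp only [Finset.mem_map_equiv, Equiv.symm_apply_apply]
    exact h4)
  rw [Finset.sum_map] at h3
  exact h3

end abstract

noncomputable section

variable {p : ℕ} [hp : Fact p.Prime] {I : Type} [Fintype I] {K : I → Type} [∀ i, Field (K i)]
  [∀ i, NumberField (K i)] [∀ i, IsCMField (K i)] {m : I → ℕ} {π : ∀ i, K i}

theorem eq_of_slopes_at {i : I} (hint : IsIntegral ℤ (π i))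
    (hweil : ∀ φ : K i →+* ℂ, ‖φ (π i)‖ ^ 2 = (p : ℝ) ^ m i)
    (hpow : ∀ s : ℕ, 0 < s → IntermediateField.adjoin ℚ {π i ^ s} = ⊤)
    {κ : ℚ} (hκ : 0 < κ) {u : (K i →+* PadicAlgCl p) → ℤ}
    (hu : ∀ τ : K i →+* PadicAlgCl p,
      2 * (- Real.logb p ‖τ (π i)‖) - m i = (κ : ℝ) * u τ)
    {L : Type} [Field L] [NumberField L] [IsGalois ℚ L] (jp : L →+* PadicAlgCl p)
    (φ φ' : K i →+* L)
    (hh : ∀ g : L ≃ₐ[ℚ] L, u (jp.comp (g • φ)) = u (jp.comp (g • φ'))) : φ = φ' := by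
  exact eq_of_slopes (p := p) (I := Unit) (K := fun _ => K i) (m := fun _ => m i)
    (π := fun _ => π i) (fun _ => hint) (fun _ => hweil) (fun _ => hpow) (κ := fun _ => κ)
    (fun _ => hκ) (u := fun _ => u) (fun _ => hu) jp () φ φ' hh

/-- The relations vanish if all classes are of one of the types. -/
theorem free_of_mixed (hclass : ∀ x : Embs K, OddType p m π x ∨ SumType p m π x)
    (hint : ∀ i, IsIntegral ℤ (π i))
    (hweil : ∀ i, ∀ φ : K i →+* ℂ, ‖φ (π i)‖ ^ 2 = (p : ℝ) ^ m i)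
    (hpow : PowersGenerate π)
    {κ : I → ℚ} (hκ : ∀ i, 0 < κ i) {u : ∀ i, (K i →+* PadicAlgCl p) → ℤ}
    (hodd : ∀ i, OddDeviations p m π i → ∀ τ, Odd (u i τ))
    (hu : ∀ i, ∀ τ : K i →+* PadicAlgCl p,
      2 * (- Real.logb p ‖τ (π i)‖) - m i = (κ i : ℝ) * u i τ)
    {L : Type} [Field L] [NumberField L] [IsGalois ℚ L] (j : L →+* ℂ)
    (h : ∀ i, ∀ ψ : K i →+* ℂ, ∃ φ : K i →+* L, j.comp φ = ψ) (jp : L →+* PadicAlgCl p) :
    Free (F := K) (L := L) (fun i φ => u i (jp.comp φ)) := by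
  classical
  obtain ⟨⟨κc, hκc', hκc''⟩, hne⟩ := conj_data (K := K) j h
  have hanti : ∀ i, ∀ φ : K i →+* L, u i (jp.comp (cbar φ)) = - u i (jp.comp φ) :=
    fun i φ => anti_of_slopes' (hweil i) (hκ i).ne' (hu i) (jp.comp φ)
  intro c hc hrel i₀ φ₀
  let Y : Type := Σ i, (K i →+* L)
  let cb : Y → Y := fun y => ⟨y.1, cbar y.2⟩
  let f : Y ≃ Embs K := embEquiv (F := K) j h
  have hfcb : ∀ y, f (cb y) = bar (f y) := by
    rintro ⟨i, φ⟩
    change (⟨i, j.comp (cbar φ)⟩ : Σ i, (K i →+* ℂ)) = ⟨i, ComplexEmbedding.conjugate (j.comp φ)⟩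
    rw [comp_cbar]
  have hf1 : ∀ g : L ≃ₐ[ℚ] L, ∃ τ : ℂ ≃+* ℂ, ∀ y, f (g • y) = τ • f y := by
    intro g
    obtain ⟨τ, hτ⟩ := exists_lift' j g
    refine ⟨τ, ?_⟩
    rintro ⟨i, φ⟩
    change (⟨i, j.comp (g • φ)⟩ : Σ i, (K i →+* ℂ)) = ⟨i, (τ : ℂ →+* ℂ).comp (j.comp φ)⟩
    rw [lifts_comp j hτ]
  have hf2 : ∀ τ : ℂ ≃+* ℂ, ∃ g : L ≃ₐ[ℚ] L, ∀ y, f (g • y) = τ • f y := by
    intro τ
    obtain ⟨g, hg⟩ := exists_lift j τ
    refine ⟨g, ?_⟩
    rintro ⟨i, φ⟩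
    change (⟨i, j.comp (g • φ)⟩ : Σ i, (K i →+* ℂ)) = ⟨i, (τ : ℂ →+* ℂ).comp (j.comp φ)⟩
    rw [lifts_comp j hg]
  have hcb : ∀ y, cb (cb y) = y := by
    rintro ⟨i, φ⟩
    change (⟨i, cbar (cbar φ)⟩ : Σ i, (K i →+* L)) = ⟨i, φ⟩
    rw [cbar_cbar]
  have hcbne : ∀ y, cb y ≠ y := by
    rintro ⟨i, φ⟩ hh
    exact cbar_ne φ (eq_of_heq (Sigma.mk.inj hh).2)
  have hG : ∀ (g : L ≃ₐ[ℚ] L) (y : Y), g • cb y = cb (g • y) := by
    rintro g ⟨i, φ⟩
    rfl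
  let W : Y → ℤ := fun y => u y.1 (jp.comp y.2)
  have hW : ∀ y, W (cb y) = - W y := by
    rintro ⟨i, φ⟩
    exact hanti i φ
  let c' : Y → ℤ := fun y => c y.1 y.2
  have hc' : ∀ y, c' (cb y) = - c' y := by
    rintro ⟨i, φ⟩
    exact hc i φ
  have hrel' : ∀ g : L ≃ₐ[ℚ] L, ∑ y, c' y * W (g • y) = 0 := by
    intro g
    rw [Fintype.sum_sigma]
    exact hrel g
  change c' ⟨i₀, φ₀⟩ = 0
  rcases hclass (f ⟨i₀, φ₀⟩) with ⟨h1, h2⟩ | ⟨ν, b, n, hb, hn, hs⟩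
  · -- odd slopes
    have hWo : ∀ y, (∃ g : L ≃ₐ[ℚ] L, g • (⟨i₀, φ₀⟩ : Y) = y) → Odd (W y) := by
      rintro _ ⟨g, rfl⟩
      exact hodd i₀ h1 _
    rcases h2 with h2 | h2
    · have h3 := oddClass_transfer f hfcb hf1 hf2 h2
      refine zero_at hcb hcbne hG hW (fun y hy => hWo y (h3.1 y hy)) ?_ hc' hrel' h3
      intro y y' hy hy' hh
      obtain ⟨g, rfl⟩ := h3.1 y hy
      obtain ⟨g', rfl⟩ := h3.1 y' hy'
      exact congrArg (fun ψ => (⟨i₀, ψ⟩ : Σ i, (K i →+* L)))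
        (eq_of_slopes_at (hint i₀) (hweil i₀) (hpow i₀) (hκ i₀) (hu i₀) jp (g • φ₀) (g' • φ₀)
          (fun g => hh g))
    · have h3 := twoPowerClass_transfer f hfcb hf1 hf2 h2
      exact zero_at_two hcb hcbne hG hW (fun y hy => hWo y (h3.1 y hy)) hc' hrel' h3
  · -- prime powers
    have h3 := sumClass_transfer f hfcb hf1 hf2 hs
    let e : L →+* PadicAlgCl p := (ν.symm : ℂ →+* PadicAlgCl p).comp j
    let ealg : L →ₐ[ℚ] PadicAlgCl p := (jp : L →+* PadicAlgCl p).toRatAlgHom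
    obtain ⟨g₀, hg₀⟩ := Pool.Agent.H485R3.exists_gal ealg (e : L →+* PadicAlgCl p).toRatAlgHom
    have hg₀' : ∀ x, ν.symm (j x) = jp (g₀ x) := hg₀
    have hdev : ∀ z : Y, Link (L ≃ₐ[ℚ] L) cb (⟨i₀, φ₀⟩ : Y) z →
        (κ i₀ : ℝ) * W (g₀ • z) = b * n (f z) := by
      intro z hz
      have h4 := hn (f z) ((link_iff f hfcb hf1 hf2 _ _).1 hz)
      obtain ⟨g, rfl⟩ := h3.1 z hz
      rw [← h4]
      have h5 := hu i₀ (jp.comp (g₀ • g • φ₀))
      have h6 : deviation p m π ν (f (g • (⟨i₀, φ₀⟩ : Y))) =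
          2 * (- Real.logb p ‖(jp.comp (g₀ • g • φ₀)) (π i₀)‖) - m i₀ := by
        change 2 * (- Real.logb p ‖ν.symm (j ((g • φ₀) (π i₀)))‖) - m i₀ = _
        rw [hg₀']
        rfl
      rw [h6, h5]
      rfl
    have hκ0 : (κ i₀ : ℝ) ≠ 0 := by exact_mod_cast (hκ i₀).ne'
    -- a point where `n` does not vanish
    obtain ⟨z₁, hz₁, hnz₁⟩ : ∃ z₁ : Y, Link (L ≃ₐ[ℚ] L) cb (⟨i₀, φ₀⟩ : Y) z₁ ∧ n (f z₁) ≠ 0 := by
      by_contra hcon
      push Not at hcon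
      obtain ⟨_, r, k, hr, hk, hS⟩ := h3
      obtain ⟨S₀, hS₀⟩ := Pool.Agent.H925R2.exists_isHalf (R := Cls (L ≃ₐ[ℚ] L) cb (⟨i₀, φ₀⟩ : Y))
        (inv := fun z => ⟨cb z.1, link_trans z.2 (link_cb hcb hcbne hG _)⟩)
        (fun z => Subtype.ext (hcb z.1)) (fun z h => hcbne z.1 (congrArg Subtype.val h))
      apply hS (S₀.map ⟨Subtype.val, Subtype.val_injective⟩)
      · intro z hz
        obtain ⟨w, _, rfl⟩ := Finset.mem_map.1 hz
        exact w.2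
      · intro z hz
        have h2 := hS₀ ⟨z, hz⟩
        have e1 : ∀ w : Cls (L ≃ₐ[ℚ] L) cb (⟨i₀, φ₀⟩ : Y),
            w.1 ∈ S₀.map ⟨Subtype.val, Subtype.val_injective⟩ ↔ w ∈ S₀ := by
          intro w
          rw [Finset.mem_map]
          constructor
          · rintro ⟨w', hw', h⟩
            have h3 : w' = w := Subtype.ext h
            rwa [← h3]
          · intro h
            exact ⟨w, h, rfl⟩
        rw [← e1, ← e1] at h2
        exact h2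
      · rw [Finset.sum_map]
        refine Finset.dvd_sum fun w _ => ?_
        have h5 : n (f w.1) = 0 := hcon w.1 w.2
        change (r : ℤ) ∣ n (f w.1)
        rw [h5]
        exact dvd_zero _
    have h4 := hdev z₁ hz₁
    have ha : W (g₀ • z₁) ≠ 0 := by
      intro h0
      rw [h0] at h4
      have h5 : b * (n (f z₁) : ℝ) ≠ 0 := mul_ne_zero hb (by exact_mod_cast hnz₁)
      exact h5 (by rw [← h4]; simp)
    refine zero_at_sum hcb hcbne hG hW hc' hrel' g₀ (u := fun y => n (f y)) (a := W (g₀ • z₁))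
      (b := n (f z₁)) ha ?_ h3
    intro z hz
    have h5 := hdev z hz
    have h6 : (κ i₀ : ℝ) * ((W (g₀ • z₁) : ℝ) * n (f z)) =
        (κ i₀ : ℝ) * ((n (f z₁) : ℝ) * W (g₀ • z)) := by
      calc (κ i₀ : ℝ) * ((W (g₀ • z₁) : ℝ) * n (f z)) =
          ((κ i₀ : ℝ) * W (g₀ • z₁)) * n (f z) := by ring
        _ = b * n (f z₁) * n (f z) := by rw [h4]
        _ = (b * n (f z)) * n (f z₁) := by ring
        _ = ((κ i₀ : ℝ) * W (g₀ • z)) * n (f z₁) := by rw [h5]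
        _ = _ := by ring
    exact_mod_cast mul_left_cancel₀ hκ0 h6

/-- The theorem on classes of mixed types. -/
theorem mixed_iff (hW : IsWeilFamily p m π)
    (hclass : ∀ x : Embs K, OddType p m π x ∨ SumType p m π x) :
    Norm.PairingsGenerate p m π ↔ PowersGenerate π := by
  classical
  refine ⟨powers_of_generate hW, fun hpow => ?_⟩
  intro Ω _ _ _ V _ _ _ F hF n t s hs c hc φ hφ
  choose κ u hκ hodd hu using fun i => exists_slopes_odd (p := p) (fun i => (hW i).2.2) i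
  refine tate_of_free_finite p K m π (fun i => (hW i).2.1) (fun i => (hW i).2.2) κ
    (fun i => (hκ i).ne') u hu ?_ V F hF t s hs c hc φ hφ
  intro L _ _ j h' jp
  exact free_of_mixed hclass (fun i => (hW i).1) (fun i => (hW i).2.2) hpow hκ hodd hu j h' jp

end

end Pool.Agent.TH127.SC
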