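import Mathlib
import Pool.Agent.TH127.SC.Mixed
import Pool.Agent.H204R3.GP.Hom
import Pool.Agent.H204R3.GP.MT

/-!
# One Frobenius element whose eigenvalues generate CM fields with small classes
-/

set_option linter.unusedSectionVars false
set_option linter.unusedVariables false

namespace Pool.Agent.TH127.SC

open NumberField Module Pool.Agent.W527 Pool.Agent.H204R3.CM Pool.Agent.H977R3.WN
  Pool.Agent.H485R3.Exact Pool.Agent.H204R3.GP Pool.Agent.H204R3.SP IntermediateField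

noncomputable section

/-- The property `Free` is invariant under scaling. -/
theorem free_scale {ι : Type} [Fintype ι] {F : ι → Type} [∀ i, Field (F i)]
    [∀ i, NumberField (F i)] [∀ i, IsCMField (F i)] {L : Type} [Field L] [NumberField L]
    {u u' : ∀ i, (F i →+* L) → ℤ} {a b : ι → ℤ} (ha : ∀ i, a i ≠ 0) (hb : ∀ i, b i ≠ 0)
    (h : ∀ i φ, a i * u i φ = b i * u' i φ) (hf : Free (F := F) (L := L) u') :
    Free (F := F) (L := L) u := by
  classical
  intro c hc hrel i φ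
  let P : ι → ℤ := fun i => ∏ k ∈ Finset.univ.erase i, a k
  have hP : ∀ i, P i * a i = ∏ k, a k := fun i => Finset.prod_erase_mul _ _ (Finset.mem_univ i)
  have hP0 : ∀ i, P i ≠ 0 := fun i => Finset.prod_ne_zero_iff.2 fun k _ => ha k
  have h1 := hf (fun i φ => c i φ * (b i * P i)) (fun i φ => by rw [hc]; ring) (fun σ => by
    have h2 : ∀ i, ∑ φ : (F i →+* L), c i φ * (b i * P i) * u' i (σ • φ) =
        (∏ k, a k) * ∑ φ : (F i →+* L), c i φ * u i (σ • φ) := by
      intro i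
      rw [Finset.mul_sum]
      refine Finset.sum_congr rfl fun φ _ => ?_
      rw [← hP i]
      calc c i φ * (b i * P i) * u' i (σ • φ) = c i φ * P i * (b i * u' i (σ • φ)) := by ring
        _ = c i φ * P i * (a i * u i (σ • φ)) := by rw [h]
        _ = _ := by ring
    rw [Finset.sum_congr rfl (fun i _ => h2 i), ← Finset.mul_sum, hrel, mul_zero]) i φ
  exact (mul_eq_zero.1 h1).resolve_right (mul_ne_zero (hb i) (hP0 i))

/-- All classes are good; and the conjugates of the norms of the `π i` to CM subfields are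
separated, or the fields have no proper CM subfields and are pairwise non-isomorphic, and no
`π i ^ 2 / p ^ a` is a root of unity. -/
def GoodCondition (p : ℕ) (a : ℕ) {ι : Type} {F : ι → Type} [∀ i, Field (F i)]
    [∀ i, NumberField (F i)] (π : ∀ i, F i) : Prop :=
  (∀ x : Embs F, Good x) ∧ (Norm.Separated p (fun _ => a) π ∨
    (IsRigid F ∧ NotSupersingular p (fun _ => a) π))

/-- All classes are of the odd type or of the sum type, and all powers of the `π i` generate their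
fields. -/
def SlopeCondition (p : ℕ) [Fact p.Prime] (a : ℕ) {ι : Type} {F : ι → Type} [∀ i, Field (F i)]
    [∀ i, NumberField (F i)] (π : ∀ i, F i) : Prop :=
  (∀ x : Embs F, OddType p (fun _ => a) π x ∨ SumType p (fun _ => a) π x) ∧ PowersGenerate π

/-- One of the two conditions. -/
def ClassCondition (p : ℕ) [Fact p.Prime] (a : ℕ) {ι : Type} {F : ι → Type} [∀ i, Field (F i)]
    [∀ i, NumberField (F i)] (π : ∀ i, F i) : Prop :=
  GoodCondition p a π ∨ SlopeCondition p a π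

section tate

variable {k : Type} [Field k] [CharZero k] {V : Type} [AddCommGroup V]
    [Module k V] [FiniteDimensional k V]
    {p : ℕ} [Fact p.Prime] {a : ℕ} (ha : 0 < a)
    {ι : Type} [Fintype ι] {F : ι → Type} [∀ i, Field (F i)] [∀ i, NumberField (F i)]
    [∀ i, IsCMField (F i)] {π : ∀ i, F i} (hint : ∀ i, IsIntegral ℤ (π i))
    (hgen : ∀ i, ℚ⟮π i⟯ = ⊤)
    (hw : ∀ i, π i * IsCMField.complexConj (F i) (π i) = (p : F i) ^ a)
    (hcl : ClassCondition p a π)

include hw in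
theorem weil_of_mul (i : ι) (φ : F i →+* ℂ) : ‖φ (π i)‖ ^ 2 = (p : ℝ) ^ a := by
  have h1 := congrArg (fun x => ‖φ x‖) (hw i)
  simp only [map_mul, map_pow, map_natCast, norm_mul, norm_pow, Complex.norm_natCast] at h1
  rw [IsCMField.complexEmbedding_complexConj, Complex.norm_conj] at h1
  rw [sq]
  exact h1

include ha hint hgen hw hcl in
theorem tate_of_classes {Γ : Type} [Group Γ] (ρ : Representation k Γ V) (χ : Γ →* k)
    (ω : V →ₗ[k] V →ₗ[k] k) (halt : ∀ v, ω v v = 0) (hnd : ∀ u, (∀ v, ω v u = 0) → u = 0)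
    (hωρ : ∀ s u v, ω (ρ s u) (ρ s v) = χ s * ω u v)
    (hss : FiniteIndexSemisimple ρ)
    (γ : Γ) (hχ : χ γ = (p : k) ^ a)
    (hγ : (ρ γ).charpoly = ∏ i, (minpoly ℚ (π i)).map (algebraMap ℚ k))
    {m : ℕ} (φ : MultilinearMap k (fun _ : Fin m × Fin 2 => V) k) (hφ : IsTate ρ χ m φ) :
    φ ∈ Submodule.span k (PT ρ χ m) := by
  have hss' : ∀ Δ : Subgroup Γ, Δ.FiniteIndex → SemiUnder (ρ '' (Δ : Set Γ)) := by
    intro Δ hΔ U hU
    obtain ⟨U', h1, h2⟩ := hss Δ hΔ U (fun s hs u hu => hU _ ⟨s, hs, rfl⟩ u hu)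
    refine ⟨U', ?_, h2⟩
    rintro _ ⟨s, hs, rfl⟩ u hu
    exact h1 s hs u hu
  have hweil : ∀ i, ∀ φ : F i →+* ℂ, ‖φ (π i)‖ ^ 2 = (p : ℝ) ^ a := weil_of_mul hw
  have hπ : ∀ i, π i ≠ 0 := fun i => ne_zero_of_weil (p := p) (m := a) (hweil i)
  choose D u hD hslopes hu using fun i => exists_hasSlopes (p := p) ha (hπ i)
  refine tate_of_free ha hgen hw (N := fun i => a * D i) (fun i => Nat.mul_pos ha (hD i)) (u := u)
    hslopes ?_ ρ χ ω halt hnd hωρ hss' γ hχ hγ φ hφ
  intro L _ _ j h jp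
  rcases hcl with ⟨h1, h2⟩ | ⟨h1, h2⟩
  · have h2 : Norm.Separated p (fun _ => a) π := by
      rcases h2 with h2 | ⟨h2, h3⟩
      · exact h2
      · exact norm_separated_of_real hint hweil h2.1 h2.2 h3
    exact free_of_mildOrGood (m := fun _ => a) hint hweil (mildOrGood_of_all h1) h2
      (κ := fun i => ((D i : ℚ))⁻¹) (fun i => by
        have := hD i
        positivity) hu j h jp
  · choose κ u' hκ hodd hu' using fun i =>
      exists_slopes_odd (p := p) (m := fun _ : ι => a) (π := π) hweil i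
    refine free_scale (a := fun i => ((κ i).den : ℤ)) (b := fun i => (D i : ℤ) * (κ i).num)
      (u' := fun i φ => u' i (jp.comp φ)) ?_ ?_ ?_
      (free_of_mixed (m := fun _ => a) h1 hint hweil h2 hκ hodd hu' j h jp)
    · intro i
      exact_mod_cast (κ i).den_pos.ne'
    · intro i
      have e1 := hD i
      have e2 := Rat.num_pos.2 (hκ i)
      positivity
    · intro i φ
      have e1 := hu i (jp.comp φ)
      have e2 := hu' i (jp.comp φ)
      rw [e1] at e2
      have e3 : (κ i : ℝ) = (κ i).num / (κ i).den := by rw [Rat.cast_def]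
      have e4 : ((κ i).den : ℝ) ≠ 0 := by exact_mod_cast (κ i).den_pos.ne'
      have e5 : ((D i : ℕ) : ℝ) ≠ 0 := by exact_mod_cast (hD i).ne'
      rw [e3] at e2
      push_cast at e2
      have e6 : ((κ i).den : ℝ) * (u i (jp.comp φ) : ℝ) =
          ((D i : ℝ) * (κ i).num) * (u' i (jp.comp φ) : ℝ) := by
        field_simp at e2
        linarith
      exact_mod_cast e6

include ha hint hgen hw hcl in
theorem tateGenerated_of_classes {Γ : Type} [Group Γ] (ρ : Representation k Γ V) (χ : Γ →* k)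
    (ω : V →ₗ[k] V →ₗ[k] k) (halt : ∀ v, ω v v = 0) (hnd : ∀ u, (∀ v, ω v u = 0) → u = 0)
    (hωρ : ∀ s u v, ω (ρ s u) (ρ s v) = χ s * ω u v)
    (hss : FiniteIndexSemisimple ρ)
    (γ : Γ) (hχ : χ γ = (p : k) ^ a)
    (hγ : (ρ γ).charpoly = ∏ i, (minpoly ℚ (π i)).map (algebraMap ℚ k)) :
    TateGeneratedInDegreeTwo ρ χ := by
  intro n m f hf
  obtain ⟨Δ, hΔ, hf⟩ := hf
  have h1 := altG_of_tate_mem ρ χ (n := n) (m := m) (fun φ hφ => tate_of_classes ha hint hgen hw
    hcl ρ χ ω halt hnd hωρ hss γ hχ hγ φ hφ) f Δ hΔ hf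
  refine Submodule.span_mono ?_ h1
  rintro g ⟨B, hB, hg⟩
  refine ⟨B, fun l => ?_, hg⟩
  obtain ⟨Δ', hΔ', h2⟩ := hB l
  refine ⟨Δ', hΔ', fun s hs v => ?_⟩
  rw [pow_one]
  exact h2 s hs v

include ha hint hgen hw hcl in
theorem homs_of_classes {Γ : Type} [Group Γ] (ρ : Representation k Γ V) (χ : Γ →* k)
    (ω : V →ₗ[k] V →ₗ[k] k) (halt : ∀ v, ω v v = 0) (hnd : ∀ u, (∀ v, ω v u = 0) → u = 0)
    (hωρ : ∀ s u v, ω (ρ s u) (ρ s v) = χ s * ω u v)
    (hss : FiniteIndexSemisimple ρ)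
    (γ : Γ) (hχ : χ γ = (p : k) ^ a)
    (hγ : (ρ γ).charpoly = ∏ i, (minpoly ℚ (π i)).map (algebraMap ℚ k)) :
    HomsGeneratedInDegreeTwo ρ χ ω :=
  homs_generated ρ χ ω halt hnd hωρ fun m φ hφ => tate_of_classes ha hint hgen hw
    hcl ρ χ ω halt hnd hωρ hss γ hχ hγ φ hφ

include ha hint hgen hw hcl in
theorem mumfordTate_of_classes {W T : Type} [AddCommGroup W] [Module ℚ W] [AddCommGroup T]
    [Module ℂ T] (per : W →+ T) (ω₀ : W →ₗ[ℚ] W →ₗ[ℚ] ℚ) (hω₀ : IsHodgeBilinear per ω₀)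
    (comp : W →+ V) {Γ : Type} [Group Γ] (ρ : Representation k Γ V) (χ : Γ →* k)
    (ω : V →ₗ[k] V →ₗ[k] k) (halt : ∀ v, ω v v = 0) (hnd : ∀ u, (∀ v, ω v u = 0) → u = 0)
    (hωρ : ∀ s u v, ω (ρ s u) (ρ s v) = χ s * ω u v)
    (hωω : ∀ x y, ω (comp x) (comp y) = ((ω₀ x y : ℚ) : k))
    (hss : FiniteIndexSemisimple ρ) (hF : FaltingsEnd per comp ρ)
    (γ : Γ) (hχ : χ γ = (p : k) ^ a)
    (hγ : (ρ γ).charpoly = ∏ i, (minpoly ℚ (π i)).map (algebraMap ℚ k)) :
    MumfordTateStrong per comp ρ χ := by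
  have hnd' : ∀ u, (∀ v, ω u v = 0) → u = 0 := by
    intro u hu
    apply hnd
    intro v
    have h1 := halt (u + v)
    simp only [map_add, LinearMap.add_apply, halt, hu, zero_add, add_zero] at h1
    exact h1
  exact mumfordTate_of per comp ρ χ ω hnd' hωρ ω₀ hω₀ hωω hF fun m φ hφ => tate_of_classes ha hint
    hgen hw hcl ρ χ ω halt hnd hωρ hss γ hχ hγ φ hφ

end tate

end

end Pool.Agent.TH127.SC

namespace Pool.Agent.TH127.SC

open NumberField Module Pool.Agent.W527

/-- The first condition for a single field of small degree without proper CM subfields. -/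
theorem goodCondition_of_smallDegree {p a : ℕ} {E : Type} [Field E] [NumberField E] [IsCMField E]
    (hE : SmallDegree E) (hT : ∀ T : IntermediateField ℚ E, T ≠ ⊤ → IsTotallyReal T) (π : E)
    (hπ : ∀ s : ℕ, 0 < s → (π ^ 2 / (p : E) ^ a) ^ s ≠ 1) :
    GoodCondition p a (fun _ : Unit => π) :=
  ⟨fun x => (good_of_smallDegree hE x).1, Or.inr ⟨⟨fun _ => hT, fun _ _ h => absurd rfl h⟩,
    fun _ => hπ⟩⟩

/-- The second condition for a single field of small degree. -/
theorem slopeCondition_of_smallDegree {p a : ℕ} [Fact p.Prime] {E : Type} [Field E]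
    [NumberField E] [IsCMField E] (hE : SmallDegree E) (π : E)
    (hodd : OddDeviations (K := fun _ : Unit => E) p (fun _ => a) (fun _ => π) ())
    (hπ : ∀ s : ℕ, 0 < s → IntermediateField.adjoin ℚ {π ^ s} = ⊤) :
    SlopeCondition p a (fun _ : Unit => π) :=
  ⟨fun x => Or.inl ⟨hodd, Or.inl (good_of_smallDegree hE x).2⟩, fun _ => hπ⟩

end Pool.Agent.TH127.SC
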