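import Mathlib
import Pool.Agent.TH127.SC.Single

/-!
# Many flips of the embeddings of a CM field
-/

set_option linter.unusedSectionVars false
set_option linter.unusedVariables false

namespace Pool.Agent.TH127.SC

open NumberField Module Pool.Agent.W527 Pool.Agent.H204R3.CM Pool.Agent.H977R3.WN

section abstract

variable {G X : Type*} [Group G] [MulAction G X] [Finite X] {cb : X → X}
  (hcb : ∀ y, cb (cb y) = y) (hne : ∀ y, cb y ≠ y)
  (hG : ∀ (g : G) (y : X), g • cb y = cb (g • y))

/-- The sets of points that are conjugated by an element of the group that fixes all other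
points. -/
def flipsOf (G : Type*) {X : Type*} [Group G] [MulAction G X] (cb : X → X) : Set (Set X) :=
  {D | ∃ g : G, ∀ x, (x ∈ D → g • x = cb x) ∧ (x ∉ D → g • x = x)}

/-- Linked points belong to the same sets. -/
theorem mem_flips_iff {D : Set X} (hD : D ∈ flipsOf G cb) {x z : X} (h : Link G cb x z) :
    x ∈ D ↔ z ∈ D := by
  obtain ⟨g, hg⟩ := hD
  unfold Link at h
  induction h with
  | rel a b hab =>
    by_cases ha : a ∈ D <;> by_cases hb : b ∈ D
    · exact ⟨fun _ => hb, fun _ => ha⟩
    · exact absurd ⟨g, Or.inr (Or.inl ⟨(hg a).1 ha, (hg b).2 hb⟩)⟩ hab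
    · exact absurd ⟨g, Or.inl ⟨(hg a).2 ha, (hg b).1 hb⟩⟩ hab
    · exact ⟨fun h => absurd h ha, fun h => absurd h hb⟩
  | refl a => exact Iff.rfl
  | symm a b _ ih => exact ih.symm
  | trans a b c _ _ ih1 ih2 => exact ih1.trans ih2

include hcb hne hG in
theorem flips_pow (htr : ∀ x y : X, ∃ g : G, g • x = y) (x₀ : X) {n k : ℕ}
    (hcard : Nat.card X = 2 * n) (hk : Nat.card {z : X // Link G cb x₀ z} = 2 * k) :
    (flipsOf G cb).ncard ^ k ≤ 2 ^ n := by
  classical
  let s : Setoid X := ⟨Link G cb, ⟨link_refl, link_symm, link_trans⟩⟩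
  have h2 : Nat.card X = Nat.card (Quotient s) * Nat.card {z : X // Link G cb x₀ z} := by
    refine card_of_fibers (fun z => (Quotient.mk s z)) ?_
    intro q
    obtain ⟨y, rfl⟩ := Quotient.exists_rep q
    obtain ⟨g, hg⟩ := htr x₀ y
    have hfib : ∀ w : X, ((Quotient.mk s w) = Quotient.mk s y) ↔ Link G cb y w := by
      intro w
      constructor
      · intro h
        exact link_symm (Quotient.exact h)
      · intro h
        exact Quotient.sound (link_symm h)
    refine ⟨⟨fun w => ⟨g⁻¹ • w.1, ?_⟩, fun w => ⟨g • w.1, ?_⟩, ?_, ?_⟩⟩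
    · have h3 := (hfib w.1).1 w.2
      have h4 := link_smul hG g⁻¹ h3
      have h5 : g⁻¹ • y = x₀ := by rw [inv_smul_eq_iff, hg]
      rwa [h5] at h4
    · have h3 := link_smul hG g w.2
      rw [hg] at h3
      exact (hfib _).2 h3
    · intro w
      refine Subtype.ext ?_
      exact smul_inv_smul g _
    · intro w
      refine Subtype.ext ?_
      exact inv_smul_smul g _
  rw [hcard, hk] at h2
  have hn : n = Nat.card (Quotient s) * k := by
    have h3 : 2 * n = 2 * (Nat.card (Quotient s) * k) := by rw [h2]; ring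
    omega
  have hle : (flipsOf G cb).ncard ≤ 2 ^ Nat.card (Quotient s) := by
    have h3 : (flipsOf G cb).ncard ≤ (Set.univ : Set (Set (Quotient s))).ncard := by
      refine Set.ncard_le_ncard_of_injOn (fun D => {q | ∃ x ∈ D, Quotient.mk s x = q})
        (fun D _ => Set.mem_univ _) ?_ (Set.toFinite _)
      intro D hD D' hD' h
      have key : ∀ D₁ ∈ flipsOf G cb, ∀ D₂ ∈ flipsOf G cb,
          ({q | ∃ x ∈ D₁, Quotient.mk s x = q} : Set (Quotient s)) =
            {q | ∃ x ∈ D₂, Quotient.mk s x = q} → D₁ ⊆ D₂ := by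
        intro D₁ h1 D₂ h2 h x hx
        have h4 : Quotient.mk s x ∈ ({q | ∃ x ∈ D₂, Quotient.mk s x = q} : Set (Quotient s)) := by
          rw [← h]
          exact ⟨x, hx, rfl⟩
        obtain ⟨y, hy, hyx⟩ := h4
        exact (mem_flips_iff h2 (Quotient.exact hyx)).1 hy
      exact Set.Subset.antisymm (key D hD D' hD' h) (key D' hD' D hD h.symm)
    rw [Set.ncard_univ] at h3
    have : Fintype (Quotient s) := Fintype.ofFinite _
    rwa [Nat.card_eq_fintype_card, Fintype.card_set, ← Nat.card_eq_fintype_card] at h3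
  calc (flipsOf G cb).ncard ^ k ≤ (2 ^ Nat.card (Quotient s)) ^ k := Nat.pow_le_pow_left hle k
    _ = 2 ^ n := by rw [← pow_mul, ← hn]

theorem one_le_flips : 1 ≤ (flipsOf G cb).ncard := by
  classical
  have h1 : (∅ : Set X) ∈ flipsOf G cb := ⟨1, fun x => ⟨fun h => absurd h (Set.notMem_empty x),
    fun _ => one_smul G x⟩⟩
  have h2 : (flipsOf G cb).Nonempty := ⟨_, h1⟩
  exact (Set.ncard_pos (Set.toFinite _)).2 h2

include hcb hne hG in
/-- The number of pairs in a class if there are many flips. -/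
theorem pairs_lt (htr : ∀ x y : X, ∃ g : G, g • x = y) (x₀ : X) {n k r : ℕ}
    (hcard : Nat.card X = 2 * n) (hk : Nat.card {z : X // Link G cb x₀ z} = 2 * k)
    (hflip : 2 ^ n < (flipsOf G cb).ncard ^ r) : k < r := by
  by_contra hcon
  push Not at hcon
  have h1 := flips_pow hcb hne hG htr x₀ hcard hk
  have h2 : (flipsOf G cb).ncard ^ r ≤ (flipsOf G cb).ncard ^ k :=
    Nat.pow_le_pow_right one_le_flips hcon
  omega

end abstract

noncomputable section

/-- The sets `D` of embeddings of `E` into the complex numbers such that some automorphism of the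
complex numbers conjugates all elements of `D` and fixes all other embeddings. (The number of these
sets is the degree of the Galois closure of the CM field `E` over its maximal real subfield that is
a Galois closure of the maximal real subfield of `E`.) -/
def flipSets (E : Type) [Field E] : Set (Set (E →+* ℂ)) :=
  {D | ∃ τ : ℂ ≃+* ℂ, ∀ φ : E →+* ℂ,
    (φ ∈ D → (τ : ℂ →+* ℂ).comp φ = ComplexEmbedding.conjugate φ) ∧
      (φ ∉ D → (τ : ℂ →+* ℂ).comp φ = φ)}

/-- The degree of `E` is `2 n`, and the `r`-th power of the number of elements of `flipSets E` is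
larger than `2 ^ n`. -/
def ManyFlips (r : ℕ) (E : Type) [Field E] [NumberField E] : Prop :=
  ∃ n : ℕ, finrank ℚ E = 2 * n ∧ 2 ^ n < (flipSets E).ncard ^ r

variable {E : Type} [Field E] [NumberField E] [IsCMField E]

theorem ncard_flips : (flipsOf (ℂ ≃+* ℂ) (X := Embs (fun _ : Unit => E)) bar).ncard =
    (flipSets E).ncard := by
  classical
  let f : (E →+* ℂ) ≃ Embs (fun _ : Unit => E) := (Equiv.uniqueSigma (fun _ : Unit => (E →+* ℂ))).symm
  have h1 : flipsOf (ℂ ≃+* ℂ) (X := Embs (fun _ : Unit => E)) bar =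
      (fun D : Set (E →+* ℂ) => f '' D) '' flipSets E := by
    ext D
    constructor
    · rintro ⟨τ, hτ⟩
      refine ⟨f ⁻¹' D, ⟨τ, fun φ => ⟨fun h => ?_, fun h => ?_⟩⟩, ?_⟩
      · have h2 := (hτ (f φ)).1 h
        exact eq_of_heq (Sigma.mk.inj h2).2
      · have h2 := (hτ (f φ)).2 h
        exact eq_of_heq (Sigma.mk.inj h2).2
      · exact Set.image_preimage_eq _ f.surjective
    · rintro ⟨D', ⟨τ, hτ⟩, rfl⟩
      refine ⟨τ, fun x => ?_⟩
      obtain ⟨φ, rfl⟩ := f.surjective x
      constructor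
      · intro h
        have h2 : φ ∈ D' := by
          obtain ⟨φ', h3, h4⟩ := h
          rwa [← f.injective h4]
        exact congrArg (fun χ => (⟨(), χ⟩ : Σ _ : Unit, (E →+* ℂ))) ((hτ φ).1 h2)
      · intro h
        have h2 : φ ∉ D' := fun h3 => h ⟨φ, h3, rfl⟩
        exact congrArg (fun χ => (⟨(), χ⟩ : Σ _ : Unit, (E →+* ℂ))) ((hτ φ).2 h2)
  rw [h1]
  exact Set.ncard_image_of_injective _ f.injective.image_injective

/-- The number of pairs in the classes of embeddings of one CM field. -/
theorem class_of_manyFlips {r : ℕ} (h : ManyFlips r E) (x : Embs (fun _ : Unit => E)) :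
    ∃ n k : ℕ, finrank ℚ E = 2 * n ∧ Nat.card {z // SameClass x z} = 2 * k ∧ k ∣ n ∧ k < r := by
  obtain ⟨n, h1, h2⟩ := h
  have hcard : Nat.card (Embs (fun _ : Unit => E)) = 2 * n := by rw [card_embs, h1]
  have hdvd := class_dvd (G := ℂ ≃+* ℂ) (cb := bar) bar_bar bar_ne_top smul_bar embs_transitive x
  obtain ⟨k, hk⟩ := even_class (G := ℂ ≃+* ℂ) (cb := bar) bar_bar bar_ne_top smul_bar x
  have hk' : Nat.card {z // Link (ℂ ≃+* ℂ) bar x z} = 2 * k := by omega
  refine ⟨n, k, h1, hk', ?_, ?_⟩
  · rw [hcard, hk'] at hdvd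
    exact (Nat.mul_dvd_mul_iff_left two_pos).1 hdvd
  · exact pairs_lt bar_bar bar_ne_top smul_bar embs_transitive x hcard hk' (by
      rwa [ncard_flips])

end

end Pool.Agent.TH127.SC
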