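import Mathlib
import Pool.Agent.TH127.SC.Flips
import Pool.Agent.TH127.PT.Rel2

/-!
# Classes of embeddings for independent families of CM fields
-/

set_option linter.unusedSectionVars false
set_option linter.unusedVariables false

namespace Pool.Agent.TH127.SC

open NumberField Module Pool.Agent.W527 Pool.Agent.H204R3.CM Pool.Agent.H977R3.WN

noncomputable section

/-- For all `i ≠ i'` some automorphism of the complex numbers fixes all embeddings of `K i` and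
conjugates all embeddings of `K i'`. (That is, the intersection of the Galois closures of `K i` and
`K i'` in the complex numbers is a real field.) -/
def Independent {I : Type} (K : I → Type) [∀ i, Field (K i)] : Prop :=
  ∀ i i' : I, i ≠ i' → ∃ τ : ℂ ≃+* ℂ, (∀ φ : K i →+* ℂ, (τ : ℂ →+* ℂ).comp φ = φ) ∧
    ∀ φ : K i' →+* ℂ, (τ : ℂ →+* ℂ).comp φ = ComplexEmbedding.conjugate φ

/-- The degree of `E` is twice one, a prime number, or a product of two prime numbers and then the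
embeddings of `E` do not form one class; or `E` has many flips. -/
def FewPerClass (E : Type) [Field E] [NumberField E] : Prop :=
  SmallDegree E ∨ ManyFlips 4 E ∨ (ManyFlips 9 E ∧ ¬ 4 ∣ finrank ℚ E)

variable {E : Type} [Field E] [NumberField E] [IsCMField E]

theorem prime_cases {k : ℕ} (h0 : 0 < k) (h : k < 4 ∨ (k < 9 ∧ ¬ 2 ∣ k)) : k = 1 ∨ k.Prime := by
  have hk : k < 9 := by omega
  interval_cases k
  · exact Or.inl rfl
  · exact Or.inr Nat.prime_two
  · exact Or.inr Nat.prime_three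
  · omega
  · exact Or.inr Nat.prime_five
  · omega
  · right
    norm_num
  · omega

theorem good_of_fewPerClass (h : FewPerClass E) (x : Embs (fun _ : Unit => E)) : Good x := by
  rcases h with h | h | ⟨h, h'⟩
  · exact (good_of_smallDegree h x).1
  · obtain ⟨n, k, h1, h2, h3, h4⟩ := class_of_manyFlips h x
    have h0 : 0 < k := by
      rcases Nat.eq_zero_or_pos k with h5 | h5
      · subst h5
        have h6 : 0 < finrank ℚ E := finrank_pos
        rw [Nat.zero_dvd.1 h3] at h1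
        omega
      · exact h5
    refine ⟨fun z _ => embs_transitive x z, k, h2, ?_⟩
    rcases prime_cases h0 (Or.inl h4) with h5 | h5
    · exact Or.inl h5
    · exact Or.inr (Or.inl h5)
  · obtain ⟨n, k, h1, h2, h3, h4⟩ := class_of_manyFlips h x
    have h0 : 0 < k := by
      rcases Nat.eq_zero_or_pos k with h5 | h5
      · subst h5
        have h6 : 0 < finrank ℚ E := finrank_pos
        rw [Nat.zero_dvd.1 h3] at h1
        omega
      · exact h5
    refine ⟨fun z _ => embs_transitive x z, k, h2, ?_⟩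
    have h7 : ¬ 2 ∣ k := by
      intro h5
      apply h'
      obtain ⟨a, ha⟩ := h5.trans h3
      exact ⟨a, by omega⟩
    rcases prime_cases h0 (Or.inr ⟨h4, h7⟩) with h5 | h5
    · exact Or.inl h5
    · exact Or.inr (Or.inl h5)

theorem twoPairs_of_manyFlips (h : ManyFlips 3 E) (x : Embs (fun _ : Unit => E)) :
    Pool.Agent.TH127.PT.TwoPairs (ℂ ≃+* ℂ) bar x := by
  obtain ⟨n, k, h1, h2, h3, h4⟩ := class_of_manyFlips h x
  refine ⟨fun z _ => embs_transitive x z, ?_⟩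
  have h5 : Nat.card {z // Link (ℂ ≃+* ℂ) bar x z} = 2 * k := h2
  omega

section family

variable {I : Type} {K : I → Type} [∀ i, Field (K i)]

/-- An embedding of one member of the family. -/
def inj1 (i : I) (φ : K i →+* ℂ) : Embs K := ⟨i, φ⟩

/-- An embedding of one field. -/
def one1 {F : Type} [Field F] (φ : F →+* ℂ) : Embs (fun _ : Unit => F) := ⟨(), φ⟩

theorem inj1_eq {i : I} {φ φ' : K i →+* ℂ} : inj1 i φ = inj1 i φ' ↔ φ = φ' :=
  ⟨fun h => eq_of_heq (Sigma.mk.inj h).2, fun h => by rw [h]⟩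

theorem one1_eq {F : Type} [Field F] {φ φ' : F →+* ℂ} : one1 φ = one1 φ' ↔ φ = φ' :=
  ⟨fun h => eq_of_heq (Sigma.mk.inj h).2, fun h => by rw [h]⟩

theorem flip_one {i : I} {φ φ' : K i →+* ℂ} :
    Flip (ℂ ≃+* ℂ) bar (inj1 i φ) (inj1 i φ') ↔ Flip (ℂ ≃+* ℂ) bar (one1 φ) (one1 φ') := by
  have h1 : ∀ (g : ℂ ≃+* ℂ) (χ : K i →+* ℂ), g • inj1 i χ = inj1 i ((g : ℂ →+* ℂ).comp χ) :=
    fun _ _ => rfl
  have h2 : ∀ (g : ℂ ≃+* ℂ) (χ : K i →+* ℂ), g • one1 χ = one1 ((g : ℂ →+* ℂ).comp χ) :=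
    fun _ _ => rfl
  have h3 : ∀ (χ : K i →+* ℂ), bar (inj1 i χ) = inj1 i (ComplexEmbedding.conjugate χ) :=
    fun _ => rfl
  have h4 : ∀ (χ : K i →+* ℂ), bar (one1 χ) = one1 (ComplexEmbedding.conjugate χ) :=
    fun _ => rfl
  unfold Flip
  simp only [h1, h2, h3, h4, inj1_eq, one1_eq]

theorem link_one {i : I} {φ : K i →+* ℂ} {z : Embs (fun _ : Unit => K i)}
    (h : Link (ℂ ≃+* ℂ) bar (one1 φ) z) : Link (ℂ ≃+* ℂ) bar (inj1 i φ) (inj1 i z.2) := by
  have key : ∀ a b : Embs (fun _ : Unit => K i), Link (ℂ ≃+* ℂ) bar a b →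
      Link (ℂ ≃+* ℂ) bar (inj1 i a.2) (inj1 i b.2) := by
    intro a b h
    unfold Link at h
    induction h with
    | rel a b hab =>
      refine Relation.EqvGen.rel _ _ fun h => hab ?_
      obtain ⟨_, φ⟩ := a
      obtain ⟨_, φ'⟩ := b
      exact flip_one.1 h
    | refl a => exact link_refl _
    | symm a b _ ih => exact link_symm ih
    | trans a b c _ _ ih1 ih2 => exact link_trans ih1 ih2
  exact key _ _ h

theorem link_ind (hind : Independent K) {a b : Embs K} (h : Link (ℂ ≃+* ℂ) bar a b) :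
    ∃ (i : I) (φ φ' : K i →+* ℂ), a = inj1 i φ ∧ b = inj1 i φ' ∧
      Link (ℂ ≃+* ℂ) bar (one1 φ) (one1 φ') := by
  unfold Link at h
  induction h with
  | rel a b hab =>
    obtain ⟨i, φ⟩ := a
    obtain ⟨i', φ'⟩ := b
    by_cases hii : i = i'
    · subst hii
      exact ⟨i, φ, φ', rfl, rfl, Relation.EqvGen.rel _ _ fun h => hab (flip_one.2 h)⟩
    · exfalso
      obtain ⟨τ, h1, h2⟩ := hind i i' hii
      refine hab ⟨τ, Or.inl ⟨?_, ?_⟩⟩
      · exact congrArg (fun χ => (⟨i, χ⟩ : Σ i, (K i →+* ℂ))) (h1 φ)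
      · exact congrArg (fun χ => (⟨i', χ⟩ : Σ i, (K i →+* ℂ))) (h2 φ')
  | refl a => exact ⟨a.1, a.2, a.2, rfl, rfl, link_refl _⟩
  | symm a b _ ih =>
    obtain ⟨i, φ, φ', h1, h2, h3⟩ := ih
    exact ⟨i, φ', φ, h2, h1, link_symm h3⟩
  | trans a b c _ _ ih1 ih2 =>
    obtain ⟨i, φ, φ', h1, h2, h3⟩ := ih1
    obtain ⟨i', ψ, ψ', h4, h5, h6⟩ := ih2
    have h7 : inj1 i φ' = inj1 i' ψ := h2.symm.trans h4
    obtain ⟨h8, h9⟩ := Sigma.mk.inj h7
    change i = i' at h8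
    subst h8
    have h10 : φ' = ψ := eq_of_heq h9
    subst h10
    exact ⟨i, φ, ψ', h1, h5, link_trans h3 h6⟩

/-- The class in the family and the class for one field. -/
theorem card_class (hind : Independent K) (i : I) (φ : K i →+* ℂ) :
    Nat.card {z : Embs K // Link (ℂ ≃+* ℂ) bar (inj1 i φ) z} =
      Nat.card {z : Embs (fun _ : Unit => K i) // Link (ℂ ≃+* ℂ) bar (one1 φ) z} := by
  symm
  refine Nat.card_congr (Equiv.ofBijective (fun z => ⟨inj1 i z.1.2, link_one z.2⟩) ⟨?_, ?_⟩)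
  · rintro ⟨⟨_, χ⟩, hχ⟩ ⟨⟨_, χ'⟩, hχ'⟩ h
    have h0 : inj1 i χ = inj1 i χ' := Subtype.ext_iff.1 h
    have h1 : χ = χ' := inj1_eq.1 h0
    subst h1
    rfl
  · rintro ⟨z, hz⟩
    obtain ⟨i', ψ, ψ', h1, h2, h3⟩ := link_ind hind hz
    obtain ⟨h8, h9⟩ := Sigma.mk.inj h1
    change i = i' at h8
    subst h8
    have h10 : φ = ψ := eq_of_heq h9
    subst h10
    subst h2
    exact ⟨⟨one1 ψ', h3⟩, rfl⟩

theorem link_ind' (hind : Independent K) {i : I} {φ : K i →+* ℂ} {z : Embs K}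
    (h : Link (ℂ ≃+* ℂ) bar (inj1 i φ) z) :
    ∃ χ : K i →+* ℂ, z = inj1 i χ ∧ Link (ℂ ≃+* ℂ) bar (one1 φ) (one1 χ) := by
  obtain ⟨i', ψ, ψ', h1, h2, h3⟩ := link_ind hind h
  obtain ⟨h8, h9⟩ := Sigma.mk.inj h1
  change i = i' at h8
  subst h8
  have h10 : φ = ψ := eq_of_heq h9
  subst h10
  exact ⟨ψ', h2, h3⟩

theorem classPair_ind (hind : Independent K) {i : I} {φ : K i →+* ℂ}
    (h : ClassPair (ℂ ≃+* ℂ) bar (one1 φ)) : ClassPair (ℂ ≃+* ℂ) bar (inj1 i φ) := by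
  have h1 : ∀ (g : ℂ ≃+* ℂ) (χ : K i →+* ℂ), g • inj1 i χ = inj1 i ((g : ℂ →+* ℂ).comp χ) :=
    fun _ _ => rfl
  have h2 : ∀ (g : ℂ ≃+* ℂ) (χ : K i →+* ℂ), g • one1 χ = one1 ((g : ℂ →+* ℂ).comp χ) :=
    fun _ _ => rfl
  have h3 : ∀ (χ : K i →+* ℂ), bar (inj1 i χ) = inj1 i (ComplexEmbedding.conjugate χ) :=
    fun _ => rfl
  have h4 : ∀ (χ : K i →+* ℂ), bar (one1 χ) = one1 (ComplexEmbedding.conjugate χ) :=
    fun _ => rfl
  intro x y x' y' hx hy hx' hy' n1 n2 n3 n4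
  obtain ⟨x, rfl, kx⟩ := link_ind' hind hx
  obtain ⟨y, rfl, ky⟩ := link_ind' hind hy
  obtain ⟨x', rfl, kx'⟩ := link_ind' hind hx'
  obtain ⟨y', rfl, ky'⟩ := link_ind' hind hy'
  have h5 := h (one1 x) (one1 y) (one1 x') (one1 y') kx ky kx' ky'
  simp only [h1, h2, h3, h4, Ne, inj1_eq, one1_eq] at h5 n1 n2 n3 n4 ⊢
  exact h5 n1 n2 n3 n4

theorem classTriple_ind (hind : Independent K) {i : I} {φ : K i →+* ℂ}
    (h : ClassTriple (ℂ ≃+* ℂ) bar (one1 φ)) : ClassTriple (ℂ ≃+* ℂ) bar (inj1 i φ) := by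
  have h1 : ∀ (g : ℂ ≃+* ℂ) (χ : K i →+* ℂ), g • inj1 i χ = inj1 i ((g : ℂ →+* ℂ).comp χ) :=
    fun _ _ => rfl
  have h2 : ∀ (g : ℂ ≃+* ℂ) (χ : K i →+* ℂ), g • one1 χ = one1 ((g : ℂ →+* ℂ).comp χ) :=
    fun _ _ => rfl
  have h3 : ∀ (χ : K i →+* ℂ), bar (inj1 i χ) = inj1 i (ComplexEmbedding.conjugate χ) :=
    fun _ => rfl
  have h4 : ∀ (χ : K i →+* ℂ), bar (one1 χ) = one1 (ComplexEmbedding.conjugate χ) :=
    fun _ => rfl
  intro x y hx hy n1 n2
  choose x' hx' kx using fun k => link_ind' hind (hx k)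
  choose y' hy' ky using fun k => link_ind' hind (hy k)
  have h5 := h (fun k => one1 (x' k)) (fun k => one1 (y' k)) kx ky
  simp only [hx', hy', h1, h2, h3, h4, Ne, inj1_eq, one1_eq] at h5 n1 n2 ⊢
  exact h5 n1 n2

variable [∀ i, NumberField (K i)] [∀ i, IsCMField (K i)]

theorem translate_of_link (hind : Independent K) {x z : Embs K}
    (h : Link (ℂ ≃+* ℂ) bar x z) : ∃ g : ℂ ≃+* ℂ, g • x = z := by
  obtain ⟨i, φ, φ', rfl, rfl, _⟩ := link_ind hind h
  obtain ⟨g, hg⟩ := embs_transitive (E := K i) (one1 φ) (one1 φ')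
  refine ⟨g, ?_⟩
  have h1 : (g : ℂ →+* ℂ).comp φ = φ' := eq_of_heq (Sigma.mk.inj hg).2
  exact congrArg (fun χ => (⟨i, χ⟩ : Σ i, (K i →+* ℂ))) h1

theorem twoPairs_of_independent (hind : Independent K) (h : ∀ i, ManyFlips 3 (K i))
    (x : Embs K) : Pool.Agent.TH127.PT.TwoPairs (ℂ ≃+* ℂ) bar x := by
  obtain ⟨i, φ⟩ := x
  refine ⟨fun z hz => translate_of_link hind hz, ?_⟩
  have h1 := (twoPairs_of_manyFlips (h i) (one1 φ)).2
  rw [← card_class hind i φ] at h1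
  exact h1

/-- Good classes for independent families. -/
theorem good_of_independent (hind : Independent K)
    (h : ∀ i, FewPerClass (K i)) (x : Embs K) : Good x := by
  obtain ⟨i, φ⟩ := x
  obtain ⟨htr, b, hb, hb'⟩ := good_of_fewPerClass (h i) (one1 φ)
  refine ⟨fun z hz => translate_of_link hind hz, b, ?_, ?_⟩
  · rw [← card_class hind i φ] at hb
    exact hb
  · rcases hb' with hb' | hb' | ⟨h1, hb'⟩
    · exact Or.inl hb'
    · exact Or.inr (Or.inl hb')
    · refine Or.inr (Or.inr ⟨classPair_ind hind h1, ?_⟩)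
      rcases hb' with hb' | hb' | hb'
      · exact Or.inl hb'
      · exact Or.inr (Or.inl hb')
      · exact Or.inr (Or.inr (classTriple_ind hind hb'))

theorem not_isomorphic_of_independent (hind : Independent K) {i i' : I} (hii : i ≠ i') :
    IsEmpty (K i ≃+* K i') := by
  refine ⟨fun e => ?_⟩
  obtain ⟨τ, h1, h2⟩ := hind i i' hii
  obtain ⟨φ⟩ : Nonempty (K i' →+* ℂ) := inferInstance
  have h3 := h1 (φ.comp (e : K i →+* K i'))
  have h4 := h2 φ
  have h5 : (τ : ℂ →+* ℂ).comp φ = φ := by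
    ext x
    obtain ⟨y, rfl⟩ := e.surjective x
    exact RingHom.congr_fun h3 y
  rw [h5] at h4
  exact bar_ne_top (K := fun _ : Unit => K i') ⟨(), φ⟩
    (congrArg (fun χ => (⟨(), χ⟩ : Σ _ : Unit, (K i' →+* ℂ))) h4.symm)

end family

end

end Pool.Agent.TH127.SC
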